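import Pool.Agent.H68.KB.Perm

set_option autoImplicit false

open Finset

namespace Pool.Agent.H68.KB

variable {A M : Type} [CommRing A] [AddCommGroup M]

lemma skip_lt {s d i : ℕ} (h : i < s) : skip s d i = i := by rw [skip, if_pos h]
lemma skip_ge {s d i : ℕ} (h : s ≤ i) : skip s d i = i + d := by rw [skip, if_neg (by omega)]

lemma wt_del {l s d : ℕ} (b : ℕ → ℕ) (h : s + d ≤ l) (hlt : ∀ i, i < b i)
    (hb : ∀ j, j < d → b (s + j) = s + d + j) :
    wt l b = wt (l - d) (del s d b) + (d * l + ∑ j ∈ range d, j) := by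
  unfold wt
  rw [Finset.range_eq_Ico, Finset.range_eq_Ico, ← Finset.sum_Ico_consecutive b (Nat.zero_le (s + d)) h,
    ← Finset.sum_Ico_consecutive b (Nat.zero_le s) (by omega : s ≤ s + d),
    ← Finset.sum_Ico_consecutive (del s d b) (Nat.zero_le s) (by omega : s ≤ l - d)]
  have e1 : ∑ i ∈ Ico 0 s, b i = ∑ i ∈ Ico 0 s, del s d b i := by
    refine Finset.sum_congr rfl fun i hi => ?_
    rw [mem_Ico] at hi
    rw [del, if_pos hi.2]
  have e2 : ∑ i ∈ Ico s (s + d), b i = d * (s + d) + ∑ j ∈ range d, j := by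
    rw [Finset.sum_Ico_eq_sum_range, show s + d - s = d by omega]
    have : ∑ k ∈ range d, b (s + k) = ∑ k ∈ range d, ((s + d) + k) :=
      Finset.sum_congr rfl fun k hk => hb k (mem_range.1 hk)
    rw [this, Finset.sum_add_distrib, Finset.sum_const, card_range, smul_eq_mul]
  have e3 : ∑ i ∈ Ico (s + d) l, b i = (∑ i ∈ Ico s (l - d), del s d b i) + d * (l - d - s) := by
    have h1 : Ico (s + d) l = Ico (s + d) (l - d + d) := by rw [Nat.sub_add_cancel (by omega)]
    rw [h1, ← Finset.sum_Ico_add' b s (l - d) d]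
    have h2 : ∑ x ∈ Ico s (l - d), b (x + d) = ∑ x ∈ Ico s (l - d), (del s d b x + d) := by
      refine Finset.sum_congr rfl fun i hi => ?_
      rw [mem_Ico] at hi
      have := hlt (i + d)
      rw [del, if_neg (by omega)]; omega
    rw [h2, Finset.sum_add_distrib, Finset.sum_const, Nat.card_Ico, smul_eq_mul, mul_comm d]
  rw [e1, e2, e3]
  have e4 : d * l = d * (s + d) + d * (l - d - s) := by
    rw [← mul_add]; congr 1; omega
  rw [Finset.range_eq_Ico] at *
  rw [e4]; ring

/-- the bounce function after inserting the rectangle at `s2` -/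
def ins (s2 d : ℕ) (b : ℕ → ℕ) : ℕ → ℕ := fun i =>
  if i < s2 then b i else if i < s2 + d then i + d else b (i - d) + d

lemma del_ins (s2 d : ℕ) (b : ℕ → ℕ) : del s2 d (ins s2 d b) = b := by
  funext i
  unfold del ins
  by_cases h : i < s2
  · rw [if_pos h, if_pos h]
  · rw [if_neg h, if_neg (by omega), if_neg (by omega), Nat.add_sub_cancel, Nat.add_sub_cancel]

/-- the row permutation moving the rectangle from `s` to `s2` -/
def rho (s s2 d : ℕ) : ℕ → ℕ := fun i =>
  if i < s2 then skip s d i else if i < s2 + d then i - s2 + s else skip s d (i - d)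

lemma exists_top {l : ℕ} {b : ℕ → ℕ} (hmono : ∀ i, i + 1 < l → b i < b (i + 1)) (i : ℕ)
    (hi : 0 < i) (hil : i ≤ l) :
    ∃ s, s < i ∧ (∀ j, s ≤ j → j < i → b j = b s + (j - s)) ∧ (0 < s → b (s - 1) + 2 ≤ b s) := by
  classical
  have hex : ∃ s, s < i ∧ b (i - 1) = b s + (i - 1 - s) := ⟨i - 1, by omega, by simp⟩
  obtain ⟨h1, h2⟩ := Nat.find_spec hex
  set s := Nat.find hex with hs
  refine ⟨s, h1, ?_, ?_⟩
  · intro j hj1 hj2
    have a1 := mono_add hmono s (j - s) (by omega)
    have a2 := mono_add hmono j (i - 1 - j) (by omega)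
    rw [show s + (j - s) = j by omega] at a1
    rw [show j + (i - 1 - j) = i - 1 by omega] at a2
    omega
  · intro hs0
    have h3 := Nat.find_min hex (show s - 1 < Nat.find hex by omega)
    have a1 := mono_add hmono (s - 1) (i - 1 - (s - 1)) (by omega)
    rw [show s - 1 + (i - 1 - (s - 1)) = i - 1 by omega] at a1
    have h4 : b (i - 1) ≠ b (s - 1) + (i - 1 - (s - 1)) := by
      intro hh; exact h3 ⟨by omega, hh⟩
    omega

namespace Sys

/-- the fixed factor of the isolated rectangle -/
lemma F0_fix (S : Sys A M) (s d : ℕ) (hsd : s + d ≤ S.l) :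
    ∀ i j, i < S.l - d → j < S.l - d → S.tau (skip s d i) (skip s d j)
      (S.LL (Ico s (s + d)) * S.WI s d) = S.LL (Ico s (s + d)) * S.WI s d := by
  intro i j hi hj
  have hi' : skip s d i < S.l := by unfold skip; split_ifs <;> omega
  have hj' : skip s d j < S.l := by unfold skip; split_ifs <;> omega
  have hi2 : ∀ q, s ≤ q → q < s + d → q ≠ skip s d i := by
    intro q h1 h2; unfold skip; split_ifs <;> omega
  have hj2 : ∀ q, s ≤ q → q < s + d → q ≠ skip s d j := by
    intro q h1 h2; unfold skip; split_ifs <;> omega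
  rw [map_mul]
  congr 1
  · unfold Sys.LL Sys.L
    rw [map_prod]
    refine Finset.prod_congr rfl fun q hq => ?_
    rw [mem_Ico] at hq
    rw [map_sub, map_one, S.tau_o _ _ q hi' hj' (hi2 q hq.1 hq.2) (hj2 q hq.1 hq.2)]
  · unfold Sys.WI
    rw [map_prod]
    refine Finset.prod_congr rfl fun k hk => ?_
    rw [mem_range] at hk
    have ho := S.tau_o _ _ (s + k) hi' hj' (hi2 _ (by omega) (by omega)) (hj2 _ (by omega) (by omega))
    rw [map_mul, map_pow, map_prod, map_sub, map_one, ho]
    congr 1
    refine Finset.prod_congr rfl fun q hq => ?_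
    rw [mem_Ico] at hq
    rw [map_sub, map_one, map_mul, ho,
      S.tau_Io _ _ q hi' hj' (hi2 q (by omega) hq.2) (hj2 q (by omega) hq.2)]

/-- the system of the rows outside a rectangle -/
def del1 (S : Sys A M) (s d : ℕ) (hsd : s + d ≤ S.l) : Sys A M :=
  S.delS s d hsd (S.LL (Ico s (s + d)) * S.WI s d) (S.F0_fix s d hsd)

/-- factoring out a rectangle -/
lemma factor_out (S : Sys A M) (s d i : ℕ) (b : ℕ → ℕ) (hd : 0 < d) (hsd : s + d ≤ S.l)
    (hi : i ≤ S.l) (hsi : s + d ≤ i) (hlt : ∀ i, i < b i)
    (hmono : ∀ i, i + 1 < S.l → b i < b (i + 1)) (hb : ∀ j, j < d → b (s + j) = s + d + j) :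
    S.Phi (S.LL (range i) * S.W b) =
      (S.del1 s d hsd).Phi ((S.del1 s d hsd).LL (range (i - d)) * (S.del1 s d hsd).W (del s d b)) := by
  rw [S.rect s d b hsd hd hlt hmono hb (S.LL (range i)) (fun k hk => by
    refine S.tau_LL _ (by omega) _ ?_
    simp only [mem_range]; omega)]
  show _ = S.Phi ((S.LL (Ico s (s + d)) * S.WI s d) *
    ((S.del1 s d hsd).LL (range (i - d)) * (S.del1 s d hsd).W (del s d b)))
  have e1 : (S.del1 s d hsd).W (del s d b) = S.Wr s d (del s d b) := rfl
  have e2 : S.LL (range i) = S.LL (Ico s (s + d)) * (S.del1 s d hsd).LL (range (i - d)) := by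
    have e3 : (S.del1 s d hsd).LL (range (i - d)) = ∏ j ∈ range (i - d), S.L (skip s d j) := rfl
    rw [e3]
    unfold Sys.LL
    rw [Finset.range_eq_Ico, ← Finset.prod_Ico_consecutive S.L (Nat.zero_le (s + d)) hsi,
      ← Finset.prod_Ico_consecutive S.L (Nat.zero_le s) (by omega : s ≤ s + d),
      Finset.range_eq_Ico, ← Finset.prod_Ico_consecutive _ (Nat.zero_le s) (by omega : s ≤ i - d)]
    have e4 : ∏ j ∈ Ico 0 s, S.L (skip s d j) = ∏ j ∈ Ico 0 s, S.L j := by
      refine Finset.prod_congr rfl fun j hj => ?_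
      rw [mem_Ico] at hj
      rw [skip_lt hj.2]
    have e5 : ∏ j ∈ Ico s (i - d), S.L (skip s d j) = ∏ j ∈ Ico (s + d) i, S.L j := by
      have h1 : Ico (s + d) i = Ico (s + d) (i - d + d) := by rw [Nat.sub_add_cancel (by omega)]
      rw [h1, ← Finset.prod_Ico_add' S.L s (i - d) d]
      refine Finset.prod_congr rfl fun j hj => ?_
      rw [mem_Ico] at hj
      rw [skip_ge hj.1]
    rw [e4, e5]; ring
  rw [e1, e2]
  congr 1
  ring

/-- inserting a rectangle -/
lemma insert_cone (S : Sys A M) (s d : ℕ) (hd : 0 < d) (hsd : s + d ≤ S.l) (b : ℕ → ℕ)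
    (hv : Valid (S.l - d) 0 b) :
    ((-1 : ℤ) ^ (wt (S.l - d) b + ((d * S.l + ∑ j ∈ range d, j) + d))) •
      (S.del1 s d hsd).Phi ((S.del1 s d hsd).LL (range 0) * (S.del1 s d hsd).W b) ∈ S.cone 0 := by
  classical
  obtain ⟨hlt, hmono, _⟩ := hv
  -- the place of insertion
  have hex : ∃ k, S.l - d ≤ k ∨ k + d < b k := ⟨S.l - d, Or.inl le_rfl⟩
  set s2 := Nat.find hex with hs2
  have hs2l : s2 ≤ S.l - d := Nat.find_min' hex (Or.inl le_rfl)
  have hs2a : ∀ k, k < s2 → b k ≤ k + d := by
    intro k hk
    have := Nat.find_min hex hk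
    omega
  have hs2b : s2 < S.l - d → s2 + d < b s2 := by
    intro h
    rcases Nat.find_spec hex with h1 | h1
    · omega
    · exact h1
  -- the permuted system
  have r1 : ∀ i, i < S.l → rho s s2 d i < S.l := by
    intro i hi; unfold rho skip; split_ifs <;> omega
  have r2 : ∀ i, S.l ≤ i → S.l ≤ rho s s2 d i := by
    intro i hi; unfold rho skip; split_ifs <;> omega
  have r3 : ∀ i j, i < S.l → j < S.l → rho s s2 d i = rho s s2 d j → i = j := by
    intro i j hi hj; unfold rho skip; split_ifs <;> omega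
  set S2 := S.perm (rho s s2 d) r1 r2 r3 with hS2
  have hl : S2.l = S.l := rfl
  have hlt2 : ∀ i, i < ins s2 d b i := by
    intro i
    have h1 := hlt i
    have h2 := hlt (i - d)
    unfold ins; split_ifs <;> omega
  have hmono2 : ∀ i, i + 1 < S2.l → ins s2 d b i < ins s2 d b (i + 1) := by
    intro i hi
    rw [hl] at hi
    have a1 : i + 1 < s2 → b i < b (i + 1) := fun h => hmono i (by omega)
    have a2 : i + 1 = s2 → b i ≤ i + d := fun h => hs2a i (by omega)
    have a3 : i + 1 = s2 + d → s2 + d < b (i + 1 - d) := by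
      intro h
      rw [h, Nat.add_sub_cancel]
      exact hs2b (by omega)
    have a4 : s2 + d ≤ i → b (i - d) < b (i + 1 - d) := by
      intro h
      have := hmono (i - d) (by omega)
      rwa [show i - d + 1 = i + 1 - d by omega] at this
    unfold ins
    split_ifs <;> omega
  have hcons2 : ∀ j, j < d → ins s2 d b (s2 + j) = s2 + d + j := by
    intro j hj; unfold ins; rw [if_neg (by omega), if_pos (by omega)]; ring
  have hP1 := S2.P1 s2 d (ins s2 d b) hd (by rw [hl]; omega) hlt2 hmono2 hcons2 (by
    intro h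
    rw [hl] at h
    unfold ins
    rw [if_neg (by omega), if_neg (by omega), Nat.add_sub_cancel]
    have := hs2b (by omega)
    omega)
  rw [S2.rect s2 d (ins s2 d b) (by rw [hl]; omega) hd hlt2 hmono2 hcons2 _ (fun k hk => by
    refine S2.tau_LL _ (by rw [hl]; omega) _ ?_
    simp only [mem_Ico]; omega), del_ins] at hP1
  have hwt := wt_del (l := S.l) (s := s2) (d := d) (ins s2 d b) (by omega) hlt2 hcons2
  rw [del_ins] at hwt
  rw [hl, hwt] at hP1
  have hP1' := (S.perm_cone (rho s s2 d) r1 r2 r3) hP1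
  -- identification
  have hrho1 : ∀ j, j < d → rho s s2 d (s2 + j) = s + j := by
    intro j hj; unfold rho; rw [if_neg (by omega), if_pos (by omega)]; omega
  have hrho2 : ∀ j, rho s s2 d (skip s2 d j) = skip s d j := by
    intro j
    by_cases h : j < s2
    · rw [skip_lt (s := s2) h]; unfold rho; rw [if_pos h]
    · rw [skip_ge (s := s2) (by omega)]; unfold rho
      rw [if_neg (by omega), if_neg (by omega), Nat.add_sub_cancel]
  have e1 : S2.LL (Ico s2 (s2 + d)) = S.LL (Ico s (s + d)) := by
    unfold Sys.LL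
    rw [Finset.prod_Ico_eq_prod_range, Finset.prod_Ico_eq_prod_range, show s2 + d - s2 = d by omega,
      show s + d - s = d by omega]
    refine Finset.prod_congr rfl fun j hj => ?_
    rw [mem_range] at hj
    show 1 - S.O (rho s s2 d (s2 + j)) = 1 - S.O (s + j)
    rw [hrho1 j hj]
  have e2 : S2.WI s2 d = S.WI s d := by
    unfold Sys.WI
    refine Finset.prod_congr rfl fun j hj => ?_
    rw [mem_range] at hj
    have ho : S2.O (s2 + j) = S.O (s + j) := by
      show S.O (rho s s2 d (s2 + j)) = _
      rw [hrho1 j hj]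
    rw [ho]
    congr 1
    rw [Finset.prod_Ico_eq_prod_range, Finset.prod_Ico_eq_prod_range,
      show s2 + d - (s2 + j + 1) = d - (j + 1) by omega, show s + d - (s + j + 1) = d - (j + 1) by omega]
    refine Finset.prod_congr rfl fun q hq => ?_
    rw [mem_range] at hq
    have hi : S2.I (s2 + j + 1 + q) = S.I (s + j + 1 + q) := by
      show S.I (rho s s2 d (s2 + j + 1 + q)) = _
      rw [show s2 + j + 1 + q = s2 + (j + 1 + q) by ring, hrho1 _ (by omega)]
      congr 1; ring
    rw [hi]
  have e3 : S2.Wr s2 d b = (S.del1 s d hsd).W b := by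
    unfold Sys.Wr Sys.W
    rw [hl]
    refine Finset.prod_congr rfl fun i _ => ?_
    refine Finset.prod_congr rfl fun q _ => ?_
    show 1 - S.O (rho s s2 d (skip s2 d i)) * S.I (rho s s2 d (skip s2 d q)) =
      1 - S.O (skip s d i) * S.I (skip s d q)
    rw [hrho2, hrho2]
  rw [e1, e2, e3] at hP1'
  have e4 : (S.del1 s d hsd).Phi ((S.del1 s d hsd).LL (range 0) * (S.del1 s d hsd).W b) =
      S2.Phi (S.LL (Ico s (s + d)) * S.WI s d * (S.del1 s d hsd).W b) := by
    rw [LL_zero, one_mul]
    rfl
  rw [e4]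
  rw [← add_assoc (wt (S.l - d) b)]
  exact hP1'

/-- **assembly** -/
theorem assembly (i : ℕ) : ∀ (S : Sys A M) (b : ℕ → ℕ), i ≤ S.l → (∀ i, i < b i) →
    (∀ i, i + 1 < S.l → b i < b (i + 1)) → (0 < i → i < S.l → b (i - 1) + 1 < b i) →
    ((-1 : ℤ) ^ (wt S.l b + i)) • S.Phi (S.LL (range i) * S.W b) ∈ S.cone 0 := by
  induction i using Nat.strong_induction_on with
  | _ i ih =>
  intro S b hil hlt hmono hcorner
  rcases Nat.eq_zero_or_pos i with hi0 | hi0
  · subst hi0
    apply AddSubmonoid.subset_closure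
    exact ⟨b, ⟨hlt, hmono, fun h => absurd h (lt_irrefl 0)⟩, by rw [add_zero]⟩
  obtain ⟨s, hsi, hcons, htop⟩ := exists_top hmono i hi0 hil
  by_cases hbs : i + 1 ≤ b s
  · have hP2 := S.P2 s i b hsi hil hlt hmono hcons htop hbs (hcorner hi0)
    have h2 := S.sign_closure (t := 0) (t' := s) S s (fun b' hv => by
      obtain ⟨v1, v2, v3⟩ := hv
      exact ih s hsi S b' (by omega) v1 v2 (fun h0 _ => by have := v3 h0; omega)) _ hP2
    rw [smul_smul, ← pow_add] at h2
    rwa [show s + (wt S.l b + (i - s)) = wt S.l b + i by omega] at h2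
  · -- rectangle
    have hls := hlt s
    obtain ⟨d, hd⟩ : ∃ d, b s = s + d := ⟨b s - s, by omega⟩
    have hd0 : 0 < d := by omega
    have hsd : s + d ≤ S.l := by omega
    have hb : ∀ j, j < d → b (s + j) = s + d + j := by
      intro j hj
      rw [hcons (s + j) (by omega) (by omega), hd]; omega
    rw [S.factor_out s d i b hd0 hsd hil (by omega) hlt hmono hb]
    have hbig : ∀ k, s + d ≤ k → k < S.l → k + d ≤ b k := by
      intro k hk hkl
      have := mono_add hmono s (k - s) (by omega)
      rw [show s + (k - s) = k by omega] at this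
      omega
    have hIH := ih (i - d) (by omega) (S.del1 s d hsd) (del s d b)
      (by show i - d ≤ S.l - d; omega)
      (by
        intro j
        unfold del
        have a1 := hlt j
        have a2 := hlt (j + d)
        split_ifs <;> omega)
      (by
        intro j hj
        have hj' : j + 1 < S.l - d := hj
        have a1 : j + 1 < s → b j < b (j + 1) := fun h => hmono j (by omega)
        have a2 : j + 1 = s → b j < b s := fun h => mono_lt hmono j s (by omega) (by omega)
        have a3 : j + 1 = s → s + 2 * d ≤ b (j + 1 + d) := by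
          intro h
          have h1 := mono_lt hmono (s + (d - 1)) (j + 1 + d) (by omega) (by omega)
          rw [hb (d - 1) (by omega)] at h1
          omega
        have a4 : s ≤ j → b (j + d) < b (j + 1 + d) := by
          intro h
          have := hmono (j + d) (by omega)
          rwa [show j + d + 1 = j + 1 + d by ring] at this
        have a5 := hlt (j + d)
        unfold del
        split_ifs <;> omega)
      (by
        intro h0 h1
        have h1' : i - d < S.l - d := h1
        have hc := hcorner hi0 (by omega)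
        unfold del
        by_cases hsid : s ≤ i - d - 1 ∧ s < i - d
        · rw [if_neg (by omega), if_neg (by omega), show i - d - 1 + d = i - 1 by omega,
            show i - d + d = i by omega]
          have := hlt (i - 1)
          omega
        · have hsid' : i = s + d := by omega
          rw [if_pos (by omega), if_neg (by omega), show i - d + d = i by omega,
            show i - d - 1 = s - 1 by omega]
          have a1 := mono_lt hmono (s - 1) s (by omega) (by omega)
          have a2 := hb (d - 1) (by omega)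
          rw [show s + (d - 1) = i - 1 by omega] at a2
          omega)
    have h2 := S.sign_closure (t := 0) (t' := 0) (S.del1 s d hsd) ((d * S.l + ∑ j ∈ range d, j) + d)
      (fun b' hv => S.insert_cone s d hd0 hsd b' hv) _ hIH
    rw [smul_smul, ← pow_add] at h2
    have hwt := wt_del (l := S.l) (s := s) (d := d) b hsd hlt hb
    have hexp : (d * S.l + ∑ j ∈ range d, j) + d + (wt (S.del1 s d hsd).l (del s d b) + (i - d)) =
        wt S.l b + i := by
      have : (S.del1 s d hsd).l = S.l - d := rfl
      rw [this, hwt]; omega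
    rwa [hexp] at h2

end Sys

end Pool.Agent.H68.KB
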