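import Pool.Agent.H68.KB.Local

set_option autoImplicit false

open Finset

namespace Pool.Agent.H68.KB

variable {A M : Type} [CommRing A] [AddCommGroup M]

/-- strict monotonicity on the rows -/
lemma mono_lt {l : ℕ} {b : ℕ → ℕ} (hmono : ∀ i, i + 1 < l → b i < b (i + 1)) :
    ∀ i j, i < j → j < l → b i < b j := by
  intro i j hij
  induction j, hij using Nat.le_induction with
  | base => intro hj; exact hmono i hj
  | succ j hj ih => intro hjl; exact lt_trans (ih (by omega)) (hmono j hjl)

lemma mono_inj {l : ℕ} {b : ℕ → ℕ} (hmono : ∀ i, i + 1 < l → b i < b (i + 1))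
    (i j : ℕ) (hi : i < l) (hj : j < l) (h : b i = b j) : i = j := by
  rcases lt_trichotomy i j with h1 | h1 | h1
  · have := mono_lt hmono i j h1 hj; omega
  · exact h1
  · have := mono_lt hmono j i h1 hi; omega

lemma mono_add {l : ℕ} {b : ℕ → ℕ} (hmono : ∀ i, i + 1 < l → b i < b (i + 1))
    (i k : ℕ) (h : i + k < l) : b i + k ≤ b (i + k) := by
  induction k with
  | zero => simp
  | succ k ih =>
    have h1 := ih (by omega)
    have h2 := hmono (i + k) (by omega)
    have : i + (k + 1) = i + k + 1 := by ring
    rw [this]; omega

namespace Sys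

variable (S : Sys A M)

lemma tau_P (r : ℕ) (hr : r + 1 < S.l) (u y m : ℕ)
    (h : ∀ i, i < m → u + i ≠ r ∧ u + i ≠ r + 1 ∧ y + i ≠ r ∧ y + i ≠ r + 1) :
    S.tau r (r + 1) (S.P u y m) = S.P u y m := by
  unfold Sys.P
  rw [map_prod]
  refine Finset.prod_congr rfl fun i hi => ?_
  obtain ⟨h1, h2, h3, h4⟩ := h i (mem_range.1 hi)
  rw [map_mul, S.tau_o r (r + 1) _ (by omega) hr h1 h2, S.tau_Io r (r + 1) _ (by omega) hr h3 h4]

lemma P_succ (u y m : ℕ) : S.P u y (m + 1) = S.P u y m * (S.O (u + m) * S.I (y + m)) := by
  unfold Sys.P; rw [Finset.prod_range_succ]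

lemma P_succ' (u y m : ℕ) : S.P u y (m + 1) = (S.O u * S.I y) * S.P (u + 1) (y + 1) m := by
  unfold Sys.P; rw [Finset.prod_range_succ']
  rw [mul_comm]
  congr 1
  refine Finset.prod_congr rfl fun i _ => ?_
  rw [show u + (i + 1) = u + 1 + i by ring, show y + (i + 1) = y + 1 + i by ring]

lemma P_zero (u y : ℕ) : S.P u y 0 = 1 := by unfold Sys.P; simp

/-- one level of a chain, first `j` pairs -/
lemma level_partial (b : ℕ → ℕ) (hmono : ∀ i, i + 1 < S.l → b i < b (i + 1))
    (x m E u : ℕ) (c : ℕ → ℕ) (F : A) (hxm : x + m < S.l) (hE : x + m + 1 ≤ E)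
    (hcb : ∀ i, i < x → c i = b i) (hc0 : c x = E) (hc1 : ∀ i, i < m → c (x + 1 + i) = E + i)
    (hF : ∀ j, j < m → S.tau (x + j) (x + j + 1) F = F) :
    ∀ j, j ≤ m → (∀ i, i < j → b (u + i) = x + 1 + i ∧ u + i < x) →
      S.Phi (F * S.P (x + 1) E m * S.W c) =
      S.Phi (F * S.P u x j * S.P (x + 1 + j) (E + j) (m - j) *
        S.W (fun i => c i + (if x + 1 ≤ i ∧ i ≤ x + j then 1 else 0)
          - (if u ≤ i ∧ i < u + j then 1 else 0))) := by
  intro j
  induction j with
  | zero =>
    intro _ _
    rw [P_zero]
    have : S.W c = S.W (fun i => c i + (if x + 1 ≤ i ∧ i ≤ x + 0 then 1 else 0)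
          - (if u ≤ i ∧ i < u + 0 then 1 else 0)) := by
      apply S.W_congr
      intro i _
      simp only [add_zero]
      rw [if_neg (by omega), if_neg (by omega)]; omega
    rw [← this]; simp
  | succ j ih =>
    intro hj hu
    rw [ih (by omega) (fun i hi => hu i (by omega))]
    obtain ⟨hbj, hjx⟩ := hu j (by omega)
    have hm : m - j = (m - (j + 1)) + 1 := by omega
    rw [hm, P_succ', P_succ]
    set G : A := F * S.P u x j * S.P (x + 1 + (j + 1)) (E + (j + 1)) (m - (j + 1)) with hG
    have e1 : F * S.P u x j * (S.O (x + 1 + j) * S.I (E + j) * S.P (x + 1 + j + 1) (E + j + 1) (m - (j + 1)))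
        = G * (S.O (x + j + 1) * S.I (E + j)) := by
      rw [hG, show x + 1 + j + 1 = x + 1 + (j + 1) by ring, show E + j + 1 = E + (j + 1) by ring,
        show x + 1 + j = x + j + 1 by ring]
      ring
    have e2 : F * (S.P u x j * (S.O (u + j) * S.I (x + j))) *
        S.P (x + 1 + (j + 1)) (E + (j + 1)) (m - (j + 1)) = G * (S.O (u + j) * S.I (x + j)) := by
      rw [hG]; ring
    rw [e1, e2]
    set cj : ℕ → ℕ := (fun i => c i + (if x + 1 ≤ i ∧ i ≤ x + j then 1 else 0)
          - (if u ≤ i ∧ i < u + j then 1 else 0)) with hcj
    have hcjr : cj (x + j) = E + j := by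
      rcases Nat.eq_zero_or_pos j with h0 | h0
      · subst h0
        simp only [hcj, add_zero]
        rw [if_neg (by omega), if_neg (by omega), hc0]; rfl
      · simp only [hcj]
        have := hc1 (j - 1) (by omega)
        rw [show x + 1 + (j - 1) = x + j by omega] at this
        rw [if_pos (by omega), if_neg (by omega), this]; omega
    have hcjr1 : cj (x + j + 1) = E + j := by
      simp only [hcj]
      have := hc1 j (by omega)
      rw [show x + 1 + j = x + j + 1 by omega] at this
      rw [if_neg (by omega), if_neg (by omega), this]; omega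
    have := S.rule_chain (x + j) (u + j) (by omega) (by omega) cj
      (fun i => c i + (if x + 1 ≤ i ∧ i ≤ x + (j + 1) then 1 else 0)
          - (if u ≤ i ∧ i < u + (j + 1) then 1 else 0))
      (by rw [hcjr, hcjr1]) (by rw [hcjr]; omega)
      (by
        simp only [hcj]
        rw [if_neg (by omega), if_neg (by omega), hcb _ hjx, hbj]; omega)
      (by
        intro i hi hia
        simp only [hcj]
        by_cases hix : i < x
        · rw [if_neg (by omega), hcb i hix]
          by_cases hiu : u ≤ i ∧ i < u + j
          · rw [if_pos hiu]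
            have := (hu (i - u) (by omega)).1
            rw [show u + (i - u) = i by omega] at this
            omega
          · rw [if_neg hiu]
            intro h
            apply hia
            apply mono_inj hmono i (u + j) (by omega) (by omega)
            omega
        · by_cases hix' : i = x
          · subst hix'
            rw [if_neg (by omega), if_neg (by omega), hc0]; omega
          · have := hc1 (i - x - 1) (by omega)
            rw [show x + 1 + (i - x - 1) = i by omega] at this
            rw [if_pos (by omega), if_neg (by omega), this]; omega)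
      (by
        intro k hk hka hkr
        simp only [hcj]
        split_ifs <;> omega)
      (by
        have := hcb _ hjx
        rw [if_neg (by omega), if_pos (by omega), this, hbj]; omega)
      (by
        rw [hcjr1]
        have := hc1 j (by omega)
        rw [show x + 1 + j = x + j + 1 by omega] at this
        rw [if_pos (by omega), if_neg (by omega), this]; omega)
      G
      (by
        rw [hG, map_mul, map_mul, hF j (by omega)]
        rw [S.tau_P (x + j) (by omega) u x j (fun i hi => by
          have := (hu i (by omega)).2; omega)]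
        rw [S.tau_P (x + j) (by omega) _ _ _ (fun i hi => by omega)])
    rw [hcjr] at this
    exact this

/-- a missing row makes everything vanish -/
lemma level_zero (b : ℕ → ℕ) (hmono : ∀ i, i + 1 < S.l → b i < b (i + 1))
    (x m E u : ℕ) (c : ℕ → ℕ) (F : A) (hxm : x + m < S.l) (hE : x + m + 1 ≤ E)
    (hcb : ∀ i, i < x → c i = b i) (hc0 : c x = E) (hc1 : ∀ i, i < m → c (x + 1 + i) = E + i)
    (hF : ∀ j, j < m → S.tau (x + j) (x + j + 1) F = F)
    (j : ℕ) (hj : j < m) (hu : ∀ i, i < j → b (u + i) = x + 1 + i ∧ u + i < x)
    (hno : ∀ i, i < x → b i ≠ x + 1 + j) :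
    S.Phi (F * S.P (x + 1) E m * S.W c) = 0 := by
  rw [S.level_partial b hmono x m E u c F hxm hE hcb hc0 hc1 hF j (by omega) hu]
  have hm : m - j = (m - (j + 1)) + 1 := by omega
  rw [hm, P_succ']
  set cj : ℕ → ℕ := (fun i => c i + (if x + 1 ≤ i ∧ i ≤ x + j then 1 else 0)
        - (if u ≤ i ∧ i < u + j then 1 else 0)) with hcj
  have hcjr : cj (x + j) = E + j := by
    rcases Nat.eq_zero_or_pos j with h0 | h0
    · subst h0
      simp only [hcj, add_zero]
      rw [if_neg (by omega), if_neg (by omega), hc0]; rfl
    · simp only [hcj]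
      have := hc1 (j - 1) (by omega)
      rw [show x + 1 + (j - 1) = x + j by omega] at this
      have hux := (hu (j - 1) (by omega)).2
      rw [if_pos (by omega), if_neg (by omega), this]; omega
  have hcjr1 : cj (x + j + 1) = E + j := by
    simp only [hcj]
    have := hc1 j (by omega)
    rw [show x + 1 + j = x + j + 1 by omega] at this
    rcases Nat.eq_zero_or_pos j with h0 | h0
    · subst h0
      rw [if_neg (by omega), if_neg (by omega), this]; rfl
    · have hux := (hu (j - 1) (by omega)).2
      rw [if_neg (by omega), if_neg (by omega), this]; omega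
  set G : A := F * S.P u x j * (S.I (E + j) * S.P (x + 1 + j + 1) (E + j + 1) (m - (j + 1))) with hG
  have e1 : F * S.P u x j * (S.O (x + 1 + j) * S.I (E + j) * S.P (x + 1 + j + 1) (E + j + 1) (m - (j + 1)))
      = G * S.O (x + j + 1) := by
    rw [hG, show x + 1 + j = x + j + 1 by ring]; ring
  rw [e1]
  refine S.rule_y (x + j) (by omega) cj (by rw [hcjr, hcjr1]) (by rw [hcjr]; omega) ?_ G ?_
  · intro i hi
    simp only [hcj]
    by_cases hix : i < x
    · rw [if_neg (by omega), hcb i hix]
      by_cases hiu : u ≤ i ∧ i < u + j
      · rw [if_pos hiu]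
        have := (hu (i - u) (by omega)).1
        rw [show u + (i - u) = i by omega] at this
        omega
      · rw [if_neg hiu]
        have := hno i hix
        omega
    · have hux := (hu (j - 1) (by omega)).2
      by_cases hix' : i = x
      · subst hix'
        rw [if_neg (by omega), if_neg (by omega), hc0]; omega
      · have := hc1 (i - x - 1) (by omega)
        rw [show x + 1 + (i - x - 1) = i by omega] at this
        rw [if_pos (by omega), if_neg (by omega), this]; omega
  · rw [hG, map_mul, map_mul, map_mul, hF j (by omega)]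
    rw [S.tau_P (x + j) (by omega) u x j (fun i hi => by
      have := (hu i (by omega)).2; omega)]
    rw [S.tau_P (x + j) (by omega) _ _ _ (fun i hi => by omega)]
    rw [S.tau_Io (x + j) (x + j + 1) _ (by omega) (by omega) (by omega) (by omega)]

end Sys

lemma Up_le {b : ℕ → ℕ} {m x u : ℕ} (h : Up b m x u) : u + m ≤ x := by
  induction h with
  | top x u h1 _ _ => exact h1
  | step x y u h1 _ _ _ ih => omega

namespace Sys

variable (S : Sys A M)

/-- the chain lemma, general form -/
lemma chain_aux (b : ℕ → ℕ) (hlt : ∀ i, i < b i) (hmono : ∀ i, i + 1 < S.l → b i < b (i + 1))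
    (m : ℕ) (hm : 0 < m) (F : A) :
    ∀ (x E : ℕ) (c : ℕ → ℕ), x + m < S.l → x + m + 1 ≤ E →
      (∀ i, i < x → c i = b i) → c x = E → (∀ i, i < m → c (x + 1 + i) = E + i) →
      (∀ n r i, i < m → r + 1 < S.l → b^[n] r = x + i → b^[n] (r + 1) = x + i + 1 →
        S.tau r (r + 1) F = F) →
      S.Phi (F * S.P (x + 1) E m * S.W c) = 0 ∨
      ∃ u, Up b m x u ∧ S.Phi (F * S.P (x + 1) E m * S.W c) =
        S.Phi (F * S.P u (b u - 1) m *
          S.W (fun i => c i + (if x + 1 ≤ i ∧ i ≤ x + m then 1 else 0)
            - (if u ≤ i ∧ i < u + m then 1 else 0))) := by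
  intro x
  induction x using Nat.strong_induction_on with
  | _ x ih =>
  intro E c hxm hE hcb hc0 hc1 hF
  have hF0 : ∀ j, j < m → S.tau (x + j) (x + j + 1) F = F := fun j hj =>
    hF 0 (x + j) j hj (by omega) rfl rfl
  -- is there a row for every pair ?
  by_cases hall : ∀ j, j < m → ∃ a, a < x ∧ b a = x + 1 + j
  · obtain ⟨u, hux, hbu⟩ := hall 0 hm
    -- consecutive
    have hcons : ∀ j, j < m → b (u + j) = x + 1 + j ∧ u + j < x := by
      intro j
      induction j with
      | zero => intro _; exact ⟨hbu, hux⟩
      | succ j ihj =>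
        intro hj
        obtain ⟨h1, h2⟩ := ihj (by omega)
        obtain ⟨a, hax, hba⟩ := hall (j + 1) hj
        have h3 : u + j < a := by
          by_contra hcon
          rcases Nat.lt_or_ge a (u + j) with h | h
          · have := mono_lt hmono a (u + j) h (by omega); omega
          · have : a = u + j := by omega
            subst this; omega
        have h4 : a = u + (j + 1) := by
          by_contra hne
          have h5 := mono_lt hmono (u + j) (u + j + 1) (by omega) (by omega)
          have h6 := mono_lt hmono (u + j + 1) a (by omega) (by omega)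
          omega
        subst h4
        exact ⟨hba, hax⟩
    have hum : u + m ≤ x := by
      have := (hcons (m - 1) (by omega)).2; omega
    have hlev := S.level_partial b hmono x m E u c F hxm hE hcb hc0 hc1 hF0 m le_rfl hcons
    rw [Nat.sub_self, P_zero, mul_one] at hlev
    by_cases htop : u = 0 ∨ b (u - 1) + 1 < b u
    · right
      refine ⟨u, Up.top x u hum (fun i hi => (hcons i hi).1) htop, ?_⟩
      rw [hlev, hbu, show x + 1 + 0 - 1 = x by omega]
    · rw [not_or] at htop
      obtain ⟨hu0, hu1⟩ := htop
      have hby : b (u - 1) = x := by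
        have := mono_lt hmono (u - 1) u (by omega) (by omega)
        omega
      obtain ⟨y, rfl⟩ : ∃ y, u = y + 1 := ⟨u - 1, by omega⟩
      rw [show y + 1 - 1 = y by omega] at hby
      set c1 : ℕ → ℕ := (fun i => c i + (if x + 1 ≤ i ∧ i ≤ x + m then 1 else 0)
          - (if y + 1 ≤ i ∧ i < y + 1 + m then 1 else 0)) with hc1def
      have h := ih y (by omega) x c1 (by omega) (by omega)
        (by
          intro i hi
          simp only [hc1def]
          rw [if_neg (by omega), if_neg (by omega), hcb i (by omega)]; rfl)
        (by
          simp only [hc1def]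
          rw [if_neg (by omega), if_neg (by omega), hcb y (by omega), hby]; rfl)
        (by
          intro i hi
          have := hcons i hi
          simp only [hc1def]
          rw [if_neg (by omega), if_pos (by omega), hcb _ this.2, this.1]; omega)
        (by
          intro n r i hi hr h1 h2
          refine hF (n + 1) r i hi hr ?_ ?_
          · rw [Function.iterate_succ_apply', h1]
            rcases Nat.eq_zero_or_pos i with h0 | h0
            · subst h0; simpa using hby
            · have := (hcons (i - 1) (by omega)).1
              rw [show y + 1 + (i - 1) = y + i by omega] at this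
              rw [this]; omega
          · rw [Function.iterate_succ_apply', h2]
            have := (hcons i hi).1
            rw [show y + 1 + i = y + i + 1 by omega] at this
            rw [this]; omega)
      rw [hlev]
      rcases h with h | ⟨u', hu', h⟩
      · left
        exact h
      · right
        refine ⟨u', Up.step x y u' (by omega) (fun i hi => (hcons i hi).1) hby hu', ?_⟩
        rw [h]
        have hle := Up_le hu'
        congr 2
        apply S.W_congr
        intro i _
        simp only [hc1def]
        have hpos : i < x → 1 ≤ c i := fun h => by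
          have h1 := hcb i h
          have h2 := hlt i
          omega
        by_cases hix : i < x
        · have := hpos hix
          split_ifs <;> omega
        · split_ifs <;> omega
  · left
    push Not at hall
    classical
    obtain ⟨j, hj, hjno, hjmin⟩ : ∃ j, j < m ∧ (∀ a, a < x → b a ≠ x + 1 + j) ∧
        ∀ i, i < j → ∃ a, a < x ∧ b a = x + 1 + i := by
      have hex : ∃ j, j < m ∧ ∀ a, a < x → b a ≠ x + 1 + j := hall
      refine ⟨Nat.find hex, (Nat.find_spec hex).1, (Nat.find_spec hex).2, ?_⟩
      intro i hi
      have h1 := Nat.find_min hex hi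
      have h2 := (Nat.find_spec hex).1
      push Not at h1
      exact h1 (by omega)
    rcases Nat.eq_zero_or_pos j with h0 | h0
    · subst h0
      exact S.level_zero b hmono x m E 0 c F hxm hE hcb hc0 hc1 hF0 0 hj
        (fun i hi => absurd hi (by omega)) hjno
    · obtain ⟨u, hux, hbu⟩ := hjmin 0 h0
      have hcons : ∀ k, k < j → b (u + k) = x + 1 + k ∧ u + k < x := by
        intro k
        induction k with
        | zero => intro _; exact ⟨hbu, hux⟩
        | succ k ihk =>
          intro hk
          obtain ⟨h1, h2⟩ := ihk (by omega)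
          obtain ⟨a, hax, hba⟩ := hjmin (k + 1) hk
          have h3 : u + k < a := by
            by_contra hcon
            rcases Nat.lt_or_ge a (u + k) with h | h
            · have := mono_lt hmono a (u + k) h (by omega); omega
            · have : a = u + k := by omega
              subst this; omega
          have h4 : a = u + (k + 1) := by
            by_contra hne
            have h5 := mono_lt hmono (u + k) (u + k + 1) (by omega) (by omega)
            have h6 := mono_lt hmono (u + k + 1) a (by omega) (by omega)
            omega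
          subst h4
          exact ⟨hba, hax⟩
      exact S.level_zero b hmono x m E u c F hxm hE hcb hc0 hc1 hF0 j hj hcons hjno

/-- the chain lemma -/
theorem chain (b : ℕ → ℕ) (hlt : ∀ i, i < b i) (hmono : ∀ i, i + 1 < S.l → b i < b (i + 1))
    (x m : ℕ) (hm : 0 < m) (hx : x + m < S.l) (hcons : ∀ i, i ≤ m → b (x + i) = b x + i)
    (hb : x + m ≤ b x) (F : A)
    (hF : ∀ n r i, i < m → r + 1 < S.l → b^[n] r = x + i → b^[n] (r + 1) = x + i + 1 →
        S.tau r (r + 1) F = F) :
    S.Phi (F * S.P (x + 1) (b x + 1) m * S.W (up1 b x)) = 0 ∨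
    ∃ u, Up b m x u ∧ S.Phi (F * S.P (x + 1) (b x + 1) m * S.W (up1 b x)) =
      S.Phi (F * S.P u (b u - 1) m * S.W (cb b x m u)) := by
  rcases S.chain_aux b hlt hmono m hm F x (b x + 1) (up1 b x) hx (by omega)
    (fun i hi => by simp [up1]; omega) (by simp [up1])
    (fun i hi => by
      have := hcons (1 + i) (by omega)
      simp only [up1]
      rw [if_neg (by omega), show x + 1 + i = x + (1 + i) by ring, this]; omega) hF with h | ⟨u, hu, h⟩
  · left; exact h
  · right
    refine ⟨u, hu, ?_⟩
    rw [h]
    have hle := Up_le hu
    congr 2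
    apply S.W_congr
    intro i _
    simp only [up1, cb]
    split_ifs <;> omega

end Sys

end Pool.Agent.H68.KB
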