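import Pool.Agent.H68.KB.Assembly

set_option autoImplicit false

open Finset

namespace Pool.Agent.H68.KB

variable {R : Type} [CommRing R]

/-- `∏_{i<l} H(x_i)` -/
def HH (h : ℕ → R) (l : ℕ) : MvPowerSeries ℕ R := fun a => ∏ i ∈ range l, h (a i)

lemma coeff_HH (h : ℕ → R) (l : ℕ) (a : ℕ →₀ ℕ) :
    MvPowerSeries.coeff a (HH h l) = ∏ i ∈ range l, h (a i) := rfl

/-- exponent of a vector -/
noncomputable def ex {l : ℕ} (γ : Fin l → ℤ) : ℕ →₀ ℕ :=
  Finsupp.embDomain Fin.valEmbedding (Finsupp.equivFunOnFinite.symm (fun i => (γ i).toNat))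

lemma ex_apply {l : ℕ} (γ : Fin l → ℤ) (i : Fin l) : ex γ (i : ℕ) = (γ i).toNat := by
  unfold ex
  have := Finsupp.embDomain_apply_self (Fin.valEmbedding (n := l))
    (Finsupp.equivFunOnFinite.symm (fun i => (γ i).toNat)) i
  simpa using this

lemma ex_apply_ge {l : ℕ} (γ : Fin l → ℤ) (i : ℕ) (hi : l ≤ i) : ex γ i = 0 := by
  unfold ex
  apply Finsupp.embDomain_of_notMem_range
  rintro ⟨j, hj⟩
  have := j.2
  simp at hj
  omega

lemma ex_apply' {l : ℕ} (γ : Fin l → ℤ) (i : ℕ) :
    ex γ i = if hi : i < l then (γ ⟨i, hi⟩).toNat else 0 := by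
  by_cases hi : i < l
  · rw [dif_pos hi]; exact ex_apply γ ⟨i, hi⟩
  · rw [dif_neg hi]; exact ex_apply_ge γ i (by omega)

variable (R) in
noncomputable def oo (l i : ℕ) : MvPowerSeries ℕ R := if i < l then 1 - MvPowerSeries.X i else 1
variable (R) in
noncomputable def ii (l i : ℕ) : MvPowerSeries ℕ R :=
  if i < l then MvPowerSeries.invOfUnit (1 - MvPowerSeries.X i) 1 else 1

lemma oo_ii (l i : ℕ) : oo R l i * ii R l i = 1 := by
  unfold oo ii
  split_ifs
  · apply MvPowerSeries.mul_invOfUnit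
    simp
  · simp

variable (R) in
/-- exchange of two variables -/
noncomputable def tt (i j : ℕ) : MvPowerSeries ℕ R →+* MvPowerSeries ℕ R :=
  (MvPowerSeries.rename (R := R) (Equiv.swap i j).toEmbedding).toRingHom

lemma tt_X (i j k : ℕ) :
    tt R i j (MvPowerSeries.X k) = MvPowerSeries.X (Equiv.swap i j k) := by
  unfold tt
  exact MvPowerSeries.rename_X _ k

lemma coeff_tt (i j : ℕ) (f : MvPowerSeries ℕ R) (x : ℕ →₀ ℕ) :
    MvPowerSeries.coeff x (tt R i j f) =
      MvPowerSeries.coeff (Finsupp.embDomain (Equiv.swap i j).toEmbedding x) f := by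
  have h1 := MvPowerSeries.coeff_embDomain_rename (R := R) (Equiv.swap i j).toEmbedding f
    (Finsupp.embDomain (Equiv.swap i j).toEmbedding x)
  have h2 : Finsupp.embDomain (Equiv.swap i j).toEmbedding
      (Finsupp.embDomain (Equiv.swap i j).toEmbedding x) = x := by
    ext k
    have h3 := Finsupp.embDomain_apply_self (Equiv.swap i j).toEmbedding
      (Finsupp.embDomain (Equiv.swap i j).toEmbedding x) (Equiv.swap i j k)
    have h4 := Finsupp.embDomain_apply_self (Equiv.swap i j).toEmbedding x k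
    simp only [Equiv.coe_toEmbedding, Equiv.swap_apply_self] at h3 h4
    rw [h3]
    exact h4
  rw [h2] at h1
  exact h1

lemma emb_swap_apply (i j : ℕ) (x : ℕ →₀ ℕ) (k : ℕ) :
    Finsupp.embDomain (Equiv.swap i j).toEmbedding x k = x (Equiv.swap i j k) := by
  have h4 := Finsupp.embDomain_apply_self (Equiv.swap i j).toEmbedding x (Equiv.swap i j k)
  simp only [Equiv.coe_toEmbedding, Equiv.swap_apply_self] at h4
  exact h4

lemma tt_HH (h : ℕ → R) (l i j : ℕ) (hi : i < l) (hj : j < l) : tt R i j (HH h l) = HH h l := by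
  ext1 x
  rw [coeff_tt, coeff_HH, coeff_HH]
  refine Finset.prod_equiv (Equiv.swap i j) ?_ ?_
  · intro k
    rcases eq_or_ne k i with h1 | h1
    · subst h1; rw [Equiv.swap_apply_left]; simp only [mem_range]; omega
    rcases eq_or_ne k j with h2 | h2
    · subst h2; rw [Equiv.swap_apply_right]; simp only [mem_range]; omega
    rw [Equiv.swap_apply_of_ne_of_ne h1 h2]
  · intro k _
    rw [emb_swap_apply]

/-- the concrete functional -/
noncomputable def ph (h : ℕ → R) (l κ : ℕ) : MvPowerSeries ℕ R →+ R where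
  toFun f := MvPowerSeries.coeff (ex (fun _ : Fin l => (κ : ℤ))) (f * HH h l)
  map_zero' := by simp
  map_add' f g := by rw [add_mul, map_add]

lemma ph_apply (h : ℕ → R) (l κ : ℕ) (f : MvPowerSeries ℕ R) :
    ph h l κ f = MvPowerSeries.coeff (ex (fun _ : Fin l => (κ : ℤ))) (f * HH h l) := rfl

lemma lam_two (x : MvPowerSeries ℕ ℤ) (hx : x + x = 0) : x = 0 := by
  ext s
  have := congrArg (MvPowerSeries.coeff s) hx
  rw [map_add, map_zero] at this
  rw [map_zero]
  omega

/-- the concrete system -/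
noncomputable def cs (two : ∀ x : R, x + x = 0 → x = 0) (h : ℕ → R) (l κ : ℕ) :
    Sys (MvPowerSeries ℕ R) R where
  l := l
  O := oo R l
  I := ii R l
  OI := oo_ii l
  O_ge := fun i hi => by unfold oo; rw [if_neg (by omega)]
  tau := tt R
  tau_l := fun i j hi hj => by
    unfold oo; rw [if_pos hi, if_pos hj, map_sub, map_one, tt_X, Equiv.swap_apply_left]
  tau_r := fun i j hi hj => by
    unfold oo; rw [if_pos hi, if_pos hj, map_sub, map_one, tt_X, Equiv.swap_apply_right]
  tau_o := fun i j k hi hj h1 h2 => by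
    unfold oo
    split_ifs
    · rw [map_sub, map_one, tt_X, Equiv.swap_apply_of_ne_of_ne h1 h2]
    · rw [map_one]
  Phi := ph h l κ
  Phi_tau := fun i j hi hj f => by
    rw [ph_apply, ph_apply]
    have e : tt R i j f * HH h l = tt R i j (f * HH h l) := by rw [map_mul, tt_HH h l i j hi hj]
    rw [e, coeff_tt]
    congr 1
    congr 1
    ext k
    rw [emb_swap_apply, ex_apply', ex_apply']
    rcases eq_or_ne k i with h1 | h1
    · subst h1; rw [Equiv.swap_apply_left, dif_pos hi, dif_pos hj]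
    rcases eq_or_ne k j with h2 | h2
    · subst h2; rw [Equiv.swap_apply_right, dif_pos hi, dif_pos hj]
    rw [Equiv.swap_apply_of_ne_of_ne h1 h2]
  two := two

end Pool.Agent.H68.KB
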