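import Mathlib

set_option autoImplicit false

open Finset

namespace Pool.Agent.H68.KB

/-- A system of rows `0, …, l-1`: commuting units `O i` (inverse `I i`, `O i = 1` for `i ≥ l`),
ring endomorphisms `tau i j` exchanging rows `i` and `j`, and an additive functional `Phi` which is
invariant under all `tau i j`, with values in a group without 2-torsion. -/
structure Sys (A M : Type) [CommRing A] [AddCommGroup M] where
  l : ℕ
  O : ℕ → A
  I : ℕ → A
  OI : ∀ i, O i * I i = 1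
  O_ge : ∀ i, l ≤ i → O i = 1
  tau : ℕ → ℕ → A →+* A
  tau_l : ∀ i j, i < l → j < l → tau i j (O i) = O j
  tau_r : ∀ i j, i < l → j < l → tau i j (O j) = O i
  tau_o : ∀ i j k, i < l → j < l → k ≠ i → k ≠ j → tau i j (O k) = O k
  Phi : A →+ M
  Phi_tau : ∀ i j, i < l → j < l → ∀ f, Phi (tau i j f) = Phi f
  two : ∀ x : M, x + x = 0 → x = 0

variable {A M : Type} [CommRing A] [AddCommGroup M]

/-- product over the rows of general windows -/
def Sys.Wg (S : Sys A M) (win : ℕ → Finset ℕ) : A :=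
  ∏ i ∈ range S.l, ∏ q ∈ win i, (1 - S.O i * S.I q)

/-- `W b` : row `i` has the window `[i+1, b i)` -/
def Sys.W (S : Sys A M) (b : ℕ → ℕ) : A :=
  ∏ i ∈ range S.l, ∏ q ∈ Ico (i + 1) (b i), (1 - S.O i * S.I q)

/-- lowering element of row `i` (a token at row `i`) -/
def Sys.L (S : Sys A M) (i : ℕ) : A := 1 - S.O i

/-- product of tokens -/
def Sys.LL (S : Sys A M) (J : Finset ℕ) : A := ∏ j ∈ J, S.L j

/-- `P u y m = ∏_{i<m} O_{u+i} / O_{y+i}` -/
def Sys.P (S : Sys A M) (u y m : ℕ) : A := ∏ i ∈ range m, S.O (u + i) * S.I (y + i)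

/-- weight, only its parity matters -/
def wt (l : ℕ) (b : ℕ → ℕ) : ℕ := ∑ i ∈ range l, b i

/-- admissible bounce functions: strictly increasing, `b i > i`; row `t-1` is a corner if `t>0` -/
def Valid (l t : ℕ) (b : ℕ → ℕ) : Prop :=
  (∀ i, i < b i) ∧ (∀ i, i + 1 < l → b i < b (i + 1)) ∧ (0 < t → b (t - 1) + 2 ≤ b t)

/-- the cone generated by the signed values of `W b` (with tokens on the rows `< t`) -/
def Sys.cone (S : Sys A M) (t : ℕ) : AddSubmonoid M :=
  AddSubmonoid.closure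
    {x | ∃ b, Valid S.l t b ∧ x = ((-1 : ℤ) ^ wt S.l b) • S.Phi (S.LL (range t) * S.W b)}

/-- `Lands l b J y` : a token in flight at row `y` lands in `J`: follow `y, b y, b (b y), …` until
`J` is reached, all rows before being non-corners whose successor row carries no token. -/
inductive Lands (l : ℕ) (b : ℕ → ℕ) (J : Finset ℕ) : ℕ → Prop
  | hit (y : ℕ) : y ∈ J → Lands l b J y
  | skip (y : ℕ) : y + 1 < l → b (y + 1) = b y + 1 → y ∉ J → y + 1 ∉ J →
      Lands l b J (b y) → Lands l b J y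

/-- The class of states.  `J` : the tokens (besides those on the rows `< t`), `R = [p, p+m)` : the
rows with a factor `P_r = O_r / O_{b r}`. -/
structure St (l t β : ℕ) (J : Finset ℕ) (p m : ℕ) (b : ℕ → ℕ) : Prop where
  lt : ∀ i, i < b i
  mono : ∀ i, i + 1 < l → b i < b (i + 1)
  J_lt : ∀ j ∈ J, t ≤ j ∧ j < l
  anti : ∀ j ∈ J, ∀ n, b^[n] (b j) ∉ J
  bot : ∀ j ∈ J, j + 1 < l → b (j + 1) = b j + 1 → j + 1 ∈ J ∨ (p ≤ j + 1 ∧ j + 1 < p + m)
  R_le : 0 < m → p + m ≤ l
  R_cons : ∀ i, i < m → b (p + i) = b p + i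
  R_corner : 0 < m → p + m < l → b p + m < b (p + m)
  R_b : 0 < m → p + m ≤ b p
  R_lands : ∀ i, i < m → Lands l b J (b p + i)
  T : 0 < t → b (t - 1) + 2 + (if p ≤ t - 1 ∧ t - 1 < p + m then 1 else 0) ≤ β ∧ β ≤ b t ∧
    ∀ n, b^[n] (β - 1) ∉ J

/-- the element of a state -/
def Sys.E (S : Sys A M) (t : ℕ) (J : Finset ℕ) (p m : ℕ) (b : ℕ → ℕ) : A :=
  S.LL (range t) * S.LL J * S.P p (b p) m * S.W b

/-- `Up b m x u` : going up from the rows `x+1, …, x+m` to the rows ending just above them, and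
again until the top of a block is reached, one arrives at the rows `u, …, u+m-1`. -/
inductive Up (b : ℕ → ℕ) (m : ℕ) : ℕ → ℕ → Prop
  | top (x u : ℕ) : u + m ≤ x → (∀ i, i < m → b (u + i) = x + 1 + i) →
      (u = 0 ∨ b (u - 1) + 1 < b u) → Up b m x u
  | step (x y u : ℕ) : y + m < x → (∀ i, i < m → b (y + 1 + i) = x + 1 + i) → b y = x →
      Up b m y u → Up b m x u

/-- the new bounce function after a chain: rows `x, …, x+m` lowered, rows `u, …, u+m-1` raised -/
def cb (b : ℕ → ℕ) (x m u : ℕ) : ℕ → ℕ := fun i =>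
  b i + (if x ≤ i ∧ i ≤ x + m then 1 else 0) - (if u ≤ i ∧ i < u + m then 1 else 0)

/-- lower row `x` -/
def up1 (b : ℕ → ℕ) (x : ℕ) : ℕ → ℕ := fun i => b i + (if i = x then 1 else 0)

/-- skip the rows `s, …, s+d-1` -/
def skip (s d i : ℕ) : ℕ := if i < s then i else i + d

/-- the isolated rectangle on the rows `s, …, s+d-1` -/
def Sys.WI (S : Sys A M) (s d : ℕ) : A :=
  ∏ j ∈ range d, ((∏ q ∈ Ico (s + j + 1) (s + d), (1 - S.O (s + j) * S.I q)) * (1 - S.O (s + j)) ^ j)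

/-- the other rows, with the rows `s, …, s+d-1` removed -/
def Sys.Wr (S : Sys A M) (s d : ℕ) (b : ℕ → ℕ) : A :=
  ∏ i ∈ range (S.l - d), ∏ q ∈ Ico (i + 1) (b i), (1 - S.O (skip s d i) * S.I (skip s d q))

end Pool.Agent.H68.KB
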