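import Mathlib

set_option autoImplicit false

open Finset

namespace Pool.Agent.H68.KB

/-- the vector of the raising operator `R_{ij}` -/
def rv {l : ℕ} (p : Fin l × Fin l) : Fin l → ℤ := Pi.single p.1 1 - Pi.single p.2 1

/-- `∏_{p ∈ D} (1 - R_p)` applied to `f` -/
def fD {l : ℕ} {G : Type} [AddCommGroup G] (D : Finset (Fin l × Fin l)) (f : (Fin l → ℤ) → G)
    (γ : Fin l → ℤ) : G :=
  ∑ S ∈ D.powerset, ((-1 : ℤ) ^ S.card) • f (γ + ∑ p ∈ S, rv p)

lemma fD_empty {l : ℕ} {G : Type} [AddCommGroup G] (f : (Fin l → ℤ) → G) (γ : Fin l → ℤ) :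
    fD ∅ f γ = f γ := by
  unfold fD; simp

lemma fD_insert {l : ℕ} {G : Type} [AddCommGroup G] (D : Finset (Fin l × Fin l))
    (p : Fin l × Fin l) (hp : p ∉ D) (f : (Fin l → ℤ) → G) (γ : Fin l → ℤ) :
    fD (insert p D) f γ = fD D f γ - fD D f (γ + rv p) := by
  unfold fD
  rw [Finset.sum_powerset_insert hp, sub_eq_add_neg, ← Finset.sum_neg_distrib]
  congr 1
  refine Finset.sum_congr rfl fun S hS => ?_
  have hpS : p ∉ S := fun h => hp (Finset.mem_powerset.1 hS h)
  rw [Finset.card_insert_of_notMem hpS, Finset.sum_insert hpS, pow_succ, add_assoc]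
  simp

/-- the weight -/
def wv {l : ℕ} (γ : Fin l → ℤ) : ℤ := ∑ i : Fin l, ((i : ℕ) : ℤ) * γ i

lemma wv_add {l : ℕ} (γ δ : Fin l → ℤ) : wv (γ + δ) = wv γ + wv δ := by
  unfold wv
  rw [← Finset.sum_add_distrib]
  exact Finset.sum_congr rfl fun i _ => by rw [Pi.add_apply]; ring

lemma wv_zsmul {l : ℕ} (n : ℤ) (γ : Fin l → ℤ) : wv (n • γ) = n * wv γ := by
  unfold wv
  rw [Finset.mul_sum]
  exact Finset.sum_congr rfl fun i _ => by rw [Pi.smul_apply, smul_eq_mul]; ring

lemma wv_single {l : ℕ} (i : Fin l) : wv (Pi.single i (1 : ℤ)) = ((i : ℕ) : ℤ) := by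
  unfold wv
  rw [Finset.sum_eq_single i]
  · simp
  · intro j _ hj; rw [Pi.single_eq_of_ne hj]; ring
  · intro h; exact absurd (Finset.mem_univ i) h

lemma wv_rv {l : ℕ} (p : Fin l × Fin l) : wv (rv p) = ((p.1 : ℕ) : ℤ) - ((p.2 : ℕ) : ℤ) := by
  have h : rv p + Pi.single p.2 1 = Pi.single p.1 1 := by unfold rv; simp
  have h2 := wv_add (rv p) (Pi.single p.2 (1 : ℤ))
  rw [h, wv_single, wv_single] at h2
  omega

lemma wv_sum {l : ℕ} {ι : Type} (s : Finset ι) (f : ι → (Fin l → ℤ)) :
    wv (∑ i ∈ s, f i) = ∑ i ∈ s, wv (f i) := by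
  classical
  induction s using Finset.induction_on with
  | empty => simp [wv]
  | insert a s ha ih => rw [Finset.sum_insert ha, Finset.sum_insert ha, wv_add, ih]

lemma fD_vanish {l : ℕ} {G : Type} [AddCommGroup G] (D : Finset (Fin l × Fin l))
    (hD : ∀ p ∈ D, p.1 < p.2) (f : (Fin l → ℤ) → G) (c : ℤ) (hf : ∀ γ, wv γ < c → f γ = 0)
    (γ : Fin l → ℤ) (hγ : wv γ < c) : fD D f γ = 0 := by
  unfold fD
  refine Finset.sum_eq_zero fun S hS => ?_
  rw [hf, smul_zero]
  rw [wv_add, wv_sum]
  have : ∑ p ∈ S, wv (rv p) ≤ 0 := by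
    refine Finset.sum_nonpos fun p hp => ?_
    rw [wv_rv]
    have := hD p (Finset.mem_powerset.1 hS hp)
    have h2 : (p.1 : ℕ) < (p.2 : ℕ) := this
    omega
  omega

/-- the shift by a multiplicity function -/
def sh {l : ℕ} (n : Fin l × Fin l → ℕ) : Fin l → ℤ := ∑ p, (n p : ℤ) • rv p

lemma sh_add {l : ℕ} (n m : Fin l × Fin l → ℕ) : sh (n + m) = sh n + sh m := by
  unfold sh
  rw [← Finset.sum_add_distrib]
  refine Finset.sum_congr rfl fun p _ => ?_
  rw [Pi.add_apply, ← add_smul]; push_cast; rfl

lemma sh_single {l : ℕ} (p : Fin l × Fin l) : sh (Pi.single p 1) = rv p := by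
  unfold sh
  rw [Finset.sum_eq_single p]
  · simp
  · intro q _ hq; rw [Pi.single_eq_of_ne hq]; simp
  · intro h; exact absurd (Finset.mem_univ p) h

lemma sh_supp {l : ℕ} (D : Finset (Fin l × Fin l)) (n : Fin l × Fin l → ℕ)
    (hn : ∀ p, p ∉ D → n p = 0) : ∑ p ∈ D, (n p : ℤ) • rv p = sh n := by
  unfold sh
  refine Finset.sum_subset (Finset.subset_univ D) fun p _ hp => ?_
  rw [hn p hp]; simp

/-- finiteness of the support -/
lemma supp_finite {l : ℕ} {G : Type} [AddCommGroup G] (D : Finset (Fin l × Fin l))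
    (hD : ∀ p ∈ D, p.1 < p.2) (u : (Fin l → ℤ) → G) (c : ℤ) (hu : ∀ γ, wv γ < c → u γ = 0)
    (γ : Fin l → ℤ) :
    (Function.support (fun n : Fin l × Fin l → ℕ =>
      open Classical in if (∀ p, p ∉ D → n p = 0) then u (γ + sh n) else 0)).Finite := by
  classical
  refine Set.Finite.subset (Set.finite_Iic (fun _ : Fin l × Fin l => (wv γ - c).toNat)) ?_
  intro n hn
  rw [Function.mem_support] at hn
  split_ifs at hn with hsupp
  · rw [Set.mem_Iic]
    intro q
    show n q ≤ (wv γ - c).toNat
    by_cases hq : q ∈ D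
    · have h1 : c ≤ wv (γ + sh n) := by
        by_contra hcon
        exact hn (hu _ (not_le.1 hcon))
      rw [wv_add, ← sh_supp D n hsupp, wv_sum] at h1
      have h2 : ∑ p ∈ D, wv ((n p : ℤ) • rv p) ≤ - (n q : ℤ) := by
        rw [← Finset.add_sum_erase D _ hq]
        have h3 : wv ((n q : ℤ) • rv q) ≤ - (n q : ℤ) := by
          rw [wv_zsmul, wv_rv]
          have h4 : (q.1 : ℕ) < (q.2 : ℕ) := hD q hq
          have h5 : (((q.1 : ℕ) : ℤ) - ((q.2 : ℕ) : ℤ)) ≤ -1 := by omega
          have h6 : (0 : ℤ) ≤ (n q : ℤ) := by positivity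
          nlinarith
        have h7 : ∑ p ∈ D.erase q, wv ((n p : ℤ) • rv p) ≤ 0 := by
          refine Finset.sum_nonpos fun p hp => ?_
          rw [wv_zsmul, wv_rv]
          have h4 : (p.1 : ℕ) < (p.2 : ℕ) := hD p (Finset.mem_of_mem_erase hp)
          have h6 : (0 : ℤ) ≤ (n p : ℤ) := by positivity
          nlinarith
        omega
      omega
    · rw [hsupp q hq]; omega
  · exact absurd rfl hn

/-- inversion of `∏ (1 - R_p)` by the geometric series -/
theorem finsum_inv {l : ℕ} {G : Type} [AddCommGroup G] (f : (Fin l → ℤ) → G) (c : ℤ)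
    (hf : ∀ γ, wv γ < c → f γ = 0) (γ : Fin l → ℤ) (D : Finset (Fin l × Fin l)) :
    (∀ p ∈ D, p.1 < p.2) →
    ∑ᶠ n : Fin l × Fin l → ℕ,
      (open Classical in if (∀ p, p ∉ D → n p = 0) then fD D f (γ + sh n) else 0) = f γ := by
  classical
  induction D using Finset.induction_on with
  | empty =>
    intro _
    rw [finsum_eq_single _ (0 : Fin l × Fin l → ℕ)]
    · have h0 : ∀ p : Fin l × Fin l, p ∉ (∅ : Finset (Fin l × Fin l)) →
          (0 : Fin l × Fin l → ℕ) p = 0 := fun p _ => rfl
      rw [if_pos h0, fD_empty]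
      have : sh (0 : Fin l × Fin l → ℕ) = 0 := by unfold sh; simp
      rw [this, add_zero]
    · intro n hn
      rw [if_neg]
      intro h
      apply hn
      funext p
      exact h p (Finset.notMem_empty p)
  | insert p D hp ih =>
    intro hD
    have hD' : ∀ q ∈ D, q.1 < q.2 := fun q hq => hD q (Finset.mem_insert_of_mem hq)
    rw [← ih hD']
    set u := fD D f with hu
    have huv : ∀ γ, wv γ < c → u γ = 0 := fun γ hγ => fD_vanish D hD' f c hf γ hγ
    -- a : the full sum
    set a : (Fin l × Fin l → ℕ) → G := fun n =>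
      if (∀ q, q ∉ insert p D → n q = 0) then u (γ + sh n) else 0 with ha
    have hafin : (Function.support a).Finite := supp_finite (insert p D) hD u c huv γ
    set g : (Fin l × Fin l → ℕ) → (Fin l × Fin l → ℕ) := fun n => n + Pi.single p 1 with hg
    have hginj : Function.Injective g := fun n m h => by
      simpa [hg] using h
    have hrange : ∀ m, m ∈ Set.range g ↔ m p ≠ 0 := by
      intro m
      constructor
      · rintro ⟨n, rfl⟩
        simp [hg]
      · intro hm
        refine ⟨fun q => if q = p then m p - 1 else m q, ?_⟩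
        funext q
        by_cases hq : q = p
        · subst hq; simp [hg]; omega
        · simp [hg, hq]
    have h1 : (fun n : Fin l × Fin l → ℕ => if (∀ q, q ∉ insert p D → n q = 0) then
        fD (insert p D) f (γ + sh n) else 0) = fun n => a n - a (g n) := by
      funext n
      simp only [ha, hg]
      have hiff : (∀ q, q ∉ insert p D → (n + (Pi.single p 1 : Fin l × Fin l → ℕ)) q = 0) ↔
          (∀ q, q ∉ insert p D → n q = 0) := by
        constructor
        · intro h q hq
          have := h q hq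
          simp only [Pi.add_apply] at this
          omega
        · intro h q hq
          have hqp : q ≠ p := fun hh => hq (hh ▸ Finset.mem_insert_self p D)
          simp only [Pi.add_apply, Pi.single_eq_of_ne hqp, add_zero]
          exact h q hq
      by_cases hn : ∀ q, q ∉ insert p D → n q = 0
      · rw [if_pos hn, if_pos hn, if_pos (hiff.2 hn), fD_insert D p hp, sh_add, sh_single, ← add_assoc]
      · rw [if_neg hn, if_neg hn, if_neg (fun h => hn (hiff.1 h)), sub_zero]
    rw [h1]
    have hagfin : (Function.support (fun n => a (g n))).Finite := by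
      have : Function.support (fun n => a (g n)) = g ⁻¹' (Function.support a) := by
        ext n; simp
      rw [this]
      exact hafin.preimage (hginj.injOn)
    rw [finsum_sub_distrib hafin hagfin]
    -- split a
    have h2 : ∑ᶠ n, a (g n) = ∑ᶠ m, (if m p ≠ 0 then a m else 0) := by
      rw [← finsum_mem_range hginj, finsum_mem_def]
      refine finsum_congr fun m => ?_
      by_cases hm : m ∈ Set.range g
      · rw [Set.indicator_of_mem hm, if_pos ((hrange m).1 hm)]
      · rw [Set.indicator_of_notMem hm, if_neg (fun h => hm ((hrange m).2 h))]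
    have h3 : ∑ᶠ n, a n = ∑ᶠ m, (if m p ≠ 0 then a m else 0) + ∑ᶠ m, (if m p = 0 then a m else 0) := by
      rw [← finsum_add_distrib]
      · refine finsum_congr fun m => ?_
        by_cases hm : m p = 0
        · simp [hm]
        · simp [hm]
      · refine hafin.subset fun m hm => ?_
        rw [Function.mem_support] at hm ⊢
        intro h; apply hm; split_ifs <;> simp [h]
      · refine hafin.subset fun m hm => ?_
        rw [Function.mem_support] at hm ⊢
        intro h; apply hm; split_ifs <;> simp [h]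
    rw [h2, h3, add_sub_cancel_left]
    refine finsum_congr fun m => ?_
    simp only [ha]
    by_cases hm : m p = 0
    · rw [if_pos hm]
      have hiff : (∀ q, q ∉ insert p D → m q = 0) ↔ (∀ q, q ∉ D → m q = 0) := by
        constructor
        · intro h q hq
          by_cases hqp : q = p
          · rw [hqp]; exact hm
          · exact h q (fun hh => (Finset.mem_insert.1 hh).elim hqp hq)
        · intro h q hq
          exact h q (fun hh => hq (Finset.mem_insert_of_mem hh))
      by_cases hc : ∀ q, q ∉ D → m q = 0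
      · rw [if_pos (hiff.2 hc), if_pos hc]
      · rw [if_neg (fun h => hc (hiff.1 h)), if_neg hc]
    · rw [if_neg hm, if_neg]
      intro h
      exact hm (h p hp)

end Pool.Agent.H68.KB
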