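import Pool.Agent.H68.KB.Tf
import Pool.Agent.H68.KB.FinsumInv

set_option autoImplicit false

open Finset

namespace Pool.Agent.H68.KB

variable {R : Type} [CommRing R]

/-- the dual Grothendieck determinant as a value of the functional -/
lemma det_Tf (h : ℕ → R) {l : ℕ} (γ : Fin l → ℤ) :
    Matrix.det (Matrix.of fun i j : Fin l => Kf h i.val (γ i + (j.val : ℤ) - (i.val : ℤ))) =
    Tf h ((∏ i : Fin l, ∏ j ∈ Ioi i, (MvPowerSeries.X (i : ℕ) - MvPowerSeries.X (j : ℕ))) *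
      (∏ i : Fin l, ii R l i ^ (i : ℕ))) (fun i => γ i + ((Fin.rev i : ℕ) : ℤ)) := by
  have hV : (∏ i : Fin l, ∏ j ∈ Ioi i, ((MvPowerSeries.X (i : ℕ) : MvPowerSeries ℕ R) -
      MvPowerSeries.X (j : ℕ))) =
      (Matrix.projVandermonde (fun _ : Fin l => (1 : MvPowerSeries ℕ R))
        (fun i => MvPowerSeries.X (i : ℕ))).det := by
    rw [Matrix.det_projVandermonde]
    simp only [one_mul]
  rw [hV, ← Matrix.det_transpose, ← Matrix.det_transpose (Matrix.projVandermonde _ _),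
    Matrix.det_apply, Matrix.det_apply, Finset.sum_mul]
  rw [Tf_sum]
  refine Finset.sum_congr rfl fun σ _ => ?_
  rw [smul_mul_assoc, Units.smul_def, Units.smul_def, Tf_zsmul]
  congr 1
  have e1 : ∏ i : Fin l, (Matrix.projVandermonde (fun _ : Fin l => (1 : MvPowerSeries ℕ R))
        (fun i => MvPowerSeries.X (i : ℕ))).transpose (σ i) i =
      ∏ i : Fin l, MvPowerSeries.X (i : ℕ) ^ ((Fin.rev (σ i) : ℕ)) := by
    refine Finset.prod_congr rfl fun i _ => ?_
    simp [Matrix.projVandermonde, Matrix.rectVandermonde]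
  rw [e1]
  have e2 : (fun i : Fin l => γ i + ((Fin.rev i : ℕ) : ℤ)) =
      fun i : Fin l => (γ i + ((σ i : ℕ) : ℤ) - ((i : ℕ) : ℤ)) + ((Fin.rev (σ i) : ℕ) : ℤ) := by
    funext i
    rw [Fin.val_rev, Fin.val_rev]
    have h1 := i.2
    have h2 := (σ i).2
    omega
  rw [e2, Tf_Xprod h _ (fun i : Fin l => γ i + ((σ i : ℕ) : ℤ) - ((i : ℕ) : ℤ))
    (fun i => (Fin.rev (σ i) : ℕ)), Tf_K h _ (fun i => (i : ℕ)) rfl]
  refine Finset.prod_congr rfl fun i _ => ?_
  rfl

/-- all pairs `i < j` -/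
def pairs (l : ℕ) : Finset (Fin l × Fin l) := Finset.univ.filter (fun p => p.1 < p.2)

lemma prod_pairs {l : ℕ} (f : Fin l → Fin l → MvPowerSeries ℕ R) :
    ∏ i : Fin l, ∏ j ∈ Ioi i, f i j = ∏ p ∈ pairs l, f p.1 p.2 := by
  rw [Finset.prod_sigma']
  unfold pairs
  refine Finset.prod_bij (fun x _ => (x.1, x.2)) ?_ ?_ ?_ ?_
  · intro x hx
    simp only [Finset.mem_sigma, Finset.mem_univ, Finset.mem_Ioi, true_and] at hx
    simpa using hx
  · rintro ⟨a, b⟩ _ ⟨c, d⟩ _ h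
    simp only [Prod.mk.injEq] at h
    obtain ⟨h1, h2⟩ := h
    subst h1; subst h2; rfl
  · rintro ⟨a, b⟩ h
    refine ⟨⟨a, b⟩, ?_, rfl⟩
    simpa using h
  · intro x _; rfl

/-- product of `X_i - X_j` over a set of pairs -/
noncomputable def XE (R : Type) [CommRing R] {l : ℕ} (E : Finset (Fin l × Fin l)) : MvPowerSeries ℕ R :=
  ∏ p ∈ E, (MvPowerSeries.X (p.1 : ℕ) - MvPowerSeries.X (p.2 : ℕ))

/-- the shift -/
def dE {l : ℕ} (E : Finset (Fin l × Fin l)) : Fin l → ℤ := ∑ p ∈ E, Pi.single p.1 1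

/-- `H_E(γ)` -/
noncomputable def hE (h : ℕ → R) {l : ℕ} (F : MvPowerSeries ℕ R) (E : Finset (Fin l × Fin l))
    (γ : Fin l → ℤ) : R := Tf h (XE R E * F) (γ + dE E)

lemma hE_insert (h : ℕ → R) {l : ℕ} (F : MvPowerSeries ℕ R) (E : Finset (Fin l × Fin l))
    (p : Fin l × Fin l) (hp : p ∉ E) (γ : Fin l → ℤ) :
    hE h F (insert p E) γ = hE h F E γ - hE h F E (γ + rv p) := by
  unfold hE XE dE
  rw [Finset.prod_insert hp, Finset.sum_insert hp, sub_mul, sub_mul, Tf_sub]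
  congr 1
  · rw [mul_assoc]
    have e : γ + (Pi.single p.1 1 + ∑ q ∈ E, (Pi.single q.1 1 : Fin l → ℤ)) =
        (γ + ∑ q ∈ E, Pi.single q.1 1) + Pi.single p.1 1 := by abel
    rw [e, Tf_X]
  · rw [mul_assoc]
    have e : γ + (Pi.single p.1 1 + ∑ q ∈ E, (Pi.single q.1 1 : Fin l → ℤ)) =
        (γ + rv p + ∑ q ∈ E, Pi.single q.1 1) + Pi.single p.2 1 := by
      unfold rv; abel
    rw [e, Tf_X]

lemma hE_union (h : ℕ → R) {l : ℕ} (F : MvPowerSeries ℕ R) (E D : Finset (Fin l × Fin l))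
    (hDE : Disjoint D E) : ∀ γ, hE h F (D ∪ E) γ = fD D (hE h F E) γ := by
  induction D using Finset.induction_on with
  | empty => intro γ; rw [Finset.empty_union, fD_empty]
  | insert p D hp ih =>
    intro γ
    rw [Finset.disjoint_insert_left] at hDE
    have hpu : p ∉ D ∪ E := by
      rw [Finset.mem_union]; rintro (h1 | h1)
      · exact hp h1
      · exact hDE.1 h1
    rw [Finset.insert_union, hE_insert h F _ p hpu, fD_insert D p hp, ih hDE.2, ih hDE.2]

/-- vanishing for small weight -/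
lemma hE_vanish (h : ℕ → R) {l : ℕ} (F : MvPowerSeries ℕ R) (E : Finset (Fin l × Fin l))
    (γ : Fin l → ℤ) (hγ : wv γ < - wv (dE E)) : hE h F E γ = 0 := by
  unfold hE
  by_cases hneg : ∃ j, (γ + dE E) j < 0
  · obtain ⟨j, hj⟩ := hneg
    exact Tf_neg' h _ _ j hj
  · exfalso
    push Not at hneg
    have h1 : 0 ≤ wv (γ + dE E) := by
      unfold wv
      exact Finset.sum_nonneg fun i _ => mul_nonneg (by positivity) (hneg i)
    rw [wv_add] at h1
    omega

lemma rev_eq {l : ℕ} (i : Fin l) : dE (pairs l) i = ((Fin.rev i : ℕ) : ℤ) := by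
  unfold dE pairs
  rw [Finset.sum_apply]
  have e : ∑ c ∈ Finset.univ.filter (fun p : Fin l × Fin l => p.1 < p.2),
      (Pi.single c.1 (1 : ℤ) : Fin l → ℤ) i =
      ∑ c ∈ Finset.univ.filter (fun p : Fin l × Fin l => p.1 < p.2), if c.1 = i then (1 : ℤ) else 0 := by
    refine Finset.sum_congr rfl fun c _ => ?_
    by_cases hc : c.1 = i
    · rw [if_pos hc, hc, Pi.single_eq_same]
    · rw [if_neg hc, Pi.single_eq_of_ne (fun hh => hc hh.symm)]
  rw [e, ← Finset.sum_filter, Finset.sum_const, Finset.filter_filter]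
  have e2 : (Finset.univ.filter (fun p : Fin l × Fin l => p.1 < p.2 ∧ p.1 = i)).card = (Ioi i).card := by
    refine Finset.card_bij (fun p _ => p.2) ?_ ?_ ?_
    · intro p hp
      simp only [Finset.mem_filter, Finset.mem_univ, true_and] at hp
      rw [Finset.mem_Ioi, ← hp.2]; exact hp.1
    · intro p hp q hq hpq
      simp only [Finset.mem_filter, Finset.mem_univ, true_and] at hp hq
      exact Prod.ext (hp.2.trans hq.2.symm) hpq
    · intro j hj
      rw [Finset.mem_Ioi] at hj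
      exact ⟨(i, j), by simp [hj], rfl⟩
  rw [e2, Fin.card_Ioi, Fin.val_rev]
  simp only [nsmul_eq_mul, mul_one]
  congr 1
  omega

/-- the determinant as `H` of all pairs -/
lemma det_hE (h : ℕ → R) {l : ℕ} (γ : Fin l → ℤ) :
    Matrix.det (Matrix.of fun i j : Fin l => Kf h i.val (γ i + (j.val : ℤ) - (i.val : ℤ))) =
    hE h (∏ i : Fin l, ii R l i ^ (i : ℕ)) (pairs l) γ := by
  rw [det_Tf, prod_pairs (fun i j => MvPowerSeries.X (i : ℕ) - MvPowerSeries.X (j : ℕ))]
  unfold hE XE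
  congr 1
  funext i
  rw [Pi.add_apply, rev_eq]

end Pool.Agent.H68.KB
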