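import Pool.Agent.H68.KB.Rect

set_option autoImplicit false

open Finset

namespace Pool.Agent.H68.KB

variable {A M : Type} [CommRing A] [AddCommGroup M]

/-- the bounce function after removing the rows `s, …, s+d-1` -/
def del (s d : ℕ) (b : ℕ → ℕ) : ℕ → ℕ := fun i => if i < s then b i else b (i + d) - d

namespace Sys

variable (S : Sys A M)

/-- a row -/
def RW (b : ℕ → ℕ) (i : ℕ) : A := ∏ q ∈ Ico (i + 1) (b i), (1 - S.O i * S.I q)

/-- a row above the rectangle, after the move -/
def RW' (s d : ℕ) (b : ℕ → ℕ) (i : ℕ) : A := ∏ q ∈ Ico (i + 1) (b i), (1 - S.O i * S.I (skip s d q))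

lemma tau_RW_far (r i : ℕ) (hr : r + 1 < S.l) (b : ℕ → ℕ) (h : r + 1 < i) :
    S.tau r (r + 1) (S.RW b i) = S.RW b i := by
  unfold Sys.RW
  refine S.tau_row r i hr (by omega) (by omega) _ ?_
  simp only [mem_Ico]; omega

/-- the rectangle factorisation -/
theorem rect (s d : ℕ) (b : ℕ → ℕ) (hsd : s + d ≤ S.l) (hd : 0 < d) (hlt : ∀ i, i < b i)
    (hmono : ∀ i, i + 1 < S.l → b i < b (i + 1)) (hb : ∀ j, j < d → b (s + j) = s + d + j) (F : A)
    (hF : ∀ k, k + 1 < d → S.tau (s + k) (s + k + 1) F = F) :
    S.Phi (F * S.W b) = S.Phi (F * S.WI s d * S.Wr s d (del s d b)) := by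
  set c : ℕ → A := fun i => S.I (s + d + i) with hc
  set Lo : A := ∏ i ∈ Ico (s + d) S.l, S.RW b i with hLo
  have hbs : b s = s + d := by have := hb 0 hd; simpa using this
  have hba : ∀ a, a < s → b a < s + d := by
    intro a ha; have := mono_lt hmono a s ha (by omega); omega
  have hcfix : ∀ k, k + 1 < d → ∀ i, S.tau (s + k) (s + k + 1) (c i) = c i := by
    intro k hk i
    exact S.tau_Io _ _ _ (by omega) (by omega) (by omega) (by omega)
  -- splitting of the rows above
  have hrow : ∀ a, a < s → S.RW b a =
      (∏ q ∈ Ico (a + 1) (min (b a) s), (1 - S.O a * S.I q)) *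
        ∏ i ∈ range (b a - s), (1 - S.O a * S.I (s + i)) := by
    intro a ha
    unfold Sys.RW
    have h1 := hlt a
    rcases Nat.le_total (b a) s with h | h
    · rw [min_eq_left h, show b a - s = 0 by omega]; simp
    · rw [min_eq_right h, ← Finset.prod_Ico_consecutive _ (by omega : a + 1 ≤ s) h,
        Finset.prod_Ico_eq_prod_range _ s (b a)]
  have hrow' : ∀ a, a < s → S.RW' s d b a =
      (∏ q ∈ Ico (a + 1) (min (b a) s), (1 - S.O a * S.I q)) *
        ∏ i ∈ range (b a - s), (1 - S.O a * c i) := by
    intro a ha
    unfold Sys.RW'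
    have h1 := hlt a
    rcases Nat.le_total (b a) s with h | h
    · rw [min_eq_left h, show b a - s = 0 by omega]
      simp only [Finset.range_zero, Finset.prod_empty, mul_one]
      refine Finset.prod_congr rfl fun q hq => ?_
      rw [mem_Ico] at hq
      rw [skip, if_pos (by omega)]
    · rw [min_eq_right h, ← Finset.prod_Ico_consecutive _ (by omega : a + 1 ≤ s) h,
        Finset.prod_Ico_eq_prod_range _ s (b a)]
      congr 1
      · refine Finset.prod_congr rfl fun q hq => ?_
        rw [mem_Ico] at hq
        rw [skip, if_pos (by omega)]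
      · refine Finset.prod_congr rfl fun i _ => ?_
        rw [skip, if_neg (by omega), hc]
        simp only
        rw [show s + i + d = s + d + i by ring]
  -- the rows of the rectangle
  have hmid : ∏ i ∈ Ico s (s + d), S.RW b i = S.T s d c (fun j => j) * S.V s d := by
    rw [Finset.prod_Ico_eq_prod_range]
    unfold Sys.T Sys.V
    rw [← Finset.prod_mul_distrib, show s + d - s = d by omega]
    refine Finset.prod_congr rfl fun j hj => ?_
    rw [mem_range] at hj
    unfold Sys.RW
    rw [hb j hj, ← Finset.prod_Ico_consecutive _ (by omega : s + j + 1 ≤ s + d) (by omega : s + d ≤ s + d + j),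
      Finset.prod_Ico_eq_prod_range _ (s + d) (s + d + j), show s + d + j - (s + d) = j by omega, mul_comm]
  have hW : S.W b = (∏ a ∈ range s, S.RW b a) * (S.T s d c (fun j => j) * S.V s d) * Lo := by
    rw [← hmid, hLo]
    unfold Sys.W
    rw [Finset.range_eq_Ico, Finset.range_eq_Ico,
      Finset.prod_Ico_consecutive (S.RW b) (by omega) (by omega),
      Finset.prod_Ico_consecutive (S.RW b) (by omega) hsd]
    rfl
  have hLofix : ∀ k, k + 1 < d → S.tau (s + k) (s + k + 1) Lo = Lo := by
    intro k hk
    rw [hLo, map_prod]
    refine Finset.prod_congr rfl fun i hi => ?_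
    rw [mem_Ico] at hi
    exact S.tau_RW_far _ i (by omega) b (by omega)
  have hRW'fix : ∀ k, k + 1 < d → ∀ a, a < s → S.tau (s + k) (s + k + 1) (S.RW' s d b a) = S.RW' s d b a := by
    intro k hk a ha
    unfold Sys.RW'
    rw [map_prod]
    refine Finset.prod_congr rfl fun q _ => ?_
    rw [map_sub, map_one, map_mul, S.tau_o _ _ a (by omega) (by omega) (by omega) (by omega)]
    rw [S.tau_Io _ _ _ (by omega) (by omega) (by unfold skip; split_ifs <;> omega)
      (by unfold skip; split_ifs <;> omega)]
  -- moving the rows above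
  have hmove : ∀ a, a ≤ s → S.Phi (F * S.W b) =
      S.Phi (F * Lo * (∏ i ∈ range a, S.RW' s d b i) * (∏ i ∈ Ico a s, S.RW b i) *
        S.T s d c (fun j => j) * S.V s d) := by
    intro a
    induction a with
    | zero =>
      intro _
      rw [hW]
      congr 1
      rw [Finset.range_zero, Finset.prod_empty, ← Finset.range_eq_Ico]
      ring
    | succ a ih =>
      intro ha
      rw [ih (by omega), Finset.prod_range_succ, Finset.prod_eq_prod_Ico_succ_bot (by omega : a < s),
        hrow a (by omega), hrow' a (by omega)]
      set G : A := F * Lo * (∏ i ∈ range a, S.RW' s d b i) *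
        (∏ q ∈ Ico (a + 1) (min (b a) s), (1 - S.O a * S.I q)) * (∏ i ∈ Ico (a + 1) s, S.RW b i) with hG
      have hbad := hba a (by omega)
      have := S.move s d (b a - s) (by omega) hsd c hcfix G (S.O a)
        (by
          intro k hk
          rw [hG, map_mul, map_mul, map_mul, map_mul, hF k (by omega), hLofix k (by omega), map_prod,
            map_prod, map_prod]
          congr 1
          · congr 1
            · congr 1
              refine Finset.prod_congr rfl fun i hi => ?_
              rw [mem_range] at hi
              exact hRW'fix k (by omega) i (by omega)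
            · refine Finset.prod_congr rfl fun q hq => ?_
              rw [mem_Ico] at hq
              rw [map_sub, map_one, map_mul, S.tau_o _ _ a (by omega) (by omega) (by omega) (by omega),
                S.tau_Io _ _ _ (by omega) (by omega) (by omega) (by omega)]
          · refine Finset.prod_congr rfl fun i hi => ?_
            rw [mem_Ico] at hi
            unfold Sys.RW
            refine S.tau_row _ i (by omega) (by omega) (by omega) _ ?_
            have := mono_lt hmono a i (by omega) (by omega)
            simp only [mem_Ico]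
            omega)
        (by
          intro k hk
          exact S.tau_o _ _ a (by omega) (by omega) (by omega) (by omega))
      have e1 : F * Lo * (∏ i ∈ range a, S.RW' s d b i) *
          ((∏ q ∈ Ico (a + 1) (min (b a) s), (1 - S.O a * S.I q)) *
            (∏ i ∈ range (b a - s), (1 - S.O a * S.I (s + i))) * ∏ i ∈ Ico (a + 1) s, S.RW b i) *
          S.T s d c (fun j => j) * S.V s d =
          G * (∏ i ∈ range (b a - s), (1 - S.O a * S.I (s + i))) * S.T s d c (fun j => j) * S.V s d := by
        rw [hG]; ring
      have e2 : F * Lo * ((∏ i ∈ range a, S.RW' s d b i) *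
          ((∏ q ∈ Ico (a + 1) (min (b a) s), (1 - S.O a * S.I q)) *
            ∏ i ∈ range (b a - s), (1 - S.O a * c i))) * (∏ i ∈ Ico (a + 1) s, S.RW b i) *
          S.T s d c (fun j => j) * S.V s d =
          G * (∏ i ∈ range (b a - s), (1 - S.O a * c i)) * S.T s d c (fun j => j) * S.V s d := by
        rw [hG]; ring
      rw [e1, e2]
      exact this
  rw [hmove s le_rfl, Finset.Ico_self, Finset.prod_empty, mul_one]
  set G : A := F * Lo * (∏ i ∈ range s, S.RW' s d b i) with hG
  have hGfix : ∀ k, k + 1 < d → S.tau (s + k) (s + k + 1) G = G := by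
    intro k hk
    rw [hG, map_mul, map_mul, hF k hk, hLofix k hk, map_prod]
    congr 1
    refine Finset.prod_congr rfl fun i hi => ?_
    rw [mem_range] at hi
    exact hRW'fix k (by omega) i (by omega)
  rw [S.clear s d hsd c hcfix G hGfix,
    ← S.clear s d hsd (fun _ => 1) (fun k _ i => by simp) G hGfix]
  congr 1
  have hWI : S.WI s d = S.T s d (fun _ => 1) (fun j => j) * S.V s d := by
    unfold Sys.WI Sys.T Sys.V
    rw [← Finset.prod_mul_distrib]
    refine Finset.prod_congr rfl fun j _ => ?_
    rw [Finset.prod_const, mul_one, card_range, mul_comm]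
  have hWr : S.Wr s d (del s d b) = (∏ i ∈ range s, S.RW' s d b i) * Lo := by
    unfold Sys.Wr
    rw [Finset.range_eq_Ico, ← Finset.prod_Ico_consecutive _ (Nat.zero_le s) (by omega : s ≤ S.l - d),
      hLo]
    congr 1
    · rw [Finset.range_eq_Ico]
      refine Finset.prod_congr rfl fun i hi => ?_
      rw [mem_Ico] at hi
      unfold Sys.RW' del
      rw [if_pos hi.2, show skip s d i = i by rw [skip, if_pos hi.2]]
    · have : Ico (s + d) S.l = Ico (s + d) (S.l - d + d) := by rw [Nat.sub_add_cancel (by omega)]
      rw [this, ← Finset.prod_Ico_add' (S.RW b) s (S.l - d) d]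
      refine Finset.prod_congr rfl fun i hi => ?_
      rw [mem_Ico] at hi
      unfold Sys.RW del
      rw [if_neg (by omega), show skip s d i = i + d by rw [skip, if_neg (by omega)]]
      have h1 := hlt (i + d)
      have h2 : Ico (i + d + 1) (b (i + d)) = Ico (i + 1 + d) (b (i + d) - d + d) := by
        rw [Nat.sub_add_cancel (by omega)]; congr 1; ring
      rw [h2, ← Finset.prod_Ico_add' (fun q => 1 - S.O (i + d) * S.I q) (i + 1) (b (i + d) - d) d]
      refine Finset.prod_congr rfl fun q hq => ?_
      rw [mem_Ico] at hq
      rw [skip, if_neg (by omega)]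
  rw [hWI, hWr, hG]
  ring

end Sys

end Pool.Agent.H68.KB
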