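import Pool.Agent.H68.KB.Det

set_option autoImplicit false

open Finset

namespace Pool.Agent.H68.KB

variable {R : Type} [CommRing R]

lemma fD_mul {l : ℕ} (a : R) (D : Finset (Fin l × Fin l)) (f : (Fin l → ℤ) → R) (γ : Fin l → ℤ) :
    fD D (fun γ => a * f γ) γ = a * fD D f γ := by
  unfold fD
  rw [Finset.mul_sum]
  refine Finset.sum_congr rfl fun S _ => ?_
  rw [mul_smul_comm]

lemma Tf_prodX (h : ℕ → R) {l : ℕ} (F : MvPowerSeries ℕ R) (S : Finset (Fin l × Fin l)) :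
    ∀ γ : Fin l → ℤ, Tf h ((∏ p ∈ S, MvPowerSeries.X (p.2 : ℕ)) * F) γ =
      Tf h F (γ - ∑ p ∈ S, (Pi.single p.2 1 : Fin l → ℤ)) := by
  classical
  induction S using Finset.induction_on with
  | empty => intro γ; simp
  | insert p S hp ih =>
    intro γ
    rw [Finset.prod_insert hp, Finset.sum_insert hp, mul_assoc, Tf_X', ih]
    congr 1
    abel

lemma sum_powerset_X {l : ℕ} (D : Finset (Fin l × Fin l)) :
    ∑ S ∈ D.powerset, (-1 : MvPowerSeries ℕ R) ^ S.card * ∏ p ∈ S, MvPowerSeries.X (p.2 : ℕ) =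
      ∏ p ∈ D, (1 - MvPowerSeries.X (p.2 : ℕ)) := by
  have h1 : ∏ p ∈ D, (1 - (MvPowerSeries.X (p.2 : ℕ) : MvPowerSeries ℕ R)) =
      ∏ p ∈ D, (1 + (-1) * MvPowerSeries.X (p.2 : ℕ)) :=
    Finset.prod_congr rfl fun p _ => by ring
  rw [h1, Finset.prod_one_add]
  refine Finset.sum_congr rfl fun S _ => ?_
  rw [Finset.prod_mul_distrib, Finset.prod_const]

/-- the raising and lowering operators give a value of the functional -/
theorem G_step1 (h : ℕ → R) {l : ℕ} (lam : Fin l → ℤ) (D E : Finset (Fin l × Fin l))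
    (hD : ∀ p ∈ D, p.1 < p.2) (hDE : Disjoint D E) (hDEp : D ∪ E = pairs l) :
    ∑ S ∈ D.powerset, ∑ᶠ n : Fin l × Fin l → ℕ,
      (open Classical in if (∀ p, p ∉ D → n p = 0) then
        (-1 : R) ^ S.card * Matrix.det (Matrix.of fun i j : Fin l => Kf h i.val
          ((lam i + ∑ p ∈ D, (n p : ℤ) * ((if p.1 = i then (1 : ℤ) else 0) - (if p.2 = i then (1 : ℤ) else 0))
            - ∑ p ∈ S, (if p.2 = i then (1 : ℤ) else 0)) + (j.val : ℤ) - (i.val : ℤ)))
        else 0) =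
    Tf h ((∏ p ∈ D, (1 - MvPowerSeries.X (p.2 : ℕ))) *
      (XE R E * ∏ i : Fin l, ii R l i ^ (i : ℕ))) (lam + dE E) := by
  classical
  set F : MvPowerSeries ℕ R := ∏ i : Fin l, ii R l i ^ (i : ℕ) with hF
  have hS : ∀ S ∈ D.powerset, ∑ᶠ n : Fin l × Fin l → ℕ,
      (if (∀ p, p ∉ D → n p = 0) then
        (-1 : R) ^ S.card * Matrix.det (Matrix.of fun i j : Fin l => Kf h i.val
          ((lam i + ∑ p ∈ D, (n p : ℤ) * ((if p.1 = i then (1 : ℤ) else 0) - (if p.2 = i then (1 : ℤ) else 0))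
            - ∑ p ∈ S, (if p.2 = i then (1 : ℤ) else 0)) + (j.val : ℤ) - (i.val : ℤ)))
        else 0) = (-1 : R) ^ S.card *
          hE h F E (lam - ∑ p ∈ S, (Pi.single p.2 1 : Fin l → ℤ)) := by
    intro S _
    have h1 := finsum_inv (fun γ => (-1 : R) ^ S.card * hE h F E γ) (- wv (dE E))
      (fun γ hγ => by simp only [hE_vanish h F E γ hγ, mul_zero])
      (lam - ∑ p ∈ S, (Pi.single p.2 1 : Fin l → ℤ)) D hD
    rw [← h1]
    refine finsum_congr fun n => ?_
    by_cases hn : ∀ p, p ∉ D → n p = 0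
    · rw [if_pos hn, if_pos hn, fD_mul, ← hE_union h F E D hDE, hDEp]
      have h2 := det_hE h (lam - ∑ p ∈ S, (Pi.single p.2 1 : Fin l → ℤ) + sh n)
      rw [← hF] at h2
      rw [← h2]
      congr 1
      congr 1
      congr 1
      funext i j
      congr 1
      congr 1
      congr 1
      rw [← sh_supp D n hn, Pi.add_apply, Pi.sub_apply, Finset.sum_apply, Finset.sum_apply]
      have e1 : ∑ c ∈ D, ((n c : ℤ) • rv c) i =
          ∑ p ∈ D, (n p : ℤ) * ((if p.1 = i then (1 : ℤ) else 0) - (if p.2 = i then (1 : ℤ) else 0)) := by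
        refine Finset.sum_congr rfl fun p _ => ?_
        unfold rv
        rw [Pi.smul_apply, Pi.sub_apply, smul_eq_mul, Pi.single_apply, Pi.single_apply]
        simp only [eq_comm]
      have e2 : ∑ c ∈ S, (Pi.single c.2 1 : Fin l → ℤ) i = ∑ p ∈ S, (if p.2 = i then (1 : ℤ) else 0) := by
        refine Finset.sum_congr rfl fun p _ => ?_
        rw [Pi.single_apply]
        simp only [eq_comm]
      rw [e1, e2]; ring
    · rw [if_neg hn, if_neg hn]
  rw [Finset.sum_congr rfl hS, ← sum_powerset_X, Finset.sum_mul, Tf_sum]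
  refine Finset.sum_congr rfl fun S _ => ?_
  have h3 : (-1 : MvPowerSeries ℕ R) ^ S.card * (∏ p ∈ S, MvPowerSeries.X (p.2 : ℕ)) * (XE R E * F) =
      ((-1 : ℤ) ^ S.card) • ((∏ p ∈ S, MvPowerSeries.X (p.2 : ℕ)) * (XE R E * F)) := by
    rw [zsmul_eq_mul]; push_cast; ring
  rw [h3, Tf_zsmul, Tf_prodX, zsmul_eq_mul]
  unfold hE
  push_cast
  congr 2
  abel

/-- the ring identity -/
lemma ring_id {l : ℕ} (D E : Finset (Fin l × Fin l)) (hDE : Disjoint D E)
    (hDEp : D ∪ E = pairs l) :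
    (∏ p ∈ D, (1 - MvPowerSeries.X (p.2 : ℕ))) * (XE R E * ∏ i : Fin l, ii R l i ^ (i : ℕ)) =
      ∏ p ∈ E, (1 - oo R l p.1 * ii R l p.2) := by
  classical
  have hO : ∀ i : Fin l, oo R l i = 1 - MvPowerSeries.X (i : ℕ) := fun i => by
    unfold oo; rw [if_pos i.2]
  have h1 : ∏ p ∈ D, (1 - (MvPowerSeries.X (p.2 : ℕ) : MvPowerSeries ℕ R)) =
      ∏ p ∈ D, oo R l p.2 := Finset.prod_congr rfl fun p _ => (hO p.2).symm
  have h2 : XE R E = (∏ p ∈ E, oo R l p.2) * ∏ p ∈ E, (1 - oo R l p.1 * ii R l p.2) := by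
    unfold XE
    rw [← Finset.prod_mul_distrib]
    refine Finset.prod_congr rfl fun p _ => ?_
    have h3 := oo_ii (R := R) l p.2
    have e : (MvPowerSeries.X (p.1 : ℕ) - MvPowerSeries.X (p.2 : ℕ) : MvPowerSeries ℕ R) =
        oo R l p.2 - oo R l p.1 := by rw [hO, hO]; ring
    rw [e]
    linear_combination (oo R l p.1) * h3
  have h4 : (∏ p ∈ D, oo R l (p.2 : ℕ)) * ∏ p ∈ E, oo R l (p.2 : ℕ) =
      ∏ i : Fin l, oo R l i ^ (i : ℕ) := by
    rw [← Finset.prod_union hDE, hDEp]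
    have h5 := Finset.prod_fiberwise_of_maps_to (s := pairs l) (t := Finset.univ) (g := fun p => p.2)
      (fun p _ => Finset.mem_univ _) (fun p => oo R l (p.2 : ℕ))
    rw [← h5]
    refine Finset.prod_congr rfl fun i _ => ?_
    have h6 : ∏ x ∈ (pairs l).filter (fun p => p.2 = i), oo R l (x.2 : ℕ) =
        ∏ x ∈ (pairs l).filter (fun p => p.2 = i), oo R l (i : ℕ) := by
      refine Finset.prod_congr rfl fun x hx => ?_
      rw [Finset.mem_filter] at hx
      rw [hx.2]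
    rw [h6, Finset.prod_const]
    congr 1
    have h7 : ((pairs l).filter (fun p => p.2 = i)).card = (Iio i).card := by
      refine Finset.card_bij (fun p _ => p.1) ?_ ?_ ?_
      · intro p hp
        simp only [pairs, Finset.mem_filter, Finset.mem_univ, true_and] at hp
        rw [Finset.mem_Iio, ← hp.2]; exact hp.1
      · intro p hp q hq hpq
        simp only [pairs, Finset.mem_filter, Finset.mem_univ, true_and] at hp hq
        exact Prod.ext hpq (hp.2.trans hq.2.symm)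
      · intro j hj
        rw [Finset.mem_Iio] at hj
        exact ⟨(j, i), by simp [pairs, hj], rfl⟩
    rw [h7, Fin.card_Iio]
  have h8 : (∏ i : Fin l, oo R l i ^ (i : ℕ)) * (∏ i : Fin l, ii R l i ^ (i : ℕ)) = 1 := by
    rw [← Finset.prod_mul_distrib]
    refine Finset.prod_eq_one fun i _ => ?_
    rw [← mul_pow, oo_ii, one_pow]
  rw [h1, h2]
  calc (∏ p ∈ D, oo R l (p.2 : ℕ)) * ((∏ p ∈ E, oo R l (p.2 : ℕ)) *
        (∏ p ∈ E, (1 - oo R l p.1 * ii R l p.2)) * ∏ i : Fin l, ii R l i ^ (i : ℕ))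
      = ((∏ p ∈ D, oo R l (p.2 : ℕ)) * ∏ p ∈ E, oo R l (p.2 : ℕ)) *
        (∏ i : Fin l, ii R l i ^ (i : ℕ)) * (∏ p ∈ E, (1 - oo R l p.1 * ii R l p.2)) := by ring
    _ = ∏ p ∈ E, (1 - oo R l p.1 * ii R l p.2) := by rw [h4, h8, one_mul]

/-- the pairs inside the windows -/
def winE (l : ℕ) (b : ℕ → ℕ) : Finset (Fin l × Fin l) :=
  Finset.univ.filter (fun p => p.1 < p.2 ∧ (p.2 : ℕ) < b p.1)

/-- the window product -/
lemma W_windows (two : ∀ x : R, x + x = 0 → x = 0) (h : ℕ → R) (l κ : ℕ) (b : ℕ → ℕ) :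
    (cs two h l κ).W b = (∏ i : Fin l, MvPowerSeries.X (i : ℕ) ^ (b i - l)) *
      ∏ p ∈ winE l b, (1 - oo R l p.1 * ii R l p.2) := by
  classical
  have h1 : (cs two h l κ).W b = ∏ i : Fin l, ∏ q ∈ Ico ((i : ℕ) + 1) (b i), (1 - oo R l i * ii R l q) := by
    show ∏ i ∈ range l, ∏ q ∈ Ico (i + 1) (b i), (1 - oo R l i * ii R l q) = _
    rw [Finset.prod_range]
  have h2 : ∀ i : Fin l, ∏ q ∈ Ico ((i : ℕ) + 1) (b i), (1 - oo R l i * ii R l q) =
      MvPowerSeries.X (i : ℕ) ^ (b i - l) *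
        ∏ j ∈ Finset.univ.filter (fun j : Fin l => i < j ∧ (j : ℕ) < b i), (1 - oo R l i * ii R l j) := by
    intro i
    have hi := i.2
    have hin : ∏ j ∈ Finset.univ.filter (fun j : Fin l => i < j ∧ (j : ℕ) < b i),
        (1 - oo R l i * ii R l j) = ∏ q ∈ Ico ((i : ℕ) + 1) (min (b i) l), (1 - oo R l i * ii R l q) := by
      refine Finset.prod_bij (fun j _ => (j : ℕ)) ?_ ?_ ?_ ?_
      · intro j hj
        simp only [Finset.mem_filter, Finset.mem_univ, true_and] at hj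
        have h3 : (i : ℕ) < (j : ℕ) := hj.1
        have h4 := j.2
        rw [Finset.mem_Ico]
        omega
      · intro a _ c _ hac; exact Fin.ext hac
      · intro q hq
        rw [Finset.mem_Ico] at hq
        refine ⟨⟨q, by omega⟩, ?_, rfl⟩
        simp only [Finset.mem_filter, Finset.mem_univ, true_and]
        refine ⟨?_, by omega⟩
        show (i : ℕ) < q
        omega
      · intro j _; rfl
    rw [hin]
    rcases Nat.le_total (b i) l with hbl | hbl
    · rw [min_eq_left hbl, Nat.sub_eq_zero_of_le hbl, pow_zero, one_mul]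
    · rw [min_eq_right hbl, ← Finset.prod_Ico_consecutive _ (by omega : (i : ℕ) + 1 ≤ l) hbl, mul_comm]
      congr 1
      have h5 : ∀ q ∈ Ico l (b i), (1 - oo R l i * ii R l q) = MvPowerSeries.X (i : ℕ) := by
        intro q hq
        rw [Finset.mem_Ico] at hq
        unfold oo ii
        rw [if_pos hi, if_neg (by omega)]
        ring
      rw [Finset.prod_congr rfl h5, Finset.prod_const, Nat.card_Ico]
  rw [h1, Finset.prod_congr rfl (fun i _ => h2 i), Finset.prod_mul_distrib]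
  congr 1
  rw [Finset.prod_sigma']
  refine Finset.prod_bij (fun x _ => (x.1, x.2)) ?_ ?_ ?_ ?_
  · intro x hx
    simp only [Finset.mem_sigma, Finset.mem_univ, Finset.mem_filter, true_and] at hx
    simp only [winE, Finset.mem_filter, Finset.mem_univ, true_and]
    exact hx
  · rintro ⟨a, b⟩ _ ⟨c, d⟩ _ h
    simp only [Prod.mk.injEq] at h
    obtain ⟨h1, h2⟩ := h
    subst h1; subst h2; rfl
  · rintro ⟨a, c⟩ h
    refine ⟨⟨a, c⟩, ?_, rfl⟩
    simpa [winE] using h
  · intro x _; rfl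

lemma dE_winE {l : ℕ} (b : ℕ → ℕ) (i : Fin l) :
    dE (winE l b) i = ((min (b i) l - (i + 1) : ℕ) : ℤ) := by
  classical
  unfold dE winE
  rw [Finset.sum_apply]
  have e : ∑ c ∈ Finset.univ.filter (fun p : Fin l × Fin l => p.1 < p.2 ∧ (p.2 : ℕ) < b p.1),
      (Pi.single c.1 (1 : ℤ) : Fin l → ℤ) i =
      ∑ c ∈ Finset.univ.filter (fun p : Fin l × Fin l => p.1 < p.2 ∧ (p.2 : ℕ) < b p.1),
        if c.1 = i then (1 : ℤ) else 0 := by
    refine Finset.sum_congr rfl fun c _ => ?_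
    by_cases hc : c.1 = i
    · rw [if_pos hc, hc, Pi.single_eq_same]
    · rw [if_neg hc, Pi.single_eq_of_ne (fun hh => hc hh.symm)]
  rw [e, ← Finset.sum_filter, Finset.sum_const, Finset.filter_filter]
  have e2 : (Finset.univ.filter (fun p : Fin l × Fin l =>
      (p.1 < p.2 ∧ (p.2 : ℕ) < b p.1) ∧ p.1 = i)).card = (Ico ((i : ℕ) + 1) (min (b i) l)).card := by
    refine Finset.card_bij (fun p _ => (p.2 : ℕ)) ?_ ?_ ?_
    · intro p hp
      simp only [Finset.mem_filter, Finset.mem_univ, true_and] at hp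
      obtain ⟨⟨h1, h2⟩, h3⟩ := hp
      rw [h3] at h1 h2
      have h4 : (i : ℕ) < (p.2 : ℕ) := h1
      have h5 := p.2.2
      rw [Finset.mem_Ico]; omega
    · intro p hp q hq hpq
      simp only [Finset.mem_filter, Finset.mem_univ, true_and] at hp hq
      exact Prod.ext (hp.2.trans hq.2.symm) (Fin.ext hpq)
    · intro j hj
      rw [Finset.mem_Ico] at hj
      refine ⟨(i, ⟨j, by omega⟩), ?_, rfl⟩
      simp only [Finset.mem_filter, Finset.mem_univ, true_and, and_true]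
      refine ⟨?_, by omega⟩
      show (i : ℕ) < j
      omega
  rw [e2, Nat.card_Ico]
  simp

/-- evaluation at the constant vector -/
theorem Phi_W (two : ∀ x : R, x + x = 0 → x = 0) (h : ℕ → R) (l κ : ℕ) (lam : Fin l → ℕ)
    (hlam : ∀ i, lam i ≤ κ) (b : ℕ → ℕ)
    (hb : ∀ i : Fin l, b i = i + 1 + (κ - lam i)) :
    (cs two h l κ).Phi ((cs two h l κ).W b) =
      Tf h (∏ p ∈ winE l b, (1 - oo R l p.1 * ii R l p.2)) ((fun i => (lam i : ℤ)) + dE (winE l b)) := by
  rw [← Tf_Xprod h _ _ (fun i : Fin l => b i - l), ← W_windows two h l κ b]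
  show MvPowerSeries.coeff (ex (fun _ : Fin l => (κ : ℤ))) (_ * HH h l) = _
  have e : (fun i : Fin l => ((fun i => (lam i : ℤ)) + dE (winE l b)) i + ((b i - l : ℕ) : ℤ)) =
      fun _ : Fin l => (κ : ℤ) := by
    funext i
    rw [Pi.add_apply, dE_winE b]
    have h1 := hb i
    have h2 := hlam i
    have h3 := i.2
    omega
  rw [e]
  unfold Tf
  rw [if_pos (fun i => by positivity)]

/-- the closed Katalan function as a value of the functional -/
theorem G_eq (two : ∀ x : R, x + x = 0 → x = 0) (h : ℕ → R) (l k : ℕ) (lam : Fin l → ℕ)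
    (hlam : ∀ i, lam i ≤ k) (b : ℕ → ℕ) (hb : ∀ i : Fin l, b i = i + 1 + (k - lam i))
    (D : Finset (Fin l × Fin l))
    (hD : ∀ p, p ∈ D ↔ (p.1 < p.2 ∧ (k : ℤ) - (lam p.1 : ℤ) + (p.1.val : ℤ) < (p.2.val : ℤ))) :
    ∑ S ∈ D.powerset, ∑ᶠ n : Fin l × Fin l → ℕ,
      (open Classical in if (∀ p, p ∉ D → n p = 0) then
        (-1 : R) ^ S.card * Matrix.det (Matrix.of fun i j : Fin l => Kf h i.val
          (((lam i : ℤ) + ∑ p ∈ D, (n p : ℤ) * ((if p.1 = i then (1 : ℤ) else 0) - (if p.2 = i then (1 : ℤ) else 0))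
            - ∑ p ∈ S, (if p.2 = i then (1 : ℤ) else 0)) + (j.val : ℤ) - (i.val : ℤ)))
        else 0) = (cs two h l k).Phi ((cs two h l k).W b) := by
  classical
  have hmem : ∀ p, p ∈ winE l b ↔ (p.1 < p.2 ∧ (p.2 : ℕ) < b p.1) := by
    intro p; simp [winE]
  have hmemp : ∀ p : Fin l × Fin l, p ∈ pairs l ↔ p.1 < p.2 := by
    intro p; simp [pairs]
  have hDE : Disjoint D (winE l b) := by
    rw [Finset.disjoint_left]
    intro p hp hq
    rw [hD] at hp
    rw [hmem, hb] at hq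
    have := hlam p.1
    omega
  have hDEp : D ∪ winE l b = pairs l := by
    ext p
    rw [Finset.mem_union, hD, hmem, hmemp, hb]
    have := hlam p.1
    constructor
    · rintro (h1 | h1)
      · exact h1.1
      · exact h1.1
    · intro h1
      by_cases h2 : (k : ℤ) - (lam p.1 : ℤ) + (p.1.val : ℤ) < (p.2.val : ℤ)
      · left; exact ⟨h1, h2⟩
      · right; refine ⟨h1, by omega⟩
  rw [G_step1 h (fun i => (lam i : ℤ)) D (winE l b) (fun p hp => ((hD p).1 hp).1) hDE hDEp,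
    ring_id D (winE l b) hDE hDEp, Phi_W two h l k lam hlam b hb]

end Pool.Agent.H68.KB
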