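import Pool.Agent.H68.KB.Chain

set_option autoImplicit false

open Finset

namespace Pool.Agent.H68.KB

/-- the path of `y` avoids `J` -/
def Av (b : ℕ → ℕ) (J : Finset ℕ) (y : ℕ) : Prop := ∀ n, b^[n] y ∉ J

lemma Av.iter {b : ℕ → ℕ} {J : Finset ℕ} {y : ℕ} (h : Av b J y) (k : ℕ) : Av b J (b^[k] y) := by
  intro n
  rw [← Function.iterate_add_apply]
  exact h (n + k)

lemma Av.subset {b : ℕ → ℕ} {J J' : Finset ℕ} {y : ℕ} (h : Av b J y) (hJ : J' ⊆ J) : Av b J' y :=
  fun n hn => h n (hJ hn)

lemma Lands.hits {l : ℕ} {b : ℕ → ℕ} {J : Finset ℕ} {y : ℕ} (h : Lands l b J y) : ¬ Av b J y := by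
  induction h with
  | hit y hy => intro h; exact h 0 hy
  | skip y _ _ _ _ _ ih => intro h; exact ih (h.iter 1)

/-- changing `b` outside of a path does not change the path -/
lemma path_mod {b b' : ℕ → ℕ} {J : Finset ℕ} {y : ℕ} (hmod : ∀ w, b' w ≠ b w → ¬ Av b J w)
    (h : Av b J y) : ∀ n, b'^[n] y = b^[n] y := by
  intro n
  induction n with
  | zero => rfl
  | succ n ih =>
    rw [Function.iterate_succ_apply', Function.iterate_succ_apply', ih]
    by_contra hne
    exact hmod _ hne (h.iter n)

lemma Up_last {b : ℕ → ℕ} {m x u : ℕ} (h : Up b m x u) :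
    ∃ y, u + m ≤ y ∧ (∀ i, i < m → b (u + i) = y + 1 + i) ∧ (u = 0 ∨ b (u - 1) + 1 < b u) ∧
      ∃ n, b^[n] y = x := by
  induction h with
  | top x u h1 h2 h3 => exact ⟨x, h1, h2, h3, 0, rfl⟩
  | step x y u h1 h2 h3 _ ih =>
    obtain ⟨z, hz1, hz2, hz3, n, hn⟩ := ih
    exact ⟨z, hz1, hz2, hz3, n + 1, by rw [Function.iterate_succ_apply', hn, h3]⟩

lemma Up_reach {b : ℕ → ℕ} {m x u : ℕ} (h : Up b m x u) :
    ∀ i, i < m → ∃ n, b^[n + 1] (u + i) = x + 1 + i := by
  induction h with
  | top x u h1 h2 h3 => intro i hi; exact ⟨0, h2 i hi⟩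
  | step x y u h1 h2 h3 _ ih =>
    intro i hi
    obtain ⟨n, hn⟩ := ih i hi
    exact ⟨n + 1, by rw [Function.iterate_succ_apply', hn, h2 i hi]⟩

/-- a state in which the rows `x, …, x+m` are going to be lowered, or in which the token at `x` is
going to hop -/
structure Pre (l t β : ℕ) (J : Finset ℕ) (x m : ℕ) (b : ℕ → ℕ) : Prop where
  lt : ∀ i, i < b i
  mono : ∀ i, i + 1 < l → b i < b (i + 1)
  J_lt : ∀ j ∈ J, t ≤ j ∧ j < l
  anti : ∀ j ∈ J, ∀ n, b^[n] (b j) ∉ J
  bot : ∀ j ∈ J, j + 1 < l → b (j + 1) = b j + 1 → j + 1 ∈ J ∨ (x ≤ j + 1 ∧ j + 1 ≤ x + m)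
  xl : x + m < l
  cons : ∀ i, i ≤ m → b (x + i) = b x + i
  corner : x + m + 1 < l → b x + m + 1 < b (x + m + 1)
  hb : x + m < b x
  lands : ∀ i, 1 ≤ i → i ≤ m → Lands l b J (b x + i)
  hx : x ∈ J ∨ Lands l b J (b x)
  T : 0 < t → b (t - 1) + 2 + (if x ≤ t - 1 ∧ t - 1 ≤ x + m then 1 else 0) ≤ β ∧ β ≤ b t ∧
    ∀ n, b^[n] (β - 1) ∉ J

namespace Pre

variable {l t β : ℕ} {J : Finset ℕ} {x m : ℕ} {b : ℕ → ℕ}

/-- rows `x+1, …, x+m` hit `J` after at least one step -/
lemma hit1 (h : Pre l t β J x m b) (i : ℕ) (h1 : 1 ≤ i) (h2 : i ≤ m) : ¬ Av b J (b (x + i)) := by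
  rw [h.cons i h2]; exact (h.lands i h1 h2).hits

lemma hit0 (h : Pre l t β J x m b) (i : ℕ) (h2 : i ≤ m) : ¬ Av b J (x + i) := by
  rcases Nat.eq_zero_or_pos i with h0 | h0
  · subst h0
    rcases h.hx with h1 | h1
    · intro h2; exact h2 0 h1
    · intro h2; exact h1.hits (h2.iter 1)
  · intro h3; exact h.hit1 i h0 h2 (h3.iter 1)

/-- rows reaching the rows `x, …, x+m` carry no other token -/
lemma notin (h : Pre l t β J x m b) (n w i : ℕ) (hi : i ≤ m) (hw : b^[n] w = x + i) :
    w ∉ J.erase x := by
  intro hwJ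
  rw [mem_erase] at hwJ
  cases n with
  | zero =>
    have hw' : w = x + i := hw
    subst hw'
    have hi0 : 1 ≤ i := by
      rcases Nat.eq_zero_or_pos i with h0 | h0
      · subst h0; exact absurd rfl hwJ.1
      · exact h0
    exact h.hit1 i hi0 hi (fun n => h.anti _ hwJ.2 n)
  | succ n =>
    rw [Function.iterate_succ_apply] at hw
    have hav : Av b J (b w) := fun n => h.anti _ hwJ.2 n
    have := hav.iter n
    rw [hw] at this
    exact h.hit0 i hi this

/-- the modified rows -/
lemma mod {u : ℕ} (w : ℕ) (hw : cb b x m u w ≠ b w) :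
    (∃ i, i ≤ m ∧ w = x + i) ∨ (∃ i, i < m ∧ w = u + i) := by
  by_cases h1 : x ≤ w ∧ w ≤ x + m
  · exact Or.inl ⟨w - x, by omega, by omega⟩
  by_cases h2 : u ≤ w ∧ w < u + m
  · exact Or.inr ⟨w - u, by omega, by omega⟩
  exfalso; apply hw; simp only [cb]; rw [if_neg h1, if_neg h2]; rfl

lemma up_hit1 (h : Pre l t β J x m b) {u : ℕ} (hu : Up b m x u) (i : ℕ) (hi : i < m) :
    ¬ Av b J (b (u + i)) := by
  obtain ⟨n, hn⟩ := Up_reach hu i hi
  intro hav
  rw [Function.iterate_succ_apply] at hn
  have := hav.iter n
  rw [hn, show x + 1 + i = x + (1 + i) by ring] at this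
  exact h.hit0 (1 + i) (by omega) this

lemma up_hit0 (h : Pre l t β J x m b) {u : ℕ} (hu : Up b m x u) (i : ℕ) (hi : i < m) :
    ¬ Av b J (u + i) := fun h1 => h.up_hit1 hu i hi (h1.iter 1)

lemma mod_hit (h : Pre l t β J x m b) {u : ℕ} (hu : Up b m x u) (w : ℕ)
    (hw : cb b x m u w ≠ b w) : ¬ Av b J w := by
  rcases Pre.mod w hw with ⟨i, hi, rfl⟩ | ⟨i, hi, rfl⟩
  · exact h.hit0 i hi
  · exact h.up_hit0 hu i hi

/-- tokens are not on modified rows -/
lemma mod_notin (h : Pre l t β J x m b) {u : ℕ} (hu : Up b m x u) (w : ℕ)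
    (hw : w ∈ J.erase x) : cb b x m u w = b w := by
  by_contra hne
  rcases Pre.mod w hne with ⟨i, hi, rfl⟩ | ⟨i, hi, rfl⟩
  · exact h.notin 0 _ i hi rfl hw
  · obtain ⟨n, hn⟩ := Up_reach hu i hi
    exact h.notin (n + 1) _ (1 + i) (by omega) (by rw [hn]; ring) hw

/-- transfer of landing below the modified rows -/
lemma lands_transfer (h : Pre l t β J x m b) {u : ℕ} (hu : Up b m x u) (y : ℕ) (hy : x + m < y)
    (hL : Lands l b J y) : Lands l (cb b x m u) (J.erase x) y := by
  have hle := Up_le hu
  have hval : ∀ w, x + m < w → cb b x m u w = b w := by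
    intro w hw
    simp only [cb]; rw [if_neg (by omega), if_neg (by omega)]; rfl
  induction hL with
  | hit y hyJ => exact Lands.hit y (mem_erase.2 ⟨by omega, hyJ⟩)
  | skip y h1 h2 h3 h4 h5 ih =>
    refine Lands.skip y h1 ?_ ?_ ?_ ?_
    · rw [hval y hy, hval (y + 1) (by omega), h2]
    · intro hh; exact h3 (mem_of_mem_erase hh)
    · intro hh; exact h4 (mem_of_mem_erase hh)
    · rw [hval y hy]
      exact ih (by have := h.lt y; omega)

/-- landing for the raised rows -/
lemma lands_up (h : Pre l t β J x m b) {u : ℕ} (hu : Up b m x u) :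
    ∀ i, i < m → Lands l (cb b x m u) (J.erase x) (b u - 1 + i) := by
  -- generalise over the chain
  have key : ∀ x' u', Up b m x' u' → u' = u → x' ≤ x →
      (∀ i, i ≤ m → ∃ n, b^[n] (x' + i) = x + i) →
      (∀ i, i < m → Lands l (cb b x m u) (J.erase x) (x' + i)) →
      ∀ i, i < m → Lands l (cb b x m u) (J.erase x) (b u' - 1 + i) := by
    intro x' u' hU
    induction hU with
    | top x' u' h1 h2 h3 =>
      intro _ _ _ hL i hi
      have := h2 0 (by omega)
      simp only [add_zero] at this
      rw [this, show x' + 1 - 1 + i = x' + i by omega]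
      exact hL i hi
    | step x' y u' h1 h2 h3 hU ih =>
      intro hu' hxx hreach hL
      have hreach' : ∀ i, i ≤ m → b (y + i) = x' + i := by
        intro i hi
        rcases Nat.eq_zero_or_pos i with h0 | h0
        · subst h0; simpa using h3
        · have := h2 (i - 1) (by omega)
          rw [show y + 1 + (i - 1) = y + i by omega] at this
          rw [this]; omega
      have hr2 : ∀ i, i ≤ m → ∃ n, b^[n] (y + i) = x + i := by
        intro i hi
        obtain ⟨n, hn⟩ := hreach i hi
        exact ⟨n + 1, by rw [Function.iterate_succ_apply, hreach' i hi, hn]⟩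
      have hle := Up_le hU
      refine ih hu' (by omega) hr2 ?_
      intro i hi
      have hval : ∀ w, y ≤ w → w ≤ y + m → cb b x m u w = b w := by
        intro w hw1 hw2
        simp only [cb]; rw [if_neg (by omega), if_neg (by omega)]; rfl
      have hxl := h.xl
      refine Lands.skip (y + i) (by omega) ?_ ?_ ?_ ?_
      · rw [hval _ (by omega) (by omega), hval _ (by omega) (by omega), hreach' i (by omega),
          show y + i + 1 = y + (i + 1) by ring, hreach' (i + 1) (by omega)]; ring
      · obtain ⟨n, hn⟩ := hr2 i (by omega)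
        exact h.notin n _ i (by omega) hn
      · obtain ⟨n, hn⟩ := hr2 (i + 1) (by omega)
        exact h.notin n _ (i + 1) (by omega) (by rw [← hn]; rfl)
      · rw [hval _ (by omega) (by omega), hreach' i (by omega)]
        exact hL i hi
  refine key x u hu rfl le_rfl (fun i _ => ⟨0, rfl⟩) ?_
  intro i hi
  have hle := Up_le hu
  have hxl := h.xl
  have hval : ∀ w, x ≤ w → w ≤ x + m → cb b x m u w = b w + 1 := by
    intro w hw1 hw2
    simp only [cb]; rw [if_pos (by omega), if_neg (by omega)]; rfl
  refine Lands.skip (x + i) (by omega) ?_ ?_ ?_ ?_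
  · rw [hval _ (by omega) (by omega), hval _ (by omega) (by omega), h.cons i (by omega),
      show x + i + 1 = x + (i + 1) by ring, h.cons (i + 1) (by omega)]; ring
  · exact h.notin 0 _ i (by omega) rfl
  · exact h.notin 0 _ (i + 1) (by omega) rfl
  · rw [hval _ (by omega) (by omega), h.cons i (by omega)]
    have hL := h.lands (i + 1) (by omega) (by omega)
    have hb := h.hb
    exact h.lands_transfer hu _ (by omega) hL

/-- the new state after a chain -/
theorem up (h : Pre l t β J x m b) (hm : 0 < m) {u : ℕ} (hu : Up b m x u) :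
    St l t β (J.erase x) u m (cb b x m u) := by
  obtain ⟨y, hy1, hy2, hy3, ny, hy4⟩ := Up_last hu
  have hle := Up_le hu
  have hxl := h.xl
  have hb := h.hb
  have hbu : b u = y + 1 := by have := hy2 0 hm; simpa using this
  have hcu : ∀ i, i < m → cb b x m u (u + i) = y + i := by
    intro i hi
    simp only [cb]; rw [if_neg (by omega), if_pos (by omega), hy2 i hi]; omega
  have hcu0 : cb b x m u u = y := by have := hcu 0 hm; simpa using this
  constructor
  · -- lt
    intro i
    by_cases h2 : u ≤ i ∧ i < u + m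
    · have := hcu (i - u) (by omega)
      rw [show u + (i - u) = i by omega] at this
      rw [this]; omega
    · have := h.lt i
      simp only [cb]; rw [if_neg h2]; split_ifs <;> omega
  · -- mono
    intro i hi
    have h1 := h.mono i hi
    have h2 := h.lt i
    have hc : i = x + m → b i + 1 < b (i + 1) := by
      intro he; subst he
      have := h.corner hi
      have := h.cons m le_rfl
      omega
    have ht : i + 1 = u → b i + 1 < b (i + 1) := by
      intro he
      rcases hy3 with h3 | h3
      · omega
      · rw [← he] at h3; simpa using h3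
    simp only [cb]
    split_ifs <;> omega
  · -- J_lt
    intro j hj; exact h.J_lt j (mem_of_mem_erase hj)
  · -- anti
    intro j hj n
    rw [h.mod_notin hu j hj]
    have hav : Av b J (b j) := fun n => h.anti j (mem_of_mem_erase hj) n
    rw [path_mod (fun w hw => h.mod_hit hu w hw) hav n]
    intro hh
    exact hav n (mem_of_mem_erase hh)
  · -- bot
    intro j hj hjl hjc
    rw [h.mod_notin hu j hj] at hjc
    by_cases h2 : u ≤ j + 1 ∧ j + 1 < u + m
    · right; exact h2
    left
    simp only [cb] at hjc
    rw [if_neg h2] at hjc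
    have h1 := h.mono j hjl
    by_cases ha : x ≤ j + 1 ∧ j + 1 ≤ x + m
    · rw [if_pos ha] at hjc; omega
    · rw [if_neg ha] at hjc
      rcases h.bot j (mem_of_mem_erase hj) hjl (by omega) with h3 | h3
      · exact mem_erase.2 ⟨by omega, h3⟩
      · omega
  · intro _; omega
  · -- R_cons
    intro i hi
    rw [hcu i hi, hcu0]
  · -- R_corner
    intro _ hl
    rw [hcu0]
    have h1 := hy2 (m - 1) (by omega)
    have h2 := h.mono (u + (m - 1)) (by omega)
    rw [h1, show u + (m - 1) + 1 = u + m by omega] at h2
    simp only [cb]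
    rw [if_neg (by omega : ¬ (u ≤ u + m ∧ u + m < u + m))]
    split_ifs <;> omega
  · intro _; rw [hcu0]; omega
  · -- R_lands
    intro i hi
    have := h.lands_up hu i hi
    rw [hbu] at this
    rw [hcu0]
    simpa using this
  · -- T
    intro ht
    obtain ⟨h1, h2, h3⟩ := h.T ht
    have hav : Av b J (β - 1) := h3
    refine ⟨?_, ?_, ?_⟩
    · have := h.lt (t - 1)
      simp only [cb]
      split_ifs at h1 ⊢ <;> omega
    · by_cases htu : u ≤ t ∧ t < u + m
      · by_cases htu' : t = u
        · subst htu'
          have hne : b t ≠ β := by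
            intro he
            have : β - 1 = y := by omega
            rw [this] at hav
            have h4 := hav.iter ny
            rw [hy4] at h4
            exact h.hit0 0 (by omega) h4
          have := hcu0
          rw [this]; omega
        · exfalso
          have h4 := hy2 (t - u) (by omega)
          have h5 := hy2 (t - u - 1) (by omega)
          rw [show u + (t - u) = t by omega] at h4
          rw [show u + (t - u - 1) = t - 1 by omega] at h5
          split_ifs at h1 <;> omega
      · simp only [cb]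
        rw [if_neg htu]
        split_ifs <;> omega
    · intro n
      rw [path_mod (fun w hw => h.mod_hit hu w hw) hav n]
      intro hh
      exact hav n (mem_of_mem_erase hh)

/-- the new state after lowering a single row -/
theorem low (h : Pre l t β J x 0 b) : St l t β (J.erase x) 0 0 (up1 b x) := by
  have hmod : ∀ w, up1 b x w ≠ b w → ¬ Av b J w := by
    intro w hw
    have : w = x := by
      by_contra hne
      apply hw; simp [up1, hne]
    subst this
    exact h.hit0 0 le_rfl
  have hnot : ∀ w, w ∈ J.erase x → up1 b x w = b w := by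
    intro w hw
    have : w ≠ x := ne_of_mem_erase hw
    simp [up1, this]
  have hxl := h.xl
  constructor
  · intro i
    have := h.lt i
    simp only [up1]; omega
  · intro i hi
    have h1 := h.mono i hi
    simp only [up1]
    by_cases hix : i = x
    · subst hix
      have := h.corner hi
      rw [if_pos rfl, if_neg (by omega)]; simpa using this
    · rw [if_neg hix]; split_ifs <;> omega
  · intro j hj; exact h.J_lt j (mem_of_mem_erase hj)
  · intro j hj n
    rw [hnot j hj]
    have hav : Av b J (b j) := fun n => h.anti j (mem_of_mem_erase hj) n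
    rw [path_mod hmod hav n]
    intro hh
    exact hav n (mem_of_mem_erase hh)
  · intro j hj hjl hjc
    rw [hnot j hj] at hjc
    left
    have h1 := h.mono j hjl
    by_cases hjx : j + 1 = x
    · simp only [up1] at hjc; rw [if_pos hjx] at hjc; omega
    · simp only [up1] at hjc; rw [if_neg hjx] at hjc
      rcases h.bot j (mem_of_mem_erase hj) hjl (by omega) with h3 | h3
      · exact mem_erase.2 ⟨hjx, h3⟩
      · omega
  · intro h0; omega
  · intro i hi; omega
  · intro h0; omega
  · intro h0; omega
  · intro i hi; omega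
  · intro ht
    obtain ⟨h1, h2, h3⟩ := h.T ht
    have hav : Av b J (β - 1) := h3
    refine ⟨?_, ?_, ?_⟩
    · simp only [up1]
      by_cases htx : t - 1 = x
      · rw [if_pos htx]; rw [if_pos (by omega)] at h1; rw [if_neg (by omega)]; omega
      · rw [if_neg htx]; rw [if_neg (by omega)] at h1; rw [if_neg (by omega)]; omega
    · simp only [up1]; omega
    · intro n
      rw [path_mod hmod hav n]
      intro hh
      exact hav n (mem_of_mem_erase hh)

/-- iterates preserve a distance at least `k` -/
lemma iter_dist {l : ℕ} {b : ℕ → ℕ} (hlt : ∀ i, i < b i) (hmono : ∀ i, i + 1 < l → b i < b (i + 1))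
    (k : ℕ) : ∀ n v w, v + k ≤ w → b^[n] w < l → b^[n] v + k ≤ b^[n] w := by
  intro n
  induction n with
  | zero => intro v w h _; exact h
  | succ n ih =>
    intro v w h hl
    rw [Function.iterate_succ_apply'] at hl ⊢
    rw [Function.iterate_succ_apply']
    have h1 := hlt (b^[n] w)
    have h2 := ih v w h (by omega)
    have h3 := mono_add hmono (b^[n] v) (b^[n] w - b^[n] v) (by omega)
    rw [show b^[n] v + (b^[n] w - b^[n] v) = b^[n] w by omega] at h3
    omega

/-- symmetry of the tokens along the chain -/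
lemma sym (h : Pre l t β J x m b) (n r i : ℕ) (hi : i < m) (h1 : b^[n] r = x + i)
    (h2 : b^[n] (r + 1) = x + i + 1) :
    (r ∈ range t ↔ r + 1 ∈ range t) ∧ (r ∈ J.erase x ↔ r + 1 ∈ J.erase x) := by
  constructor
  · rw [mem_range, mem_range]
    constructor
    · intro hr
      by_contra hcon
      have hrt : t = r + 1 := by omega
      obtain ⟨h3, h4, _⟩ := h.T (by omega)
      rw [hrt] at h3 h4
      simp only [Nat.add_sub_cancel] at h3
      have hxl := h.xl
      cases n with
      | zero =>
        have h1' : r = x + i := h1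
        have h5 := h.cons i (by omega)
        have h6 := h.cons (i + 1) (by omega)
        rw [← h1'] at h5
        rw [show x + (i + 1) = r + 1 by omega] at h6
        omega
      | succ n =>
        rw [Function.iterate_succ_apply] at h1 h2
        have := iter_dist h.lt h.mono 2 n (b r) (b (r + 1)) (by omega) (by rw [h2]; omega)
        omega
    · intro hr; omega
  · constructor
    · intro hr; exact absurd hr (h.notin n r i (by omega) h1)
    · intro hr; exact absurd hr (h.notin n (r + 1) (i + 1) (by omega) (by rw [h2]; ring))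

end Pre

namespace St

variable {l t β : ℕ} {J : Finset ℕ} {p m : ℕ} {b : ℕ → ℕ}

lemma notR (h : St l t β J p m b) (i : ℕ) (hi : i < m) : p + i ∉ J := by
  intro hJ
  have h1 := (h.R_lands i hi).hits
  rw [← h.R_cons i hi] at h1
  exact h1 (fun n => h.anti _ hJ n)

/-- no pending rows: take the last token -/
lemma pre0 (h : St l t β J p 0 b) (x : ℕ) (hx : x ∈ J) (hmax : ∀ j ∈ J, j ≤ x) :
    Pre l t β J x 0 b := by
  have hxl := (h.J_lt x hx).2
  refine ⟨h.lt, h.mono, h.J_lt, h.anti, ?_, by omega, ?_, ?_, ?_, ?_, Or.inl hx, ?_⟩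
  · intro j hj hjl hjc
    rcases h.bot j hj hjl hjc with h1 | h1
    · exact Or.inl h1
    · omega
  · intro i hi
    have : i = 0 := by omega
    subst this; rfl
  · intro hl
    have h1 := h.mono x (by omega)
    by_contra hcon
    have h2 : b (x + 1) = b x + 1 := by simp only [add_zero] at hcon; omega
    rcases h.bot x hx (by omega) h2 with h3 | h3
    · have := hmax _ h3; omega
    · omega
  · have := h.lt x; omega
  · intro i h1 h2; omega
  · intro ht
    obtain ⟨h1, h2, h3⟩ := h.T ht
    have := (h.J_lt x hx).1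
    rw [if_neg (by omega)] at h1
    rw [if_neg (by omega)]
    exact ⟨h1, h2, h3⟩

/-- the token directly above the pending rows -/
lemma preS (h : St l t β J (p + 1) m b) (hm : 0 < m) (hx : p ∈ J) (hc : b (p + 1) = b p + 1) :
    Pre l t β J p m b := by
  have hRle := h.R_le hm
  have hcons : ∀ i, i ≤ m → b (p + i) = b p + i := by
    intro i hi
    rcases Nat.eq_zero_or_pos i with h0 | h0
    · subst h0; rfl
    · have := h.R_cons (i - 1) (by omega)
      rw [show p + 1 + (i - 1) = p + i by omega, hc] at this
      rw [this]; omega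
  refine ⟨h.lt, h.mono, h.J_lt, h.anti, ?_, by omega, hcons, ?_, ?_, ?_, Or.inl hx, ?_⟩
  · intro j hj hjl hjc
    rcases h.bot j hj hjl hjc with h1 | h1
    · exact Or.inl h1
    · right; omega
  · intro hl
    have := h.R_corner hm (by omega)
    rw [hc, show p + 1 + m = p + m + 1 by ring] at this
    omega
  · have h1 := h.R_b hm
    rw [hc] at h1
    by_contra hcon
    have h2 : b p = p + m := by omega
    have h3 : Av b J (b p) := fun n => h.anti p hx n
    have h4 := (h.R_lands (m - 1) (by omega)).hits
    apply h4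
    have h5 := h.R_cons (m - 1) (by omega)
    rw [← h5, show p + 1 + (m - 1) = b p by omega]
    exact h3.iter 1
  · intro i h1 h2
    have := h.R_lands (i - 1) (by omega)
    rw [hc, show b p + 1 + (i - 1) = b p + i by omega] at this
    exact this
  · intro ht
    obtain ⟨h1, h2, h3⟩ := h.T ht
    have := (h.J_lt p hx).1
    rw [if_neg (by omega)] at h1
    rw [if_neg (by omega)]
    exact ⟨h1, h2, h3⟩

/-- expansion of the first pending row -/
lemma preE (h : St l t β J p (m + 1) b) : Pre l t β J p m b := by
  have hRle := h.R_le (by omega)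
  refine ⟨h.lt, h.mono, h.J_lt, h.anti, ?_, by omega, fun i hi => h.R_cons i (by omega), ?_, ?_, ?_,
    ?_, ?_⟩
  · intro j hj hjl hjc
    rcases h.bot j hj hjl hjc with h1 | h1
    · exact Or.inl h1
    · right; omega
  · intro hl
    have := h.R_corner (by omega) (by omega)
    rw [show p + (m + 1) = p + m + 1 by ring] at this
    omega
  · have := h.R_b (by omega); omega
  · intro i h1 h2; exact h.R_lands i (by omega)
  · right
    have := h.R_lands 0 (by omega)
    simpa using this
  · intro ht
    obtain ⟨h1, h2, h3⟩ := h.T ht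
    refine ⟨?_, h2, h3⟩
    split_ifs at h1 ⊢ <;> omega

/-- dropping the first pending row -/
lemma drop (h : St l t β J p (m + 1) b)
    (hno : ¬ (1 ≤ p ∧ p - 1 ∈ J ∧ b p = b (p - 1) + 1)) : St l t β J (p + 1) m b := by
  have hRle := h.R_le (by omega)
  have hcons := h.R_cons
  constructor
  · exact h.lt
  · exact h.mono
  · exact h.J_lt
  · exact h.anti
  · intro j hj hjl hjc
    rcases h.bot j hj hjl hjc with h1 | h1
    · exact Or.inl h1
    · by_cases hjp : j + 1 = p
      · exfalso; apply hno
        refine ⟨by omega, ?_, ?_⟩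
        · rw [← hjp]; simpa using hj
        · rw [← hjp]; simpa using hjc
      · right; omega
  · intro _; omega
  · intro i hi
    have h1 := hcons (i + 1) (by omega)
    have h2 := hcons 1 (by omega)
    rw [show p + 1 + i = p + (i + 1) by ring, h1, h2]; ring
  · intro hm hl
    have := h.R_corner (by omega) (by omega)
    have h2 := hcons 1 (by omega)
    rw [show p + (m + 1) = p + 1 + m by ring] at this
    rw [h2]; omega
  · intro hm
    have := h.R_b (by omega)
    have h2 := hcons 1 (by omega)
    omega
  · intro i hi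
    have h2 := hcons 1 (by omega)
    have := h.R_lands (i + 1) (by omega)
    rw [h2, show b p + 1 + i = b p + (i + 1) by ring]
    exact this
  · intro ht
    obtain ⟨h1, h2, h3⟩ := h.T ht
    refine ⟨?_, h2, h3⟩
    split_ifs at h1 ⊢ <;> omega

end St

end Pool.Agent.H68.KB
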