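import Pool.Agent.H68.KB.Kill
import Pool.Agent.H68.KB.Up

set_option autoImplicit false

open Finset

namespace Pool.Agent.H68.KB

variable {A M : Type} [CommRing A] [AddCommGroup M]

lemma iter_lt {b : ℕ → ℕ} (hlt : ∀ i, i < b i) (y : ℕ) (n : ℕ) : y + n ≤ b^[n] y := by
  induction n with
  | zero => simp
  | succ n ih => rw [Function.iterate_succ_apply']; have := hlt (b^[n] y); omega

lemma iter_mono {b : ℕ → ℕ} (hlt : ∀ i, i < b i) (y : ℕ) {k n : ℕ} (h : k < n) :
    b^[k] y < b^[n] y := by
  obtain ⟨d, rfl⟩ : ∃ d, n = (d + 1) + k := ⟨n - k - 1, by omega⟩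
  rw [Function.iterate_add_apply]
  have := iter_lt hlt (b^[k] y) (d + 1)
  omega

/-- two paths which meet -/
lemma copath {l : ℕ} {b : ℕ → ℕ} (hlt : ∀ i, i < b i) (hmono : ∀ i, i + 1 < l → b i < b (i + 1))
    (x : ℕ) : ∀ n w N, b^[n] w = b^[N] x → b^[n] w < l →
      (∃ k, b^[k] w = x) ∨ (∃ k, 1 ≤ k ∧ w = b^[k] x) := by
  intro n
  induction n with
  | zero =>
    intro w N h _
    rcases Nat.eq_zero_or_pos N with h0 | h0
    · subst h0; exact Or.inl ⟨0, h⟩
    · exact Or.inr ⟨N, h0, h⟩
  | succ n ih =>
    intro w N h hl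
    cases N with
    | zero => exact Or.inl ⟨n + 1, h⟩
    | succ N =>
      rw [Function.iterate_succ_apply', Function.iterate_succ_apply'] at h
      rw [Function.iterate_succ_apply'] at hl
      have h1 := hlt (b^[n] w)
      have h2 := hlt (b^[N] x)
      have h3 := mono_inj hmono (b^[n] w) (b^[N] x) (by omega) (by omega) h
      exact ih w N h3 (by omega)

namespace Pre

variable {l t β : ℕ} {J : Finset ℕ} {x m : ℕ} {b : ℕ → ℕ}

/-- the rows of the flight -/
lemma flight (h : Pre l t β J x m b) (hxJ : x ∈ J) (N : ℕ)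
    (hFC : ∀ k, 1 ≤ k → k < N → b^[k] x + 1 < l ∧ b (b^[k] x + 1) = b (b^[k] x) + 1 ∧
      b^[k] x + 1 ∉ J) :
    ∀ k, 1 ≤ k → k < N →
      (∀ i, i ≤ m + 1 → b^[k] x + i < l ∧ b (b^[k] x + i) = b^[k + 1] x + i ∧ b^[k] x + i ∉ J) ∧
      (∀ i, 1 ≤ i → i ≤ m → Lands l b J (b^[k + 1] x + i)) := by
  have step : ∀ k, 1 ≤ k → k < N → (∀ i, 1 ≤ i → i ≤ m → Lands l b J (b^[k] x + i)) →
      (∀ i, i ≤ m + 1 → b^[k] x + i < l ∧ b (b^[k] x + i) = b^[k + 1] x + i ∧ b^[k] x + i ∉ J) ∧
      (∀ i, 1 ≤ i → i ≤ m → Lands l b J (b^[k + 1] x + i)) := by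
    intro k hk hkN hL
    obtain ⟨f1, f2, f3⟩ := hFC k hk hkN
    set y := b^[k] x with hy
    have hby : b^[k + 1] x = b y := by rw [Function.iterate_succ_apply']
    rw [hby]
    have hy0 : y ∉ J := by
      obtain ⟨k', rfl⟩ : ∃ k', k = k' + 1 := ⟨k - 1, by omega⟩
      rw [hy, Function.iterate_succ_apply]
      exact h.anti x hxJ k'
    have main : ∀ i, i ≤ m → y + (i + 1) < l ∧ b (y + (i + 1)) = b y + (i + 1) ∧ y + (i + 1) ∉ J := by
      intro i
      induction i with
      | zero => intro _; exact ⟨f1, f2, f3⟩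
      | succ i ih =>
        intro hi
        obtain ⟨g1, g2, g3⟩ := ih (by omega)
        have hLi := hL (i + 1) (by omega) (by omega)
        cases hLi with
        | hit _ hh => exact absurd hh g3
        | skip _ q1 q2 q3 q4 q5 =>
          refine ⟨q1, ?_, q4⟩
          rw [show y + (i + 1 + 1) = y + (i + 1) + 1 by ring, q2, g2]; ring
    refine ⟨?_, ?_⟩
    · intro i hi
      rcases Nat.eq_zero_or_pos i with h0 | h0
      · subst h0; exact ⟨by omega, rfl, hy0⟩
      · have := main (i - 1) (by omega)
        rw [show i - 1 + 1 = i by omega] at this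
        exact this
    · intro i h1 h2
      have g := main (i - 1) (by omega)
      rw [show i - 1 + 1 = i by omega] at g
      have hLi := hL i h1 h2
      cases hLi with
      | hit _ hh => exact absurd hh g.2.2
      | skip _ q1 q2 q3 q4 q5 => rw [g.2.1] at q5; exact q5
  intro k hk
  induction k, hk using Nat.le_induction with
  | base =>
    intro hN
    exact step 1 le_rfl hN (fun i h1 h2 => by rw [Function.iterate_one]; exact h.lands i h1 h2)
  | succ k hk ih =>
    intro hN
    exact step (k + 1) (by omega) hN (ih (by omega)).2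

/-- validity of the new state after a hop -/
lemma hop_st (h : Pre l t β J x m b) (hxJ : x ∈ J) (N : ℕ) (hN : 1 ≤ N)
    (hFC : ∀ k, 1 ≤ k → k < N → b^[k] x + 1 < l ∧ b (b^[k] x + 1) = b (b^[k] x) + 1 ∧
      b^[k] x + 1 ∉ J)
    (hstop : ¬ (b^[N] x + 1 < l ∧ b (b^[N] x + 1) = b (b^[N] x) + 1 ∧ b^[N] x + 1 ∉ J))
    (hz : b^[N] x < l) :
    St l t β (insert (b^[N] x) (J.erase x)) x (m + 1) b := by
  set z := b^[N] x with hzdef
  have hxz : x < z := by have := iter_lt h.lt x N; omega
  have hbz : b x ≤ z := by
    obtain ⟨k, rfl⟩ : ∃ k, N = k + 1 := ⟨N - 1, by omega⟩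
    rw [hzdef, Function.iterate_succ_apply]
    have := iter_lt h.lt (b x) k; omega
  have hzJ : z ∉ J := by
    obtain ⟨k, rfl⟩ : ∃ k, N = k + 1 := ⟨N - 1, by omega⟩
    rw [hzdef, Function.iterate_succ_apply]
    exact h.anti x hxJ k
  have htx := (h.J_lt x hxJ).1
  have hxl := h.xl
  have hb := h.hb
  have hdist := fun y hy hyl => Sys.dist_aux h.mono x m hb (h.cons m le_rfl) h.corner y hy hyl
  have hge : ∀ k, 1 ≤ k → b x ≤ b^[k] x := by
    intro k hk
    obtain ⟨k', rfl⟩ : ∃ k', k = k' + 1 := ⟨k - 1, by omega⟩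
    rw [Function.iterate_succ_apply]
    have := iter_lt h.lt (b x) k'; omega
  -- rows of the flights of the other tokens are not just above z
  have hnoadj : ∀ k, 1 ≤ k → ∀ i, i ≤ m → b^[k] (x + i) + 1 ≠ z := by
    intro k hk i hi he
    have h1 : b^[k] x ≤ b^[k] (x + i) := by
      have := iter_dist h.lt h.mono 0 k x (x + i) (by omega) (by omega)
      omega
    -- k < N
    have hkN : k < N := by
      by_contra hcon
      have : z ≤ b^[k] x := by
        rcases Nat.eq_or_lt_of_le (not_lt.1 hcon) with h2 | h2
        · rw [hzdef, h2]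
        · exact le_of_lt (iter_mono h.lt x h2)
      omega
    -- b^[k+1] x ≤ z
    have h2 : b^[k + 1] x ≤ z := by
      rcases Nat.eq_or_lt_of_le (Nat.succ_le_of_lt hkN) with h3 | h3
      · rw [hzdef, ← h3]
      · exact le_of_lt (iter_mono h.lt x h3)
    -- distance two
    have h4 : b^[k] (x + i) + 2 ≤ b^[k + 1] x := by
      obtain ⟨k', rfl⟩ : ∃ k', k = k' + 1 := ⟨k - 1, by omega⟩
      rw [Function.iterate_succ_apply, Function.iterate_succ_apply b (k' + 1)]
      rw [Function.iterate_succ_apply, h.cons i hi]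
      refine iter_dist h.lt h.mono 2 k' (b x + i) (b (b x)) ?_ ?_
      · have hbx : b x < l := by omega
        have := hdist (b x) le_rfl hbx
        omega
      · rw [← Function.iterate_succ_apply, ← Function.iterate_succ_apply]
        have h2' : b^[k'.succ.succ] x ≤ z := h2
        omega
    omega
  -- paths avoiding J also avoid z
  have havz : ∀ w, Av b J w → (∀ k, 1 ≤ k → w ≠ b^[k] x) → Av b (insert z (J.erase x)) w := by
    intro w hw hne n hn
    rw [mem_insert] at hn
    rcases hn with hn | hn
    · rcases copath h.lt h.mono x n w N hn (by rw [hn]; exact hz) with ⟨k, hk⟩ | ⟨k, hk1, hk2⟩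
      · exact hw k (by rw [hk]; exact hxJ)
      · exact hne k hk1 hk2
    · exact hw n (mem_of_mem_erase hn)
  constructor
  · exact h.lt
  · exact h.mono
  · intro j hj
    rw [mem_insert] at hj
    rcases hj with rfl | hj
    · exact ⟨by omega, hz⟩
    · exact h.J_lt j (mem_of_mem_erase hj)
  · intro j hj
    rw [mem_insert] at hj
    rcases hj with rfl | hj
    · -- path of z
      intro n hn
      rw [mem_insert] at hn
      have h5 := iter_lt h.lt (b z) n
      have h6 := h.lt z
      rcases hn with hn | hn
      · omega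
      · have e : b^[n] (b z) = b^[n + N] (b x) := by
          rw [hzdef, ← Function.iterate_succ_apply, ← Function.iterate_add_apply,
            ← Function.iterate_succ_apply]
          congr 1; omega
        rw [e] at hn
        exact h.anti x hxJ _ (mem_of_mem_erase hn)
    · have hjJ := mem_of_mem_erase hj
      have hjx := ne_of_mem_erase hj
      by_cases hbl : b j < l
      · refine havz (b j) (fun n => h.anti j hjJ n) ?_
        intro k hk he
        obtain ⟨k', rfl⟩ : ∃ k', k = k' + 1 := ⟨k - 1, by omega⟩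
        rw [Function.iterate_succ_apply'] at he
        have h7 := h.lt (b^[k'] x)
        have h8 := mono_inj h.mono j (b^[k'] x) (h.J_lt j hjJ).2 (by omega) he
        cases k' with
        | zero => exact hjx h8
        | succ k'' =>
          rw [Function.iterate_succ_apply] at h8
          exact h.anti x hxJ k'' (h8 ▸ hjJ)
      · intro n hn
        have h9 := iter_lt h.lt (b j) n
        rw [mem_insert] at hn
        rcases hn with hn | hn
        · omega
        · exact h.anti j hjJ n (mem_of_mem_erase hn)
  · intro j hj hjl hjc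
    rw [mem_insert] at hj
    rcases hj with rfl | hj
    · left
      rw [mem_insert]; right
      by_contra hcon
      apply hstop
      refine ⟨hjl, hjc, ?_⟩
      intro hh
      exact hcon (mem_erase.2 ⟨by omega, hh⟩)
    · rcases h.bot j (mem_of_mem_erase hj) hjl hjc with h1 | h1
      · by_cases hjx : j + 1 = x
        · right; omega
        · left; exact mem_insert_of_mem (mem_erase.2 ⟨hjx, h1⟩)
      · right; omega
  · intro _; omega
  · intro i hi; exact h.cons i (by omega)
  · intro _ hl
    have := h.corner (by omega)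
    rw [show x + (m + 1) = x + m + 1 by ring]; omega
  · intro _; omega
  · -- landing
    intro i hi
    rcases Nat.eq_zero_or_pos i with h0 | h0
    · subst h0
      rw [add_zero]
      -- from the top: Lands (b^[k] x) for k from N down to 1
      have key : ∀ d, d < N → Lands l b (insert z (J.erase x)) (b^[N - d] x) := by
        intro d
        induction d with
        | zero => intro _; exact Lands.hit _ (by simp [hzdef])
        | succ d ihd =>
          intro hd
          have hk1 : 1 ≤ N - (d + 1) := by omega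
          have hk2 : N - (d + 1) < N := by omega
          obtain ⟨f1, f2, f3⟩ := hFC _ hk1 hk2
          have hlt1 : b^[N - (d + 1)] x < z := iter_mono h.lt x hk2
          have hnJ : b^[N - (d + 1)] x ∉ J := by
            obtain ⟨k', hk'⟩ : ∃ k', N - (d + 1) = k' + 1 := ⟨N - (d + 1) - 1, by omega⟩
            rw [hk', Function.iterate_succ_apply]
            exact h.anti x hxJ k'
          refine Lands.skip _ f1 f2 ?_ ?_ ?_
          · rw [mem_insert]; rintro (hh | hh)
            · omega
            · exact hnJ (mem_of_mem_erase hh)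
          · rw [mem_insert]; rintro (hh | hh)
            · exact hnoadj _ hk1 0 (by omega) (by simpa using hh)
            · exact f3 (mem_of_mem_erase hh)
          · have := ihd (by omega)
            rw [show N - d = (N - (d + 1)) + 1 by omega, Function.iterate_succ_apply'] at this
            exact this
      have := key (N - 1) (by omega)
      rwa [show N - (N - 1) = 1 by omega, Function.iterate_one] at this
    · -- other rows
      have hL := h.lands i h0 (by omega)
      have key : ∀ y, Lands l b J y → (∃ k, 1 ≤ k ∧ y = b^[k] (x + i)) →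
          Lands l b (insert z (J.erase x)) y := by
        intro y hy
        induction hy with
        | hit y hyJ =>
          rintro ⟨k, hk, hyk⟩
          refine Lands.hit y (mem_insert_of_mem (mem_erase.2 ⟨?_, hyJ⟩))
          have := iter_lt h.lt (x + i) k
          omega
        | skip y q1 q2 q3 q4 q5 ih =>
          rintro ⟨k, hk, hyk⟩
          by_cases hyz : y = z
          · exact Lands.hit y (by rw [hyz]; exact mem_insert_self _ _)
          · refine Lands.skip y q1 q2 ?_ ?_ (ih ⟨k + 1, by omega, ?_⟩)
            · rw [mem_insert]; rintro (hh | hh)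
              · exact hyz hh
              · exact q3 (mem_of_mem_erase hh)
            · rw [mem_insert]; rintro (hh | hh)
              · rw [hyk] at hh
                exact hnoadj k hk i (by omega) hh
              · exact q4 (mem_of_mem_erase hh)
            · rw [Function.iterate_succ_apply', ← hyk]
      exact key _ hL ⟨1, le_rfl, by rw [Function.iterate_one, h.cons i (by omega)]⟩
  · intro ht
    obtain ⟨h1, h2, h3⟩ := h.T ht
    refine ⟨?_, h2, ?_⟩
    · rw [if_neg (by omega)] at h1 ⊢; exact h1
    · refine havz (β - 1) h3 ?_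
      intro k hk he
      have h4 := hge k hk
      have h5 : b t ≤ b x := by
        rcases Nat.eq_or_lt_of_le htx with h6 | h6
        · rw [h6]
        · exact le_of_lt (mono_lt h.mono t x h6 (by omega))
      omega

end Pre

namespace Sys

variable (S : Sys A M)

lemma LL_insert (z : ℕ) (J : Finset ℕ) (h : z ∉ J) : S.LL (insert z J) = S.L z * S.LL J := by
  unfold Sys.LL; rw [Finset.prod_insert h]

/-- the bounce -/
lemma bounce {t β : ℕ} {J : Finset ℕ} {x m : ℕ} {b : ℕ → ℕ} (h : Pre S.l t β J x m b)
    (hxJ : x ∈ J) (N : ℕ)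
    (hFC : ∀ k, 1 ≤ k → k < N → b^[k] x + 1 < S.l ∧ b (b^[k] x + 1) = b (b^[k] x) + 1 ∧
      b^[k] x + 1 ∉ J) :
    ∀ n, 1 ≤ n → n ≤ N →
      S.Phi (S.LL (range t) * S.LL (J.erase x) * S.L (b x) * S.P x (b x) (m + 1) * S.W b) =
      S.Phi (S.LL (range t) * S.LL (J.erase x) * S.L (b^[n] x) * S.P x (b x) (m + 1) * S.W b) := by
  have hxl := h.xl
  have hb := h.hb
  have htx := (h.J_lt x hxJ).1
  have hfl := h.flight hxJ N hFC
  have hdist := fun y hy hyl => Sys.dist_aux h.mono x m hb (h.cons m le_rfl) h.corner y hy hyl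
  have hge : ∀ k, 1 ≤ k → b x ≤ b^[k] x := by
    intro k hk
    obtain ⟨k', rfl⟩ : ∃ k', k = k' + 1 := ⟨k - 1, by omega⟩
    rw [Function.iterate_succ_apply]
    have := iter_lt h.lt (b x) k'; omega
  intro n hn
  induction n, hn using Nat.le_induction with
  | base => intro _; rw [Function.iterate_one]
  | succ n hn ih =>
    intro hN
    rw [ih (by omega)]
    set y := b^[n] x with hy
    have hby : b^[n + 1] x = b y := by rw [Function.iterate_succ_apply']
    rw [hby]
    have hyl := ((hfl n hn (by omega)).1 0 (by omega)).1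
    rw [← hy, add_zero] at hyl
    have hup := S.W_up1 y hyl b (h.lt y)
    -- the kill lemma
    have hkill := S.kill b h.lt h.mono x m hxl h.cons hb h.corner
      (S.LL (range t) * S.LL (J.erase x) * S.O (b y)) n
      (fun k hk hkn i hi => ⟨((hfl k hk (by omega)).1 i hi).1, ((hfl k hk (by omega)).1 i hi).2.1⟩)
      (fun k hk hkn i hi => by
        have g0 := (hfl k hk (by omega)).1 i (by omega)
        have g1 := (hfl k hk (by omega)).1 (i + 1) (by omega)
        rw [← add_assoc (b^[k] x) i 1] at g1
        have hk0 := hge k hk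
        have hkl : b^[k] x < S.l := by have := ((hfl k hk (by omega)).1 0 (by omega)).1; simpa using this
        have hd := hdist _ hk0 hkl
        have hle : b (b^[k] x) ≤ b y := by
          rcases Nat.eq_or_lt_of_le hkn with h1 | h1
          · rw [hy, h1]
          · have := iter_mono h.lt x (Nat.succ_lt_succ h1)
            rw [Function.iterate_succ_apply', Function.iterate_succ_apply'] at this
            exact le_of_lt this
        rw [map_mul, map_mul, S.tau_LL _ g1.1 _ (by simp only [mem_range]; omega),
          S.tau_LL _ g1.1 _ (by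
            constructor
            · intro hh; exact absurd (mem_of_mem_erase hh) g0.2.2
            · intro hh; exact absurd (mem_of_mem_erase hh) g1.2.2),
          S.tau_o _ _ (b y) (by omega) (by have := g1.1; omega) (by omega) (by omega)])
      n hn le_rfl (b y + 1) (up1 b y)
      (by
        have := hdist y (hge n hn) hyl
        rw [← hy]; omega)
      (fun i hi => by rw [← hy] at hi; simp only [up1]; rw [if_neg (by omega)]; rfl)
      (by simp [up1, ← hy])
      (fun i hi => by
        have := ((hfl n hn (by omega)).1 (i + 1) (by omega)).2.1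
        rw [← hy, hby] at this
        rw [← hy]
        simp only [up1]
        rw [if_neg (by omega), show y + 1 + i = y + (i + 1) by ring, this]; ring)
    rw [hup] at hkill
    rw [← sub_eq_zero, ← map_sub]
    rw [← hkill]
    congr 1
    unfold Sys.L
    have hOI := S.OI (b y)
    linear_combination ((S.LL (range t) * S.LL (J.erase x) * S.O y * S.P x (b x) (m + 1) * S.W b)) * hOI

/-- the hop -/
theorem hop {t β : ℕ} {J : Finset ℕ} {x m : ℕ} {b : ℕ → ℕ} (h : Pre S.l t β J x m b)
    (hxJ : x ∈ J) :
    S.Phi (S.LL (range t) * S.LL (J.erase x) * S.L (b x) * S.P x (b x) (m + 1) * S.W b) = 0 ∨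
    ∃ z, x < z ∧ z < S.l ∧ z ∉ J.erase x ∧ St S.l t β (insert z (J.erase x)) x (m + 1) b ∧
      S.Phi (S.LL (range t) * S.LL (J.erase x) * S.L (b x) * S.P x (b x) (m + 1) * S.W b) =
      S.Phi (S.E t (insert z (J.erase x)) x (m + 1) b) := by
  classical
  -- the first stopping position
  have hex : ∃ N, 1 ≤ N ∧ ¬ (b^[N] x + 1 < S.l ∧ b (b^[N] x + 1) = b (b^[N] x) + 1 ∧
      b^[N] x + 1 ∉ J) := by
    refine ⟨S.l + 1, by omega, ?_⟩
    rintro ⟨h1, _, _⟩
    have := iter_lt h.lt x (S.l + 1)
    omega
  obtain ⟨hN1, hN2⟩ := Nat.find_spec hex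
  set N := Nat.find hex with hNdef
  have hFC : ∀ k, 1 ≤ k → k < N → b^[k] x + 1 < S.l ∧ b (b^[k] x + 1) = b (b^[k] x) + 1 ∧
      b^[k] x + 1 ∉ J := by
    intro k hk hkN
    have := Nat.find_min hex hkN
    by_contra hcon
    exact this ⟨hk, hcon⟩
  have hbounce := S.bounce h hxJ N hFC N hN1 le_rfl
  by_cases hz : b^[N] x < S.l
  · right
    have hzJ : b^[N] x ∉ J.erase x := by
      intro hh
      obtain ⟨k, hk⟩ : ∃ k, N = k + 1 := ⟨N - 1, by omega⟩
      rw [hk, Function.iterate_succ_apply] at hh
      exact h.anti x hxJ k (mem_of_mem_erase hh)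
    refine ⟨b^[N] x, ?_, hz, hzJ, h.hop_st hxJ N hN1 hFC hN2 hz, ?_⟩
    · have := iter_lt h.lt x N; omega
    · rw [hbounce]
      unfold Sys.E
      rw [S.LL_insert _ _ hzJ]
      congr 1
      ring
  · left
    rw [hbounce, S.L_ge _ (not_lt.1 hz)]
    simp

end Sys

end Pool.Agent.H68.KB
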