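import Pool.Agent.H68.KB.Chain

set_option autoImplicit false

open Finset

namespace Pool.Agent.H68.KB

variable {A M : Type} [CommRing A] [AddCommGroup M]

namespace Sys

variable (S : Sys A M)

/-- one level of a cascade -/
lemma cascade (b : ℕ → ℕ) (hmono : ∀ i, i + 1 < S.l → b i < b (i + 1))
    (z m E a : ℕ) (c : ℕ → ℕ) (G : A) (hzm : z + m < S.l) (hE : z + m + 1 ≤ E)
    (hcb : ∀ i, i < z → c i = b i) (hc0 : c z = E) (hc1 : ∀ i, i < m → c (z + 1 + i) = E + i)
    (ha : ∀ i, i < m → b (a + i) = z + 1 + i ∧ a + i < z)
    (hG : ∀ j, j < m → S.tau (z + j) (z + j + 1) G = G) :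
    ∀ j, j ≤ m →
      S.Phi (G * S.W c) =
      S.Phi (G * S.W (fun i => c i + (if z + 1 ≤ i ∧ i ≤ z + j then 1 else 0)
          - (if a ≤ i ∧ i < a + j then 1 else 0))) := by
  intro j
  induction j with
  | zero =>
    intro _
    have : S.W c = S.W (fun i => c i + (if z + 1 ≤ i ∧ i ≤ z + 0 then 1 else 0)
          - (if a ≤ i ∧ i < a + 0 then 1 else 0)) := by
      apply S.W_congr
      intro i _
      simp only [add_zero]
      rw [if_neg (by omega), if_neg (by omega)]; omega
    rw [← this]
  | succ j ih =>
    intro hj
    rw [ih (by omega)]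
    obtain ⟨hbj, hjx⟩ := ha j (by omega)
    set cj : ℕ → ℕ := (fun i => c i + (if z + 1 ≤ i ∧ i ≤ z + j then 1 else 0)
          - (if a ≤ i ∧ i < a + j then 1 else 0)) with hcj
    have hcjr : cj (z + j) = E + j := by
      rcases Nat.eq_zero_or_pos j with h0 | h0
      · subst h0
        simp only [hcj, add_zero]
        rw [if_neg (by omega), if_neg (by omega), hc0]; rfl
      · simp only [hcj]
        have := hc1 (j - 1) (by omega)
        rw [show z + 1 + (j - 1) = z + j by omega] at this
        rw [if_pos (by omega), if_neg (by omega), this]; omega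
    have hcjr1 : cj (z + j + 1) = E + j := by
      simp only [hcj]
      have := hc1 j (by omega)
      rw [show z + 1 + j = z + j + 1 by omega] at this
      rw [if_neg (by omega), if_neg (by omega), this]; omega
    exact S.rule_AQ (z + j) (a + j) (by omega) (by omega) cj
      (fun i => c i + (if z + 1 ≤ i ∧ i ≤ z + (j + 1) then 1 else 0)
          - (if a ≤ i ∧ i < a + (j + 1) then 1 else 0))
      (by rw [hcjr, hcjr1]) (by rw [hcjr]; omega)
      (by
        simp only [hcj]
        rw [if_neg (by omega), if_neg (by omega), hcb _ hjx, hbj]; omega)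
      (by
        intro i hi hia
        simp only [hcj]
        by_cases hix : i < z
        · rw [if_neg (by omega), hcb i hix]
          by_cases hiu : a ≤ i ∧ i < a + j
          · rw [if_pos hiu]
            have := (ha (i - a) (by omega)).1
            rw [show a + (i - a) = i by omega] at this
            omega
          · rw [if_neg hiu]
            intro h
            apply hia
            apply mono_inj hmono i (a + j) (by omega) (by omega)
            omega
        · by_cases hix' : i = z
          · subst hix'
            rw [if_neg (by omega), if_neg (by omega), hc0]; omega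
          · have := hc1 (i - z - 1) (by omega)
            rw [show z + 1 + (i - z - 1) = i by omega] at this
            rw [if_pos (by omega), if_neg (by omega), this]; omega)
      (by
        intro k hk hka hkr
        simp only [hcj]
        split_ifs <;> omega)
      (by
        have := hcb _ hjx
        rw [if_neg (by omega), if_pos (by omega), this, hbj]; omega)
      (by
        rw [hcjr1]
        have := hc1 j (by omega)
        rw [show z + 1 + j = z + j + 1 by omega] at this
        rw [if_pos (by omega), if_neg (by omega), this]; omega)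
      G (hG j (by omega))

/-- `P x y m` is symmetric in two of the rows `y, …, y+m-1` -/
lemma tau_P_sym (r : ℕ) (hr : r + 1 < S.l) (u y m : ℕ) (hu : ∀ i, i < m → u + i ≠ r ∧ u + i ≠ r + 1)
    (h1 : y ≤ r) (h2 : r + 1 < y + m) :
    S.tau r (r + 1) (S.P u y m) = S.P u y m := by
  unfold Sys.P
  rw [Finset.prod_mul_distrib, map_mul, map_prod, map_prod]
  congr 1
  · refine Finset.prod_congr rfl fun i hi => ?_
    obtain ⟨h1, h2⟩ := hu i (mem_range.1 hi)
    rw [S.tau_o r (r + 1) _ (by omega) hr h1 h2]
  · have e : ∀ f : ℕ → A, ∏ i ∈ range m, f (y + i) = ∏ q ∈ Ico y (y + m), f q := by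
      intro f
      rw [Finset.prod_Ico_eq_prod_range]
      simp
    rw [e (fun q => S.tau r (r + 1) (S.I q)), e (fun q => S.I q)]
    refine Finset.prod_equiv (Equiv.swap r (r + 1)) ?_ ?_
    · intro q
      rcases eq_or_ne q r with h | h
      · subst h; rw [Equiv.swap_apply_left]; simp only [mem_Ico]; omega
      rcases eq_or_ne q (r + 1) with h' | h'
      · subst h'; rw [Equiv.swap_apply_right]; simp only [mem_Ico]; omega
      rw [Equiv.swap_apply_of_ne_of_ne h h']
    · intro q _
      exact S.tau_I_swap r (r + 1) q (by omega) hr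

/-- distance of successive positions -/
lemma dist_aux {l : ℕ} {b : ℕ → ℕ} (hmono : ∀ i, i + 1 < l → b i < b (i + 1)) (x m : ℕ)
    (hb : x + m < b x) (hxm : b (x + m) = b x + m)
    (hcorner : x + m + 1 < l → b x + m + 1 < b (x + m + 1)) (y : ℕ) (hy : b x ≤ y) (hyl : y < l) :
    y + m + 2 ≤ b y := by
  have h1 := hcorner (by omega)
  have h2 := mono_add hmono (x + m + 1) (y - (x + m + 1)) (by omega)
  rw [show x + m + 1 + (y - (x + m + 1)) = y by omega] at h2
  omega

/-- the kill lemma -/
theorem kill (b : ℕ → ℕ) (hlt : ∀ i, i < b i) (hmono : ∀ i, i + 1 < S.l → b i < b (i + 1))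
    (x m : ℕ) (hxm : x + m < S.l) (hcons : ∀ i, i ≤ m → b (x + i) = b x + i)
    (hb : x + m < b x) (hcorner : x + m + 1 < S.l → b x + m + 1 < b (x + m + 1)) (G : A) (N : ℕ)
    (hfl : ∀ k, 1 ≤ k → k ≤ N → ∀ i, i ≤ m + 1 →
      b^[k] x + i < S.l ∧ b (b^[k] x + i) = b^[k + 1] x + i)
    (hG : ∀ k, 1 ≤ k → k ≤ N → ∀ i, i ≤ m → S.tau (b^[k] x + i) (b^[k] x + i + 1) G = G) :
    ∀ n, 1 ≤ n → n ≤ N → ∀ (E : ℕ) (c : ℕ → ℕ), b^[n] x + m + 2 ≤ E →
      (∀ i, i < b^[n] x → c i = b i) → c (b^[n] x) = E →
      (∀ i, i ≤ m → c (b^[n] x + 1 + i) = E + i) →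
      S.Phi (G * S.P x (b x) (m + 1) * S.W c) = 0 := by
  have hge : ∀ k, 1 ≤ k → b x ≤ b^[k] x := by
    intro k hk
    induction k, hk using Nat.le_induction with
    | base => simp
    | succ k _ ih => rw [Function.iterate_succ_apply']; have := hlt (b^[k] x); omega
  intro n hn
  induction n, hn using Nat.le_induction with
  | base =>
    intro hN E c hE hcb hc0 hc1
    rw [Function.iterate_one] at hE hcb hc0 hc1
    have hfl1 := hfl 1 le_rfl hN
    have hG1 := hG 1 le_rfl hN
    rw [Function.iterate_one] at hfl1 hG1
    have hl := (hfl1 (m + 1) le_rfl).1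
    have hcas := S.cascade b hmono (b x) m E (x + 1) c (G * S.P x (b x) (m + 1)) (by omega)
      (by omega) hcb hc0 (fun i hi => hc1 i (by omega))
      (fun i hi => by
        have := hcons (1 + i) (by omega)
        rw [show x + 1 + i = x + (1 + i) by ring, this]; omega)
      (fun j hj => by
        rw [map_mul, hG1 j (by omega),
          S.tau_P_sym (b x + j) (by omega) x (b x) (m + 1) (fun i hi => by omega) (by omega) (by omega)])
      m le_rfl
    rw [hcas, P_succ]
    set cj : ℕ → ℕ := (fun i => c i + (if b x + 1 ≤ i ∧ i ≤ b x + m then 1 else 0)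
          - (if x + 1 ≤ i ∧ i < x + 1 + m then 1 else 0)) with hcj
    have e1 : G * (S.P x (b x) m * (S.O (x + m) * S.I (b x + m))) =
        (G * S.P x (b x) m * S.O (x + m)) * S.I (b x + m) := by ring
    rw [e1]
    have hcjr : cj (b x + m) = E + m := by
      rcases Nat.eq_zero_or_pos m with h0 | h0
      · subst h0
        simp only [hcj, add_zero]
        rw [if_neg (by omega), if_neg (by omega), hc0]; rfl
      · simp only [hcj]
        have := hc1 (m - 1) (by omega)
        rw [show b x + 1 + (m - 1) = b x + m by omega] at this
        rw [if_pos (by omega), if_neg (by omega), this]; omega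
    have hcjr1 : cj (b x + m + 1) = E + m := by
      simp only [hcj]
      have := hc1 m (by omega)
      rw [show b x + 1 + m = b x + m + 1 by omega] at this
      rw [if_neg (by omega), if_neg (by omega), this]; omega
    refine S.rule_x (b x + m) (by omega) cj (by rw [hcjr, hcjr1]) (by rw [hcjr]; omega) ?_ _ ?_
    · intro i hi
      simp only [hcj]
      by_cases hix : i < b x
      · rw [if_neg (by omega), hcb i hix]
        by_cases hiu : x + 1 ≤ i ∧ i < x + 1 + m
        · rw [if_pos hiu]
          have := hcons (i - x) (by omega)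
          rw [show x + (i - x) = i by omega] at this
          omega
        · rw [if_neg hiu]
          rcases Nat.lt_or_ge i (x + 1) with h | h
          · rcases Nat.lt_or_ge i x with h' | h'
            · have := mono_lt hmono i x h' (by omega); omega
            · have : i = x := by omega
              subst this; omega
          · have h1 := hcorner (by omega)
            have h2 := mono_add hmono (x + m + 1) (i - (x + m + 1)) (by omega)
            rw [show x + m + 1 + (i - (x + m + 1)) = i by omega] at h2
            omega
      · by_cases hix' : i = b x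
        · subst hix'
          rw [if_neg (by omega), if_neg (by omega), hc0]; omega
        · have := hc1 (i - b x - 1) (by omega)
          rw [show b x + 1 + (i - b x - 1) = i by omega] at this
          rw [if_pos (by omega), if_neg (by omega), this]; omega
    · rw [map_mul, map_mul, hG1 m (by omega), S.tau_P (b x + m) (by omega) x (b x) m
        (fun i hi => by omega), S.tau_o (b x + m) (b x + m + 1) (x + m) (by omega) (by omega)
        (by omega) (by omega)]
  | succ n hn ih =>
    intro hN E c hE hcb hc0 hc1
    set y := b^[n] x with hy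
    have hyz : b^[n + 1] x = b y := by rw [Function.iterate_succ_apply']
    rw [hyz] at hE hcb hc0 hc1
    have hfln := hfl n hn (by omega)
    rw [← hy, hyz] at hfln
    have hfln1 := hfl (n + 1) (by omega) hN
    rw [hyz] at hfln1
    have hGn1 := hG (n + 1) (by omega) hN
    rw [hyz] at hGn1
    have hl := (hfln1 (m + 1) le_rfl).1
    have hyx : b x ≤ y := hge n hn
    have hyl := (hfln 0 (by omega)).1
    have hdist : y + m + 2 ≤ b y :=
      dist_aux hmono x m hb (hcons m le_rfl) hcorner y hyx (by omega)
    have hcas := S.cascade b hmono (b y) (m + 1) E (y + 1) c (G * S.P x (b x) (m + 1)) (by omega)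
      (by omega) hcb hc0 (fun i hi => hc1 i (by omega))
      (fun i hi => by
        have := (hfln (1 + i) (by omega)).2
        rw [show y + 1 + i = y + (1 + i) by ring, this]; omega)
      (fun j hj => by
        rw [map_mul, hGn1 j (by omega),
          S.tau_P (b y + j) (by omega) x (b x) (m + 1) (fun i hi => by omega)])
      (m + 1) le_rfl
    rw [hcas]
    refine ih (by omega) (b y) _ hdist ?_ ?_ ?_
    · intro i hi
      rw [if_neg (by omega), if_neg (by omega), hcb i (by omega)]; rfl
    · rw [if_neg (by omega), if_neg (by omega), hcb y (by omega)]; rfl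
    · intro i hi
      have h1 := (hfln (1 + i) (by omega)).2
      have h2 : c (y + 1 + i) = b (y + 1 + i) := hcb _ (by omega)
      rw [show y + (1 + i) = y + 1 + i by ring] at h1
      rw [if_neg (by omega), if_pos (by omega), h2, h1]; omega

end Sys

end Pool.Agent.H68.KB
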