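import Pool.Agent.H68.KB.Defs

set_option autoImplicit false

open Finset

namespace Pool.Agent.H68.KB

variable {A M : Type} [CommRing A] [AddCommGroup M]

namespace Sys

variable (S : Sys A M)

lemma IO (i : ℕ) : S.I i * S.O i = 1 := by rw [mul_comm]; exact S.OI i

lemma I_ge (i : ℕ) (h : S.l ≤ i) : S.I i = 1 := by
  have h1 := S.OI i
  rwa [S.O_ge i h, one_mul] at h1

/-- `tau` on the inverses -/
lemma tau_inv (f : A →+* A) (i j : ℕ) (h : f (S.O i) = S.O j) : f (S.I i) = S.I j := by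
  have h1 : f (S.I i) * S.O j = 1 := by rw [← h, ← map_mul, S.IO, map_one]
  calc f (S.I i) = f (S.I i) * (S.O j * S.I j) := by rw [S.OI, mul_one]
    _ = (f (S.I i) * S.O j) * S.I j := by ring
    _ = S.I j := by rw [h1, one_mul]

lemma tau_Il (i j : ℕ) (hi : i < S.l) (hj : j < S.l) : S.tau i j (S.I i) = S.I j :=
  S.tau_inv _ _ _ (S.tau_l i j hi hj)

lemma tau_Ir (i j : ℕ) (hi : i < S.l) (hj : j < S.l) : S.tau i j (S.I j) = S.I i :=
  S.tau_inv _ _ _ (S.tau_r i j hi hj)

lemma tau_Io (i j k : ℕ) (hi : i < S.l) (hj : j < S.l) (h1 : k ≠ i) (h2 : k ≠ j) :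
    S.tau i j (S.I k) = S.I k :=
  S.tau_inv _ _ _ (S.tau_o i j k hi hj h1 h2)

/-- `tau i j` permutes the `O k` by the transposition `(i j)` -/
lemma tau_O_swap (i j k : ℕ) (hi : i < S.l) (hj : j < S.l) :
    S.tau i j (S.O k) = S.O (Equiv.swap i j k) := by
  rcases eq_or_ne k i with h | h
  · subst h; rw [Equiv.swap_apply_left]; exact S.tau_l _ _ hi hj
  rcases eq_or_ne k j with h' | h'
  · subst h'; rw [Equiv.swap_apply_right]; exact S.tau_r _ _ hi hj
  rw [Equiv.swap_apply_of_ne_of_ne h h']; exact S.tau_o _ _ _ hi hj h h'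

lemma tau_I_swap (i j k : ℕ) (hi : i < S.l) (hj : j < S.l) :
    S.tau i j (S.I k) = S.I (Equiv.swap i j k) :=
  S.tau_inv _ _ _ (S.tau_O_swap i j k hi hj)

/-- antisymmetry kills -/
lemma Phi_anti (i j : ℕ) (hi : i < S.l) (hj : j < S.l) (f : A) (h : S.tau i j f = -f) :
    S.Phi f = 0 := by
  apply S.two
  have h1 := S.Phi_tau i j hi hj f
  rw [h, map_neg] at h1
  nth_rewrite 1 [← h1]
  simp

/-- a row product is symmetric if the window contains both or none of `r, r+1` -/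
lemma tau_row (r i : ℕ) (hr : r + 1 < S.l) (h1 : i ≠ r) (h2 : i ≠ r + 1) (w : Finset ℕ)
    (hw : r ∈ w ↔ r + 1 ∈ w) :
    S.tau r (r + 1) (∏ q ∈ w, (1 - S.O i * S.I q)) = ∏ q ∈ w, (1 - S.O i * S.I q) := by
  rw [map_prod]
  refine Finset.prod_equiv (Equiv.swap r (r + 1)) ?_ ?_
  · intro q
    rcases eq_or_ne q r with h | h
    · subst h; rw [Equiv.swap_apply_left]; exact hw
    rcases eq_or_ne q (r + 1) with h' | h'
    · subst h'; rw [Equiv.swap_apply_right]; exact hw.symm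
    rw [Equiv.swap_apply_of_ne_of_ne h h']
  · intro q _
    rw [map_sub, map_one, map_mul, S.tau_o r (r + 1) i (by omega) hr h1 h2,
      S.tau_I_swap r (r + 1) q (by omega) hr]

/-- the wall rule for general windows -/
lemma wallg (r : ℕ) (hr : r + 1 < S.l) (win : ℕ → Finset ℕ) (X : Finset ℕ)
    (h1 : win r = insert (r + 1) X) (h2 : win (r + 1) = X) (hX1 : r ∉ X) (hX2 : r + 1 ∉ X)
    (hw : ∀ i, i < S.l → i ≠ r → i ≠ r + 1 → (r ∈ win i ↔ r + 1 ∈ win i))
    (f : A) (hf : S.tau r (r + 1) (f * S.I (r + 1)) = f * S.I (r + 1)) :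
    S.Phi (f * S.Wg win) = 0 := by
  set Z : A := (∏ i ∈ (range S.l).erase r |>.erase (r + 1), ∏ q ∈ win i, (1 - S.O i * S.I q)) with hZ
  set Y : A := (∏ q ∈ X, (1 - S.O r * S.I q)) * (∏ q ∈ X, (1 - S.O (r + 1) * S.I q)) with hY
  have hWg : S.Wg win = (1 - S.O r * S.I (r + 1)) * Y * Z := by
    unfold Sys.Wg
    rw [← Finset.mul_prod_erase (range S.l) _ (mem_range.2 (by omega : r < S.l)),
      ← Finset.mul_prod_erase ((range S.l).erase r) _
        (mem_erase.2 ⟨by omega, mem_range.2 hr⟩ : r + 1 ∈ (range S.l).erase r),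
      h1, h2, Finset.prod_insert hX2]
    rw [hY, hZ]; ring
  have hYt : S.tau r (r + 1) Y = Y := by
    rw [hY, map_mul, map_prod, map_prod, mul_comm]
    congr 1
    · refine Finset.prod_congr rfl fun q hq => ?_
      rw [map_sub, map_one, map_mul, S.tau_r r (r + 1) (by omega) hr, S.tau_Io r (r + 1) q (by omega) hr
        (fun h => hX1 (h ▸ hq)) (fun h => hX2 (h ▸ hq))]
    · refine Finset.prod_congr rfl fun q hq => ?_
      rw [map_sub, map_one, map_mul, S.tau_l r (r + 1) (by omega) hr, S.tau_Io r (r + 1) q (by omega) hr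
        (fun h => hX1 (h ▸ hq)) (fun h => hX2 (h ▸ hq))]
  have hZt : S.tau r (r + 1) Z = Z := by
    rw [hZ, map_prod]
    refine Finset.prod_congr rfl fun i hi => ?_
    rw [mem_erase, mem_erase, mem_range] at hi
    exact S.tau_row r i hr hi.2.1 hi.1 _ (hw i hi.2.2 hi.2.1 hi.1)
  apply S.Phi_anti r (r + 1) (by omega) hr
  have e1 : f * S.Wg win = (S.O (r + 1) - S.O r) * ((f * S.I (r + 1)) * Y * Z) := by
    rw [hWg]
    have := S.OI (r + 1)
    linear_combination (- f * Y * Z) * this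
  rw [e1, map_mul, map_mul, map_mul, hf, hYt, hZt, map_sub, S.tau_r r (r + 1) (by omega) hr,
    S.tau_l r (r + 1) (by omega) hr]
  ring

lemma W_eq_Wg (b : ℕ → ℕ) : S.W b = S.Wg (fun i => Ico (i + 1) (b i)) := rfl

lemma W_congr (b c : ℕ → ℕ) (h : ∀ i, i < S.l → b i = c i) : S.W b = S.W c := by
  unfold Sys.W
  refine Finset.prod_congr rfl fun i hi => ?_
  rw [h i (mem_range.1 hi)]

/-- lowering row `i` multiplies by `1 - O_i / O_{b i}` -/
lemma W_up (i : ℕ) (hi : i < S.l) (c c' : ℕ → ℕ) (h : ∀ k, k < S.l → k ≠ i → c' k = c k)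
    (h' : c' i = c i + 1) (hlt : i < c i) : S.W c' = (1 - S.O i * S.I (c i)) * S.W c := by
  unfold Sys.W
  rw [← Finset.mul_prod_erase (range S.l) _ (mem_range.2 hi),
    ← Finset.mul_prod_erase (range S.l) _ (mem_range.2 hi), h', Finset.prod_Ico_succ_top (by omega)]
  have : ∏ x ∈ (range S.l).erase i, ∏ q ∈ Ico (x + 1) (c' x), (1 - S.O x * S.I q)
      = ∏ x ∈ (range S.l).erase i, ∏ q ∈ Ico (x + 1) (c x), (1 - S.O x * S.I q) := by
    refine Finset.prod_congr rfl fun k hk => ?_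
    rw [mem_erase, mem_range] at hk
    rw [h k hk.2 hk.1]
  rw [this]; ring

lemma W_up1 (i : ℕ) (hi : i < S.l) (b : ℕ → ℕ) (hlt : i < b i) :
    S.W (up1 b i) = (1 - S.O i * S.I (b i)) * S.W b :=
  S.W_up i hi b (up1 b i) (fun k _ hk => by simp [up1, hk]) (by simp [up1]) hlt

/-- the wall rule for bounce functions -/
lemma wall (r : ℕ) (hr : r + 1 < S.l) (c : ℕ → ℕ) (hc : c (r + 1) = c r) (h2 : r + 2 ≤ c r)
    (hn : ∀ i, i < r → c i ≠ r + 1) (f : A)
    (hf : S.tau r (r + 1) (f * S.I (r + 1)) = f * S.I (r + 1)) :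
    S.Phi (f * S.W c) = 0 := by
  rw [S.W_eq_Wg]
  refine S.wallg r hr _ (Ico (r + 2) (c r)) ?_ ?_ ?_ ?_ ?_ f hf
  · ext q; simp only [mem_Ico, mem_insert]; omega
  · rw [hc]
  · simp
  · simp
  · intro i _ h1 h2'
    simp only [mem_Ico]
    by_cases hir : i < r
    · have := hn i hir; omega
    · omega

/-- rule (chain): the row `a` ends between `r` and `r+1` -/
lemma rule_chain (r a : ℕ) (hr : r + 1 < S.l) (ha : a < r) (c c' : ℕ → ℕ) (hc : c (r + 1) = c r)
    (h2 : r + 2 ≤ c r) (hca : c a = r + 1) (hn : ∀ i, i < r → i ≠ a → c i ≠ r + 1)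
    (h' : ∀ k, k < S.l → k ≠ a → k ≠ r + 1 → c' k = c k) (h'a : c' a = r)
    (h'r : c' (r + 1) = c (r + 1) + 1) (G : A) (hG : S.tau r (r + 1) G = G) :
    S.Phi (G * (S.O (r + 1) * S.I (c r)) * S.W c) = S.Phi (G * (S.O a * S.I r) * S.W c') := by
  -- base function: `a` raised
  set c0 : ℕ → ℕ := fun k => if k = a then r else c k with hc0
  have e0a : c0 a = r := by simp [hc0]
  have e0 : ∀ k, k ≠ a → c0 k = c k := fun k hk => by simp [hc0, hk]
  have e1 : S.W c = (1 - S.O a * S.I r) * S.W c0 := by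
    have := S.W_up a (by omega) c0 c (fun k _ hk => (e0 k hk).symm) (by rw [hca, e0a]) (by rw [e0a]; exact ha)
    rwa [e0a] at this
  have e2 : S.W c' = (1 - S.O (r + 1) * S.I (c r)) * S.W c0 := by
    have := S.W_up (r + 1) hr c0 c' (fun k hk hk' => by
      by_cases hka : k = a
      · subst hka; rw [h'a, e0a]
      · rw [h' k hk hka hk', e0 k hka]) (by rw [h'r, e0 (r + 1) (by omega)])
      (by rw [e0 (r + 1) (by omega), hc]; omega)
    rwa [e0 (r + 1) (by omega), hc] at this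
  rw [← sub_eq_zero, ← map_sub, e1, e2]
  have key := S.wall r hr c0 (by rw [e0 _ (by omega), e0 _ (by omega), hc])
    (by rw [e0 _ (by omega)]; exact h2)
    (fun i hi => by
      by_cases hia : i = a
      · subst hia; rw [e0a]; omega
      · rw [e0 i hia]; exact hn i hi hia)
    (G * (S.O (r + 1) * S.I (c r) - S.O a * S.I r))
    (by
      have ho := S.OI (r + 1)
      have e : G * (S.O (r + 1) * S.I (c r) - S.O a * S.I r) * S.I (r + 1)
          = G * (S.I (c r) - S.O a * (S.I r * S.I (r + 1))) := by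
        linear_combination (G * S.I (c r)) * ho
      rw [e, map_mul, hG, map_sub, map_mul, map_mul, S.tau_Il r (r + 1) (by omega) hr,
        S.tau_Ir r (r + 1) (by omega) hr, S.tau_o r (r + 1) a (by omega) hr (by omega) (by omega),
        S.tau_Io r (r + 1) (c r) (by omega) hr (by omega) (by omega)]
      ring)
  rw [← key]
  congr 1
  ring

/-- rule (kill step): the row `a` ends between `r` and `r+1` -/
lemma rule_AQ (r a : ℕ) (hr : r + 1 < S.l) (ha : a < r) (c c' : ℕ → ℕ) (hc : c (r + 1) = c r)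
    (h2 : r + 2 ≤ c r) (hca : c a = r + 1) (hn : ∀ i, i < r → i ≠ a → c i ≠ r + 1)
    (h' : ∀ k, k < S.l → k ≠ a → k ≠ r + 1 → c' k = c k) (h'a : c' a = r)
    (h'r : c' (r + 1) = c (r + 1) + 1) (G : A) (hG : S.tau r (r + 1) G = G) :
    S.Phi (G * S.W c) = S.Phi (G * S.W c') := by
  set c0 : ℕ → ℕ := fun k => if k = a then r else c k with hc0
  have e0a : c0 a = r := by simp [hc0]
  have e0 : ∀ k, k ≠ a → c0 k = c k := fun k hk => by simp [hc0, hk]
  have e1 : S.W c = (1 - S.O a * S.I r) * S.W c0 := by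
    have := S.W_up a (by omega) c0 c (fun k _ hk => (e0 k hk).symm) (by rw [hca, e0a]) (by rw [e0a]; exact ha)
    rwa [e0a] at this
  have e2 : S.W c' = (1 - S.O (r + 1) * S.I (c r)) * S.W c0 := by
    have := S.W_up (r + 1) hr c0 c' (fun k hk hk' => by
      by_cases hka : k = a
      · subst hka; rw [h'a, e0a]
      · rw [h' k hk hka hk', e0 k hka]) (by rw [h'r, e0 (r + 1) (by omega)])
      (by rw [e0 (r + 1) (by omega), hc]; omega)
    rwa [e0 (r + 1) (by omega), hc] at this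
  rw [← sub_eq_zero, ← map_sub, e1, e2]
  have key := S.wall r hr c0 (by rw [e0 _ (by omega), e0 _ (by omega), hc])
    (by rw [e0 _ (by omega)]; exact h2)
    (fun i hi => by
      by_cases hia : i = a
      · subst hia; rw [e0a]; omega
      · rw [e0 i hia]; exact hn i hi hia)
    (G * (S.O (r + 1) * S.I (c r) - S.O a * S.I r))
    (by
      have ho := S.OI (r + 1)
      have e : G * (S.O (r + 1) * S.I (c r) - S.O a * S.I r) * S.I (r + 1)
          = G * (S.I (c r) - S.O a * (S.I r * S.I (r + 1))) := by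
        linear_combination (G * S.I (c r)) * ho
      rw [e, map_mul, hG, map_sub, map_mul, map_mul, S.tau_Il r (r + 1) (by omega) hr,
        S.tau_Ir r (r + 1) (by omega) hr, S.tau_o r (r + 1) a (by omega) hr (by omega) (by omega),
        S.tau_Io r (r + 1) (c r) (by omega) hr (by omega) (by omega)]
      ring)
  rw [← key]
  congr 1
  ring

/-- rule (zero, chain): no row ends between `r` and `r+1`, factor `O_{r+1}` -/
lemma rule_y (r : ℕ) (hr : r + 1 < S.l) (c : ℕ → ℕ) (hc : c (r + 1) = c r)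
    (h2 : r + 2 ≤ c r) (hn : ∀ i, i < r → c i ≠ r + 1) (G : A) (hG : S.tau r (r + 1) G = G) :
    S.Phi (G * S.O (r + 1) * S.W c) = 0 := by
  refine S.wall r hr c hc h2 hn _ ?_
  have ho := S.OI (r + 1)
  have e : G * S.O (r + 1) * S.I (r + 1) = G := by linear_combination G * ho
  rw [e, hG]

/-- rule (zero, kill): no row ends between `r` and `r+1`, factor `1 / O_r` -/
lemma rule_x (r : ℕ) (hr : r + 1 < S.l) (c : ℕ → ℕ) (hc : c (r + 1) = c r)
    (h2 : r + 2 ≤ c r) (hn : ∀ i, i < r → c i ≠ r + 1) (G : A) (hG : S.tau r (r + 1) G = G) :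
    S.Phi (G * S.I r * S.W c) = 0 := by
  refine S.wall r hr c hc h2 hn _ ?_
  rw [map_mul, map_mul, hG, S.tau_Il r (r + 1) (by omega) hr, S.tau_Ir r (r + 1) (by omega) hr]
  ring

/-- tokens are symmetric -/
lemma tau_LL (r : ℕ) (hr : r + 1 < S.l) (J : Finset ℕ) (hJ : r ∈ J ↔ r + 1 ∈ J) :
    S.tau r (r + 1) (S.LL J) = S.LL J := by
  unfold Sys.LL Sys.L
  rw [map_prod]
  refine Finset.prod_equiv (Equiv.swap r (r + 1)) ?_ ?_
  · intro q
    rcases eq_or_ne q r with h | h
    · subst h; rw [Equiv.swap_apply_left]; exact hJ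
    rcases eq_or_ne q (r + 1) with h' | h'
    · subst h'; rw [Equiv.swap_apply_right]; exact hJ.symm
    rw [Equiv.swap_apply_of_ne_of_ne h h']
  · intro q _
    rw [map_sub, map_one, S.tau_O_swap r (r + 1) q (by omega) hr]

lemma L_ge (i : ℕ) (h : S.l ≤ i) : S.L i = 0 := by
  unfold Sys.L; rw [S.O_ge i h, sub_self]

end Sys

end Pool.Agent.H68.KB
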