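import Pool.Agent.H68.KB.Hop

set_option autoImplicit false

open Finset

namespace Pool.Agent.H68.KB

variable {A M : Type} [CommRing A] [AddCommGroup M]

lemma wt_up1 {l : ℕ} (b : ℕ → ℕ) (x : ℕ) (hx : x < l) : wt l (up1 b x) = wt l b + 1 := by
  unfold wt up1
  rw [Finset.sum_add_distrib]
  congr 1
  rw [Finset.sum_ite_eq' (range l) x, if_pos (mem_range.2 hx)]

lemma wt_cb {l : ℕ} (b : ℕ → ℕ) (hlt : ∀ i, i < b i) (x m u : ℕ) (hx : x + m < l) (hu : u + m ≤ x) :
    wt l (cb b x m u) = wt l b + 1 := by
  have h1 : wt l (cb b x m u) + (∑ i ∈ range l, if u ≤ i ∧ i < u + m then 1 else 0) =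
      wt l b + (∑ i ∈ range l, if x ≤ i ∧ i ≤ x + m then 1 else 0) := by
    unfold wt cb
    rw [← Finset.sum_add_distrib, ← Finset.sum_add_distrib]
    refine Finset.sum_congr rfl fun i _ => ?_
    have := hlt i
    split_ifs <;> omega
  have h2 : (∑ i ∈ range l, if u ≤ i ∧ i < u + m then 1 else 0) = m := by
    rw [← Finset.card_filter]
    have : (range l).filter (fun i => u ≤ i ∧ i < u + m) = Ico u (u + m) := by
      ext i; simp only [mem_filter, mem_range, mem_Ico]; omega
    rw [this]; simp
  have h3 : (∑ i ∈ range l, if x ≤ i ∧ i ≤ x + m then 1 else 0) = m + 1 := by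
    rw [← Finset.card_filter]
    have : (range l).filter (fun i => x ≤ i ∧ i ≤ x + m) = Ico x (x + m + 1) := by
      ext i; simp only [mem_filter, mem_range, mem_Ico]; omega
    rw [this, Nat.card_Ico]; omega
  omega

namespace Sys

variable (S : Sys A M)

/-- the signed value of a state lies in the cone -/
def Good (t : ℕ) (J : Finset ℕ) (p m : ℕ) (b : ℕ → ℕ) : Prop :=
  ((-1 : ℤ) ^ (wt S.l b + J.card)) • S.Phi (S.E t J p m b) ∈ S.cone t

lemma LL_erase (x : ℕ) (J : Finset ℕ) (h : x ∈ J) : S.LL J = S.L x * S.LL (J.erase x) := by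
  unfold Sys.LL; rw [Finset.mul_prod_erase J _ h]

/-- chain, in terms of states -/
lemma chain_state {t β : ℕ} {J : Finset ℕ} {x m : ℕ} {b : ℕ → ℕ} (h : Pre S.l t β J x m b)
    (hm : 0 < m) :
    S.Phi (S.LL (range t) * S.LL (J.erase x) * S.P (x + 1) (b x + 1) m * S.W (up1 b x)) = 0 ∨
    ∃ u, u + m ≤ x ∧ St S.l t β (J.erase x) u m (cb b x m u) ∧
      S.Phi (S.LL (range t) * S.LL (J.erase x) * S.P (x + 1) (b x + 1) m * S.W (up1 b x)) =
      S.Phi (S.E t (J.erase x) u m (cb b x m u)) := by
  have hb := h.hb
  rcases S.chain b h.lt h.mono x m hm h.xl h.cons (by omega)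
    (S.LL (range t) * S.LL (J.erase x)) (by
      intro n r i hi hr h1 h2
      have := h.sym n r i hi h1 h2
      rw [map_mul, S.tau_LL r hr _ this.1, S.tau_LL r hr _ this.2]) with h1 | ⟨u, hu, h1⟩
  · left; exact h1
  · right
    have hle := Up_le hu
    refine ⟨u, hle, h.up hm hu, ?_⟩
    rw [h1]
    unfold Sys.E
    have : cb b x m u u = b u - 1 := by
      simp only [cb]; rw [if_neg (by omega), if_pos (by omega)]; rfl
    rw [this]

/-- the main induction -/
theorem good_of_St (t β : ℕ) :
    ∀ (N : ℕ) (m : ℕ) (J : Finset ℕ) (p : ℕ) (b : ℕ → ℕ), (∑ j ∈ J, (S.l - j)) = N →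
      St S.l t β J p m b → S.Good t J p m b := by
  intro N
  induction N using Nat.strong_induction_on with
  | _ N ihN =>
  intro m
  induction m using Nat.strong_induction_on with
  | _ m ihm =>
  intro J p b hN h
  have hsum : ∀ x, x ∈ J → (∑ j ∈ J.erase x, (S.l - j)) + (S.l - x) = ∑ j ∈ J, (S.l - j) := by
    intro x hx
    rw [add_comm]; exact Finset.add_sum_erase J (fun j => S.l - j) hx
  have hcard : ∀ x, x ∈ J → (J.erase x).card + 1 = J.card := fun x hx => Finset.card_erase_add_one hx
  have hneg : ∀ (k : ℕ) (v : M), ((-1 : ℤ) ^ (k + 1)) • v = - (((-1 : ℤ) ^ k) • v) := by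
    intro k v; rw [pow_succ]; simp
  -- the hop part, common to two cases
  have hophop : ∀ x m', x ∈ J → Pre S.l t β J x m' b →
      ((-1 : ℤ) ^ (wt S.l b + J.card)) •
        S.Phi (S.LL (range t) * S.LL (J.erase x) * S.L (b x) * S.P x (b x) (m' + 1) * S.W b)
        ∈ S.cone t := by
    intro x m' hx hpre
    rcases S.hop hpre hx with h1 | ⟨z, hz1, hz2, hz3, hz4, h1⟩
    · rw [h1, smul_zero]; exact zero_mem _
    · rw [h1]
      have hg := ihN (∑ j ∈ insert z (J.erase x), (S.l - j)) (by
        rw [Finset.sum_insert hz3]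
        have := hsum x hx
        omega) (m' + 1) (insert z (J.erase x)) x b rfl hz4
      unfold Sys.Good at hg
      rw [Finset.card_insert_of_notMem hz3, hcard x hx] at hg
      exact hg
  rcases Nat.eq_zero_or_pos m with hm0 | hm0
  · subst hm0
    rcases J.eq_empty_or_nonempty with hJ | hJ
    · -- terminal state
      subst hJ
      unfold Sys.Good
      apply AddSubmonoid.subset_closure
      refine ⟨b, ⟨h.lt, h.mono, fun h0 => ?_⟩, ?_⟩
      · obtain ⟨h1, h2, _⟩ := h.T h0
        omega
      · unfold Sys.E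
        rw [P_zero]
        simp [Sys.LL]
    · -- last token
      set x := J.max' hJ with hxdef
      have hx : x ∈ J := J.max'_mem hJ
      have hxl := (h.J_lt x hx).2
      have hpre := h.pre0 x hx (fun j hj => J.le_max' j hj)
      have h1 := hophop x 0 hx hpre
      have h2 := ihN (∑ j ∈ J.erase x, (S.l - j)) (by have := hsum x hx; omega) 0 (J.erase x) 0
        (up1 b x) rfl hpre.low
      unfold Sys.Good at h2 ⊢
      have hid : S.E t J p 0 b = S.E t (J.erase x) 0 0 (up1 b x) +
          S.LL (range t) * S.LL (J.erase x) * S.L (b x) * S.P x (b x) (0 + 1) * S.W b := by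
        unfold Sys.E
        rw [P_zero, P_zero, P_succ, P_zero, S.LL_erase x J hx, S.W_up1 x hxl b (h.lt x)]
        unfold Sys.L
        have hOI := S.OI (b x)
        simp only [add_zero]
        linear_combination (S.LL (range t) * S.LL (J.erase x) * S.O x * S.W b) * hOI
      rw [hid, map_add, smul_add]
      refine add_mem ?_ h1
      rw [wt_up1 b x hxl, show wt S.l b + 1 + (J.erase x).card = wt S.l b + ((J.erase x).card + 1) by ring,
        hcard x hx] at h2
      exact h2
  · by_cases hcase : 1 ≤ p ∧ p - 1 ∈ J ∧ b p = b (p - 1) + 1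
    · -- the token directly above
      obtain ⟨hp1, hxJ, hbp⟩ := hcase
      obtain ⟨x, rfl⟩ : ∃ x, p = x + 1 := ⟨p - 1, by omega⟩
      rw [show x + 1 - 1 = x by omega] at hxJ hbp
      have hxl := (h.J_lt x hxJ).2
      have hpre := h.preS hm0 hxJ hbp
      have h1 := hophop x m hxJ hpre
      have hid : S.E t J (x + 1) m b =
          S.LL (range t) * S.LL (J.erase x) * S.P (x + 1) (b x + 1) m * S.W (up1 b x) +
          S.LL (range t) * S.LL (J.erase x) * S.L (b x) * S.P x (b x) (m + 1) * S.W b := by
        unfold Sys.E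
        rw [P_succ', hbp, S.LL_erase x J hxJ, S.W_up1 x hxl b (h.lt x)]
        unfold Sys.L
        have hOI := S.OI (b x)
        linear_combination (S.LL (range t) * S.LL (J.erase x) * S.O x * S.P (x + 1) (b x + 1) m * S.W b) * hOI
      unfold Sys.Good
      rw [hid, map_add, smul_add]
      refine add_mem ?_ h1
      rcases S.chain_state hpre hm0 with h2 | ⟨u, hu, hst, h2⟩
      · rw [h2, smul_zero]; exact zero_mem _
      · rw [h2]
        have hg := ihN (∑ j ∈ J.erase x, (S.l - j)) (by have := hsum x hxJ; omega) m (J.erase x) u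
          (cb b x m u) rfl hst
        unfold Sys.Good at hg
        rw [wt_cb b h.lt x m u hpre.xl hu,
          show wt S.l b + 1 + (J.erase x).card = wt S.l b + ((J.erase x).card + 1) by ring,
          hcard x hxJ] at hg
        exact hg
    · -- expansion
      obtain ⟨m', rfl⟩ : ∃ m', m = m' + 1 := ⟨m - 1, by omega⟩
      have hpl : p < S.l := by have := h.R_le (by omega); omega
      have hpJ : p ∉ J := by have := h.notR 0 (by omega); simpa using this
      have hJe : J.erase p = J := Finset.erase_eq_of_notMem hpJ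
      have hpre := h.preE
      have h1 := ihm m' (by omega) J (p + 1) b hN (h.drop hcase)
      have hid : S.E t J p (m' + 1) b = S.E t J (p + 1) m' b -
          S.LL (range t) * S.LL (J.erase p) * S.P (p + 1) (b p + 1) m' * S.W (up1 b p) := by
        unfold Sys.E
        have hPP : S.P (p + 1) (b (p + 1)) m' = S.P (p + 1) (b p + 1) m' := by
          rcases Nat.eq_zero_or_pos m' with h0 | h0
          · subst h0; rw [P_zero, P_zero]
          · rw [h.R_cons 1 (by omega)]
        rw [hPP, hJe, P_succ', S.W_up1 p hpl b (h.lt p)]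
        ring
      unfold Sys.Good at h1 ⊢
      rw [hid, map_sub, smul_sub, sub_eq_add_neg, ← hneg]
      refine add_mem h1 ?_
      rcases Nat.eq_zero_or_pos m' with h0 | h0
      · subst h0
        have h2 := ihm 0 (by omega) (J.erase p) 0 (up1 b p) (by rw [hJe]; exact hN) hpre.low
        unfold Sys.Good Sys.E at h2
        rw [P_zero] at h2 ⊢
        rw [wt_up1 b p hpl, hJe] at h2
        rw [hJe, show wt S.l b + J.card + 1 = wt S.l b + 1 + J.card by ring]
        exact h2
      · rcases S.chain_state hpre h0 with h2 | ⟨u, hu, hst, h2⟩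
        · rw [h2, smul_zero]; exact zero_mem _
        · rw [h2]
          have hg := ihm m' (by omega) (J.erase p) u (cb b p m' u) (by rw [hJe]; exact hN) hst
          unfold Sys.Good at hg
          rw [wt_cb b h.lt p m' u hpre.xl hu, hJe] at hg
          rw [hJe, show wt S.l b + J.card + 1 = wt S.l b + 1 + J.card by ring]
          exact hg

/-- tokens on the rows `s, …, i-1` of a block and on all rows above (hybrid functions) -/
theorem P2 (s i : ℕ) (b : ℕ → ℕ) (hsi : s < i) (hil : i ≤ S.l) (hlt : ∀ i, i < b i)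
    (hmono : ∀ i, i + 1 < S.l → b i < b (i + 1)) (hcons : ∀ j, s ≤ j → j < i → b j = b s + (j - s))
    (htop : 0 < s → b (s - 1) + 2 ≤ b s) (hbs : i + 1 ≤ b s)
    (hcorner : i < S.l → b (i - 1) + 1 < b i) :
    ((-1 : ℤ) ^ (wt S.l b + (i - s))) • S.Phi (S.LL (range i) * S.W b) ∈ S.cone s := by
  have hiter : ∀ y, i ≤ y → ∀ n, i ≤ b^[n] y := fun y hy n => by
    have := iter_lt hlt y n; omega
  have hbge : ∀ j, s ≤ j → j < i → i + 1 ≤ b j := by
    intro j h1 h2; rw [hcons j h1 h2]; omega
  have hst : St S.l s (b s) (Ico s i) 0 0 b := by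
    constructor
    · exact hlt
    · exact hmono
    · intro j hj; rw [mem_Ico] at hj; omega
    · intro j hj n hn
      rw [mem_Ico] at hj hn
      have := hiter (b j) (by have := hbge j hj.1 hj.2; omega) n
      omega
    · intro j hj hjl hjc
      rw [mem_Ico] at hj
      left
      rw [mem_Ico]
      refine ⟨by omega, ?_⟩
      by_contra hcon
      have hji : i = j + 1 := by omega
      subst hji
      have := hcorner hjl
      rw [Nat.add_sub_cancel] at this
      omega
    · intro h0; omega
    · intro i hi; omega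
    · intro h0; omega
    · intro h0; omega
    · intro i hi; omega
    · intro h0
      refine ⟨?_, le_rfl, ?_⟩
      · rw [if_neg (by omega)]; have := htop h0; omega
      · intro n hn
        rw [mem_Ico] at hn
        have := hiter (b s - 1) (by omega) n
        omega
  have := S.good_of_St s (b s) _ 0 (Ico s i) 0 b rfl hst
  unfold Sys.Good Sys.E at this
  rw [P_zero, mul_one, Nat.card_Ico] at this
  have e : S.LL (range s) * S.LL (Ico s i) = S.LL (range i) := by
    unfold Sys.LL
    rw [Finset.range_eq_Ico, Finset.range_eq_Ico, Finset.prod_Ico_consecutive _ (by omega) (by omega)]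
  rwa [e] at this

/-- tokens on a full rectangle at the bottom of a block, no other tokens -/
theorem P1 (s d : ℕ) (b : ℕ → ℕ) (hd : 0 < d) (hsd : s + d ≤ S.l) (hlt : ∀ i, i < b i)
    (hmono : ∀ i, i + 1 < S.l → b i < b (i + 1)) (hcons : ∀ j, j < d → b (s + j) = s + d + j)
    (hcorner : s + d < S.l → s + d + d < b (s + d)) :
    ((-1 : ℤ) ^ (wt S.l b + d)) • S.Phi (S.LL (Ico s (s + d)) * S.W b) ∈ S.cone 0 := by
  have hiter : ∀ y, s + d ≤ y → ∀ n, s + d ≤ b^[n] y := fun y hy n => by
    have := iter_lt hlt y n; omega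
  have hst : St S.l 0 0 (Ico s (s + d)) 0 0 b := by
    constructor
    · exact hlt
    · exact hmono
    · intro j hj; rw [mem_Ico] at hj; omega
    · intro j hj n hn
      rw [mem_Ico] at hj hn
      have h1 := hcons (j - s) (by omega)
      rw [show s + (j - s) = j by omega] at h1
      have := hiter (b j) (by omega) n
      omega
    · intro j hj hjl hjc
      rw [mem_Ico] at hj
      left
      rw [mem_Ico]
      refine ⟨by omega, ?_⟩
      by_contra hcon
      have hji : s + d = j + 1 := by omega
      have h1 := hcorner (by omega)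
      have h2 := hcons (d - 1) (by omega)
      rw [show s + (d - 1) = j by omega] at h2
      rw [hji] at h1
      omega
    · intro h0; omega
    · intro i hi; omega
    · intro h0; omega
    · intro h0; omega
    · intro i hi; omega
    · intro h0; omega
  have := S.good_of_St 0 0 _ 0 (Ico s (s + d)) 0 b rfl hst
  unfold Sys.Good Sys.E at this
  rw [P_zero, mul_one, Nat.card_Ico] at this
  have e : S.LL (range 0) * S.LL (Ico s (s + d)) = S.LL (Ico s (s + d)) := by
    unfold Sys.LL; simp
  rwa [e, show s + d - s = d by omega] at this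

end Sys

end Pool.Agent.H68.KB
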