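import Pool.Agent.H68.KB.Factor
import Pool.Agent.H68.KB.Main

set_option autoImplicit false

open Finset

namespace Pool.Agent.H68.KB

variable {A M : Type} [CommRing A] [AddCommGroup M]

namespace Sys

/-- the system of the rows outside `s, …, s+d-1`; the functional is multiplied by `F₀` -/
def delS (S : Sys A M) (s d : ℕ) (hsd : s + d ≤ S.l) (F₀ : A)
    (hF₀ : ∀ i j, i < S.l - d → j < S.l - d → S.tau (skip s d i) (skip s d j) F₀ = F₀) : Sys A M where
  l := S.l - d
  O := fun i => S.O (skip s d i)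
  I := fun i => S.I (skip s d i)
  OI := fun i => S.OI _
  O_ge := fun i hi => S.O_ge _ (by unfold skip; split_ifs <;> omega)
  tau := fun i j => S.tau (skip s d i) (skip s d j)
  tau_l := fun i j hi hj => S.tau_l _ _ (by unfold skip; split_ifs <;> omega)
    (by unfold skip; split_ifs <;> omega)
  tau_r := fun i j hi hj => S.tau_r _ _ (by unfold skip; split_ifs <;> omega)
    (by unfold skip; split_ifs <;> omega)
  tau_o := fun i j k hi hj h1 h2 => S.tau_o _ _ _ (by unfold skip; split_ifs <;> omega)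
    (by unfold skip; split_ifs <;> omega) (by unfold skip; split_ifs <;> omega)
    (by unfold skip; split_ifs <;> omega)
  Phi := S.Phi.comp (AddMonoidHom.mulLeft F₀)
  Phi_tau := fun i j hi hj f => by
    show S.Phi (F₀ * S.tau _ _ f) = S.Phi (F₀ * f)
    have e : F₀ * S.tau (skip s d i) (skip s d j) f = S.tau (skip s d i) (skip s d j) (F₀ * f) := by
      rw [map_mul, hF₀ i j hi hj]
    rw [e]
    exact S.Phi_tau (skip s d i) (skip s d j) (by unfold skip; split_ifs <;> omega)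
      (by unfold skip; split_ifs <;> omega) (F₀ * f)
  two := S.two

/-- the system with permuted rows -/
def perm (S : Sys A M) (ρ : ℕ → ℕ) (h1 : ∀ i, i < S.l → ρ i < S.l) (h2 : ∀ i, S.l ≤ i → S.l ≤ ρ i)
    (h3 : ∀ i j, i < S.l → j < S.l → ρ i = ρ j → i = j) : Sys A M where
  l := S.l
  O := fun i => S.O (ρ i)
  I := fun i => S.I (ρ i)
  OI := fun i => S.OI _
  O_ge := fun i hi => S.O_ge _ (h2 i hi)
  tau := fun i j => S.tau (ρ i) (ρ j)
  tau_l := fun i j hi hj => S.tau_l _ _ (h1 i hi) (h1 j hj)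
  tau_r := fun i j hi hj => S.tau_r _ _ (h1 i hi) (h1 j hj)
  tau_o := fun i j k hi hj hk1 hk2 => by
    by_cases hk : k < S.l
    · exact S.tau_o _ _ _ (h1 i hi) (h1 j hj) (fun h => hk1 (h3 k i hk hi h))
        (fun h => hk2 (h3 k j hk hj h))
    · have := h2 k (by omega)
      have a1 := h1 i hi
      have a2 := h1 j hj
      exact S.tau_o _ _ _ (h1 i hi) (h1 j hj) (by omega) (by omega)
  Phi := S.Phi
  Phi_tau := fun i j hi hj f => S.Phi_tau _ _ (h1 i hi) (h1 j hj) f
  two := S.two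

/-- every permutation of the rows is induced by a ring endomorphism preserving `Phi` -/
lemma exists_perm (S : Sys A M) (σ : Equiv.Perm (Fin S.l)) :
    ∃ π : A →+* A, (∀ i : Fin S.l, π (S.O i) = S.O (σ i)) ∧ ∀ f, S.Phi (π f) = S.Phi f := by
  induction σ using Equiv.Perm.swap_induction_on with
  | one => exact ⟨RingHom.id A, fun i => rfl, fun f => rfl⟩
  | swap_mul f x y hxy ih =>
    obtain ⟨π, hπ1, hπ2⟩ := ih
    refine ⟨(S.tau x y).comp π, fun i => ?_, fun g => ?_⟩
    · rw [RingHom.comp_apply, hπ1, S.tau_O_swap _ _ _ x.2 y.2, Equiv.Perm.mul_apply]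
      congr 1
      rcases eq_or_ne (f i) x with h | h
      · rw [h, Equiv.swap_apply_left, Equiv.swap_apply_left]
      rcases eq_or_ne (f i) y with h' | h'
      · rw [h', Equiv.swap_apply_right, Equiv.swap_apply_right]
      rw [Equiv.swap_apply_of_ne_of_ne h h', Equiv.swap_apply_of_ne_of_ne]
      · exact fun hh => h (Fin.ext hh)
      · exact fun hh => h' (Fin.ext hh)
    · rw [RingHom.comp_apply, S.Phi_tau _ _ x.2 y.2, hπ2]

lemma perm_W (S : Sys A M) (ρ : ℕ → ℕ) (h1 : ∀ i, i < S.l → ρ i < S.l)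
    (h2 : ∀ i, S.l ≤ i → S.l ≤ ρ i) (h3 : ∀ i j, i < S.l → j < S.l → ρ i = ρ j → i = j)
    (b : ℕ → ℕ) : S.Phi ((S.perm ρ h1 h2 h3).W b) = S.Phi (S.W b) := by
  set σ : Equiv.Perm (Fin S.l) := Equiv.ofBijective (fun i : Fin S.l => (⟨ρ i, h1 i i.2⟩ : Fin S.l))
    (Finite.injective_iff_bijective.1 (fun i j hij => Fin.ext (h3 i j i.2 j.2 (by
      simpa using congrArg Fin.val hij)))) with hσ
  obtain ⟨π, hπ1, hπ2⟩ := S.exists_perm σ
  have hO : ∀ i, π (S.O i) = S.O (ρ i) := by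
    intro i
    by_cases hi : i < S.l
    · exact hπ1 ⟨i, hi⟩
    · rw [S.O_ge i (by omega), S.O_ge (ρ i) (h2 i (by omega)), map_one]
  have hI : ∀ i, π (S.I i) = S.I (ρ i) := fun i => S.tau_inv π i (ρ i) (hO i)
  rw [← hπ2 (S.W b)]
  congr 1
  unfold Sys.W
  rw [map_prod]
  refine Finset.prod_congr rfl fun i _ => ?_
  rw [map_prod]
  refine Finset.prod_congr rfl fun q _ => ?_
  rw [map_sub, map_one, map_mul, hO, hI]
  rfl

lemma LL_zero (S : Sys A M) : S.LL (range 0) = 1 := by unfold Sys.LL; simp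

lemma perm_cone (S : Sys A M) (ρ : ℕ → ℕ) (h1 : ∀ i, i < S.l → ρ i < S.l)
    (h2 : ∀ i, S.l ≤ i → S.l ≤ ρ i) (h3 : ∀ i j, i < S.l → j < S.l → ρ i = ρ j → i = j) :
    (S.perm ρ h1 h2 h3).cone 0 ≤ S.cone 0 := by
  apply AddSubmonoid.closure_mono
  rintro x ⟨b, hb, rfl⟩
  refine ⟨b, hb, ?_⟩
  rw [LL_zero, LL_zero, one_mul, one_mul]
  have := S.perm_W ρ h1 h2 h3 b
  show _ • S.Phi ((S.perm ρ h1 h2 h3).W b) = _
  rw [this]
  rfl

/-- signs act -/
lemma sign_closure {t t' : ℕ} (S S' : Sys A M) (e : ℕ)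
    (h : ∀ b, Valid S'.l t' b →
      ((-1 : ℤ) ^ (wt S'.l b + e)) • S'.Phi (S'.LL (range t') * S'.W b) ∈ S.cone t) :
    ∀ x ∈ S'.cone t', ((-1 : ℤ) ^ e) • x ∈ S.cone t := by
  intro x hx
  unfold Sys.cone at hx
  induction hx using AddSubmonoid.closure_induction with
  | mem x hx =>
    obtain ⟨b, hb, rfl⟩ := hx
    have := h b hb
    rw [pow_add, mul_comm, mul_smul] at this
    exact this
  | zero => rw [smul_zero]; exact zero_mem _
  | add x y _ _ hx hy => rw [smul_add]; exact add_mem hx hy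

end Sys

end Pool.Agent.H68.KB
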