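import Pool.Agent.H68.KB.Chain

set_option autoImplicit false

open Finset

namespace Pool.Agent.H68.KB

variable {A M : Type} [CommRing A] [AddCommGroup M]

namespace Sys

variable (S : Sys A M)

/-- the Vandermonde part of the rows `s, …, s+d-1` -/
def V (s d : ℕ) : A := ∏ j ∈ range d, ∏ q ∈ Ico (s + j + 1) (s + d), (1 - S.O (s + j) * S.I q)

/-- the stairs -/
def T (s d : ℕ) (c : ℕ → A) (h : ℕ → ℕ) : A :=
  ∏ j ∈ range d, ∏ i ∈ range (h j), (1 - S.O (s + j) * c i)

lemma V_eq (s d : ℕ) (hsd : s + d ≤ S.l) :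
    S.V s d = S.Wg (fun i => if s ≤ i ∧ i < s + d then Ico (i + 1) (s + d) else ∅) := by
  unfold Sys.Wg Sys.V
  have e1 : ∏ i ∈ range S.l, ∏ q ∈ (if s ≤ i ∧ i < s + d then Ico (i + 1) (s + d) else ∅),
      (1 - S.O i * S.I q) = ∏ i ∈ Ico s (s + d), ∏ q ∈ Ico (i + 1) (s + d), (1 - S.O i * S.I q) := by
    have hsub : Ico s (s + d) ⊆ range S.l := by
      intro i hi; rw [mem_Ico] at hi; rw [mem_range]; omega
    rw [← Finset.prod_subset hsub]
    · refine Finset.prod_congr rfl fun i hi => ?_
      rw [mem_Ico] at hi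
      rw [if_pos hi]
    · intro i _ hi
      rw [mem_Ico] at hi
      rw [if_neg hi]; simp
  rw [e1, Finset.prod_Ico_eq_prod_range]
  simp

lemma V_rule (s d k : ℕ) (hk : k + 1 < d) (hsd : s + d ≤ S.l) (f : A)
    (hf : S.tau (s + k) (s + k + 1) (f * S.I (s + k + 1)) = f * S.I (s + k + 1)) :
    S.Phi (f * S.V s d) = 0 := by
  rw [S.V_eq s d hsd]
  refine S.wallg (s + k) (by omega) _ (Ico (s + k + 2) (s + d)) ?_ ?_ ?_ ?_ ?_ f hf
  · rw [if_pos (by omega)]
    ext q; simp only [mem_Ico, mem_insert]; omega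
  · rw [if_pos (by omega)]
  · simp
  · simp
  · intro i _ h1 h2
    by_cases h : s ≤ i ∧ i < s + d
    · simp only [if_pos h, mem_Ico]; omega
    · simp only [if_neg h]; simp

lemma T_congr (s d : ℕ) (c : ℕ → A) (h h' : ℕ → ℕ) (hh : ∀ j, j < d → h j = h' j) :
    S.T s d c h = S.T s d c h' := by
  unfold Sys.T
  refine Finset.prod_congr rfl fun j hj => ?_
  rw [hh j (mem_range.1 hj)]

lemma T_step (s d k : ℕ) (hk : k < d) (c : ℕ → A) (h h' : ℕ → ℕ) (h1 : h' k = h k + 1)
    (h2 : ∀ j, j < d → j ≠ k → h' j = h j) :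
    S.T s d c h' = (1 - S.O (s + k) * c (h k)) * S.T s d c h := by
  unfold Sys.T
  rw [← Finset.mul_prod_erase (range d) _ (mem_range.2 hk),
    ← Finset.mul_prod_erase (range d) _ (mem_range.2 hk), h1, Finset.prod_range_succ]
  have : ∏ x ∈ (range d).erase k, ∏ i ∈ range (h' x), (1 - S.O (s + x) * c i)
      = ∏ x ∈ (range d).erase k, ∏ i ∈ range (h x), (1 - S.O (s + x) * c i) := by
    refine Finset.prod_congr rfl fun j hj => ?_
    rw [mem_erase, mem_range] at hj
    rw [h2 j hj.2 hj.1]
  rw [this]; ring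

lemma T_sym (s d k : ℕ) (hk : k + 1 < d) (hsd : s + d ≤ S.l) (c : ℕ → A) (h : ℕ → ℕ)
    (hc : ∀ i, S.tau (s + k) (s + k + 1) (c i) = c i) (hh : h k = h (k + 1)) :
    S.tau (s + k) (s + k + 1) (S.T s d c h) = S.T s d c h := by
  unfold Sys.T
  rw [map_prod]
  refine Finset.prod_equiv (Equiv.swap k (k + 1)) ?_ ?_
  · intro j
    rcases eq_or_ne j k with h1 | h1
    · subst h1; rw [Equiv.swap_apply_left]; simp only [mem_range]; omega
    rcases eq_or_ne j (k + 1) with h2 | h2
    · subst h2; rw [Equiv.swap_apply_right]; simp only [mem_range]; omega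
    rw [Equiv.swap_apply_of_ne_of_ne h1 h2]
  · intro j hj
    rw [mem_range] at hj
    rcases eq_or_ne j k with h1 | h1
    · subst h1
      rw [Equiv.swap_apply_left, map_prod, ← hh]
      refine Finset.prod_congr rfl fun i _ => ?_
      rw [map_sub, map_one, map_mul, hc, S.tau_l _ _ (by omega) (by omega), ← add_assoc]
    rcases eq_or_ne j (k + 1) with h2 | h2
    · subst h2
      rw [Equiv.swap_apply_right, map_prod, hh]
      refine Finset.prod_congr rfl fun i _ => ?_
      rw [map_sub, map_one, map_mul, hc, ← add_assoc, S.tau_r _ _ (by omega) (by omega)]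
    rw [Equiv.swap_apply_of_ne_of_ne h1 h2, map_prod]
    refine Finset.prod_congr rfl fun i _ => ?_
    rw [map_sub, map_one, map_mul, hc, S.tau_o _ _ _ (by omega) (by omega) (by omega) (by omega)]

/-- rule (Q) for the block -/
lemma blockQ (s d k : ℕ) (hk : k + 1 < d) (hsd : s + d ≤ S.l) (c : ℕ → A)
    (hc : ∀ i, S.tau (s + k) (s + k + 1) (c i) = c i) (h h' : ℕ → ℕ) (hh : h k = h (k + 1))
    (h1 : h' (k + 1) = h (k + 1) + 1) (h2 : ∀ j, j < d → j ≠ k + 1 → h' j = h j) (G : A)
    (hG : S.tau (s + k) (s + k + 1) G = G) :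
    S.Phi (G * S.T s d c h' * S.V s d) = S.Phi (G * S.T s d c h * S.V s d) := by
  rw [S.T_step s d (k + 1) hk c h h' h1 h2, ← sub_eq_zero, ← map_sub]
  have hT := S.T_sym s d k hk hsd c h hc hh
  have key := S.V_rule s d k hk hsd (G * S.T s d c h * (S.O (s + k + 1) * c (h (k + 1)))) (by
    have ho := S.OI (s + k + 1)
    have e : G * S.T s d c h * (S.O (s + k + 1) * c (h (k + 1))) * S.I (s + k + 1)
        = G * S.T s d c h * c (h (k + 1)) := by
      linear_combination (G * S.T s d c h * c (h (k + 1))) * ho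
    rw [e, map_mul, map_mul, hG, hT, hc])
  rw [show s + (k + 1) = s + k + 1 by ring]
  have e2 : G * ((1 - S.O (s + k + 1) * c (h (k + 1))) * S.T s d c h) * S.V s d
      - G * S.T s d c h * S.V s d =
      -(G * S.T s d c h * (S.O (s + k + 1) * c (h (k + 1))) * S.V s d) := by ring
  rw [e2, map_neg, key, neg_zero]

/-- rule (AQ) for the block -/
lemma blockAQ (s d k : ℕ) (hk : k + 1 < d) (hsd : s + d ≤ S.l) (c : ℕ → A)
    (hc : ∀ i, S.tau (s + k) (s + k + 1) (c i) = c i) (h h' : ℕ → ℕ) (hh : h k = h (k + 1))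
    (h1 : h' (k + 1) = h (k + 1) + 1) (h2 : ∀ j, j < d → j ≠ k + 1 → h' j = h j) (G a : A)
    (hG : S.tau (s + k) (s + k + 1) G = G) (ha : S.tau (s + k) (s + k + 1) a = a) :
    S.Phi (G * (1 - a * S.I (s + k)) * S.T s d c h' * S.V s d) =
    S.Phi (G * (1 - a * c (h k)) * S.T s d c h * S.V s d) := by
  rw [S.T_step s d (k + 1) hk c h h' h1 h2, ← sub_eq_zero, ← map_sub, hh]
  have hT := S.T_sym s d k hk hsd c h hc hh
  have ho := S.OI (s + k + 1)
  have key := S.V_rule s d k hk hsd (G * S.T s d c h *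
    ((1 - a * S.I (s + k)) * (1 - S.O (s + k + 1) * c (h (k + 1))) - (1 - a * c (h (k + 1))))) (by
    have e : G * S.T s d c h * ((1 - a * S.I (s + k)) * (1 - S.O (s + k + 1) * c (h (k + 1)))
          - (1 - a * c (h (k + 1)))) * S.I (s + k + 1)
        = G * S.T s d c h * (- a * (S.I (s + k) * S.I (s + k + 1)) - c (h (k + 1))
          + a * c (h (k + 1)) * (S.I (s + k) + S.I (s + k + 1))) := by
      linear_combination (G * S.T s d c h * (- c (h (k + 1)) + a * c (h (k + 1)) * S.I (s + k))) * ho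
    rw [e, map_mul, map_mul, hG, hT, map_add, map_sub, map_mul, map_mul, map_neg, map_mul, map_mul,
      map_add, hc, ha, S.tau_Il _ _ (by omega) (by omega), S.tau_Ir _ _ (by omega) (by omega)]
    ring)
  rw [show s + (k + 1) = s + k + 1 by ring]
  rw [← key]
  congr 1
  ring

/-- the stairs can be removed -/
lemma clear (s d : ℕ) (hsd : s + d ≤ S.l) (c : ℕ → A)
    (hc : ∀ k, k + 1 < d → ∀ i, S.tau (s + k) (s + k + 1) (c i) = c i) (G : A)
    (hG : ∀ k, k + 1 < d → S.tau (s + k) (s + k + 1) G = G) :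
    S.Phi (G * S.T s d c (fun j => j) * S.V s d) = S.Phi (G * S.V s d) := by
  -- heights
  have step : ∀ r k, k < d →
      S.Phi (G * S.T s d c (fun j => if j < k + 1 then j - r else j - (r + 1)) * S.V s d) =
      S.Phi (G * S.T s d c (fun j => if j < k then j - r else j - (r + 1)) * S.V s d) := by
    intro r k hk
    by_cases hkr : k ≤ r
    · congr 3
      apply S.T_congr
      intro j _
      split_ifs <;> omega
    · obtain ⟨k', rfl⟩ : ∃ k', k = k' + 1 := ⟨k - 1, by omega⟩
      refine S.blockQ s d k' hk hsd c (hc k' hk) _ _ ?_ ?_ ?_ G (hG k' hk)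
      · rw [if_pos (by omega), if_neg (by omega)]; omega
      · rw [if_pos (by omega), if_neg (by omega)]; omega
      · intro j _ hj
        split_ifs <;> omega
  have round : ∀ r, ∀ k, k ≤ d →
      S.Phi (G * S.T s d c (fun j => if j < k then j - r else j - (r + 1)) * S.V s d) =
      S.Phi (G * S.T s d c (fun j => j - (r + 1)) * S.V s d) := by
    intro r k
    induction k with
    | zero =>
      intro _
      congr 3
    | succ k ih => intro hk; rw [step r k (by omega), ih (by omega)]
  have rounds : ∀ r, S.Phi (G * S.T s d c (fun j => j) * S.V s d) =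
      S.Phi (G * S.T s d c (fun j => j - r) * S.V s d) := by
    intro r
    induction r with
    | zero => rfl
    | succ r ih =>
      rw [ih, ← round r d le_rfl]
      congr 3
      apply S.T_congr
      intro j hj
      rw [if_pos hj]
  rw [rounds d]
  congr 2
  unfold Sys.T
  rw [Finset.prod_eq_one]
  · ring
  · intro j hj
    rw [mem_range] at hj
    have h0 : j - d = 0 := by omega
    simp [h0]

/-- one row `a` is moved across the block -/
lemma move (s d z : ℕ) (hz : z < d) (hsd : s + d ≤ S.l) (c : ℕ → A)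
    (hc : ∀ k, k + 1 < d → ∀ i, S.tau (s + k) (s + k + 1) (c i) = c i) (G a : A)
    (hG : ∀ k, k < z → S.tau (s + k) (s + k + 1) G = G)
    (ha : ∀ k, k < z → S.tau (s + k) (s + k + 1) a = a) :
    S.Phi (G * (∏ i ∈ range z, (1 - a * S.I (s + i))) * S.T s d c (fun j => j) * S.V s d) =
    S.Phi (G * (∏ i ∈ range z, (1 - a * c i)) * S.T s d c (fun j => j) * S.V s d) := by
  -- phase 1
  have step1 : ∀ k, k < z →
      S.Phi (G * ((∏ i ∈ range (k + 1), (1 - a * S.I (s + i))) * ∏ i ∈ Ico (k + 1) z, (1 - a * c i)) *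
        S.T s d c (fun j => if k + 1 < j ∧ j ≤ z then j - 1 else j) * S.V s d) =
      S.Phi (G * ((∏ i ∈ range k, (1 - a * S.I (s + i))) * ∏ i ∈ Ico k z, (1 - a * c i)) *
        S.T s d c (fun j => if k < j ∧ j ≤ z then j - 1 else j) * S.V s d) := by
    intro k hk
    rw [Finset.prod_range_succ, Finset.prod_eq_prod_Ico_succ_bot hk]
    have := S.blockAQ s d k (by omega) hsd c (hc k (by omega))
      (fun j => if k < j ∧ j ≤ z then j - 1 else j) (fun j => if k + 1 < j ∧ j ≤ z then j - 1 else j)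
      (by rw [if_neg (by omega), if_pos (by omega)]; omega)
      (by rw [if_neg (by omega), if_pos (by omega)]; omega)
      (by intro j _ hj; split_ifs <;> omega)
      (G * (∏ i ∈ range k, (1 - a * S.I (s + i))) * ∏ i ∈ Ico (k + 1) z, (1 - a * c i)) a
      (by
        rw [map_mul, map_mul, hG k hk, map_prod, map_prod]
        congr 1
        · congr 1
          refine Finset.prod_congr rfl fun i hi => ?_
          rw [mem_range] at hi
          rw [map_sub, map_one, map_mul, ha k hk, S.tau_Io _ _ _ (by omega) (by omega) (by omega) (by omega)]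
        · refine Finset.prod_congr rfl fun i _ => ?_
          rw [map_sub, map_one, map_mul, ha k hk, hc k (by omega)])
      (ha k hk)
    rw [if_neg (by omega : ¬ (k < k ∧ k ≤ z))] at this
    have e1 : G * ((∏ i ∈ range k, (1 - a * S.I (s + i))) * (1 - a * S.I (s + k)) *
        ∏ i ∈ Ico (k + 1) z, (1 - a * c i)) =
        G * (∏ i ∈ range k, (1 - a * S.I (s + i))) * (∏ i ∈ Ico (k + 1) z, (1 - a * c i)) *
        (1 - a * S.I (s + k)) := by ring
    have e2 : G * ((∏ i ∈ range k, (1 - a * S.I (s + i))) * ((1 - a * c k) *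
        ∏ i ∈ Ico (k + 1) z, (1 - a * c i))) =
        G * (∏ i ∈ range k, (1 - a * S.I (s + i))) * (∏ i ∈ Ico (k + 1) z, (1 - a * c i)) *
        (1 - a * c k) := by ring
    rw [e1, e2]
    exact this
  have phase1 : ∀ k, k ≤ z →
      S.Phi (G * ((∏ i ∈ range k, (1 - a * S.I (s + i))) * ∏ i ∈ Ico k z, (1 - a * c i)) *
        S.T s d c (fun j => if k < j ∧ j ≤ z then j - 1 else j) * S.V s d) =
      S.Phi (G * (∏ i ∈ range z, (1 - a * c i)) *
        S.T s d c (fun j => if 0 < j ∧ j ≤ z then j - 1 else j) * S.V s d) := by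
    intro k
    induction k with
    | zero => intro _; simp
    | succ k ih => intro hk; rw [step1 k (by omega), ih (by omega)]
  -- phase 2
  have step2 : ∀ k, k < z →
      S.Phi (G * (∏ i ∈ range z, (1 - a * c i)) *
        S.T s d c (fun j => if k + 1 < j ∧ j ≤ z then j - 1 else j) * S.V s d) =
      S.Phi (G * (∏ i ∈ range z, (1 - a * c i)) *
        S.T s d c (fun j => if k < j ∧ j ≤ z then j - 1 else j) * S.V s d) := by
    intro k hk
    refine S.blockQ s d k (by omega) hsd c (hc k (by omega)) _ _ ?_ ?_ ?_ _ ?_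
    · rw [if_neg (by omega), if_pos (by omega)]; omega
    · rw [if_neg (by omega), if_pos (by omega)]; omega
    · intro j _ hj; split_ifs <;> omega
    · rw [map_mul, hG k hk, map_prod]
      congr 1
      refine Finset.prod_congr rfl fun i _ => ?_
      rw [map_sub, map_one, map_mul, ha k hk, hc k (by omega)]
  have phase2 : ∀ k, k ≤ z →
      S.Phi (G * (∏ i ∈ range z, (1 - a * c i)) *
        S.T s d c (fun j => if k < j ∧ j ≤ z then j - 1 else j) * S.V s d) =
      S.Phi (G * (∏ i ∈ range z, (1 - a * c i)) *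
        S.T s d c (fun j => if 0 < j ∧ j ≤ z then j - 1 else j) * S.V s d) := by
    intro k
    induction k with
    | zero => intro _; rfl
    | succ k ih => intro hk; rw [step2 k (by omega), ih (by omega)]
  have h1 := phase1 z le_rfl
  have h2 := phase2 z le_rfl
  rw [Finset.Ico_self, Finset.prod_empty, mul_one] at h1
  have hT : S.T s d c (fun j => if z < j ∧ j ≤ z then j - 1 else j) = S.T s d c (fun j => j) := by
    apply S.T_congr
    intro j _
    rw [if_neg (by omega)]
  rw [hT] at h1 h2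
  rw [h1, h2]

end Sys

end Pool.Agent.H68.KB
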