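import Pool.Agent.H68.KB.Conc

set_option autoImplicit false

open Finset

namespace Pool.Agent.H68.KB

variable {R : Type} [CommRing R]

/-- the functional at an integer vector -/
noncomputable def Tf (h : ℕ → R) {l : ℕ} (F : MvPowerSeries ℕ R) (γ : Fin l → ℤ) : R :=
  open Classical in
  if ∀ i, 0 ≤ γ i then MvPowerSeries.coeff (ex γ) (F * HH h l) else 0

lemma Tf_neg' (h : ℕ → R) {l : ℕ} (F : MvPowerSeries ℕ R) (γ : Fin l → ℤ) (i : Fin l)
    (hi : γ i < 0) : Tf h F γ = 0 := by
  unfold Tf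
  rw [if_neg]
  intro hh
  have := hh i
  omega

lemma Tf_add (h : ℕ → R) {l : ℕ} (F G : MvPowerSeries ℕ R) (γ : Fin l → ℤ) :
    Tf h (F + G) γ = Tf h F γ + Tf h G γ := by
  unfold Tf
  split_ifs
  · rw [add_mul, map_add]
  · simp

lemma Tf_zero (h : ℕ → R) {l : ℕ} (γ : Fin l → ℤ) : Tf h 0 γ = 0 := by
  unfold Tf
  split_ifs <;> simp

/-- as an additive map -/
noncomputable def TfH (h : ℕ → R) {l : ℕ} (γ : Fin l → ℤ) : MvPowerSeries ℕ R →+ R where
  toFun F := Tf h F γ
  map_zero' := Tf_zero h γ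
  map_add' F G := Tf_add h F G γ

lemma Tf_sub (h : ℕ → R) {l : ℕ} (F G : MvPowerSeries ℕ R) (γ : Fin l → ℤ) :
    Tf h (F - G) γ = Tf h F γ - Tf h G γ := (TfH h γ).map_sub F G

lemma Tf_sum (h : ℕ → R) {l : ℕ} {ι : Type} (s : Finset ι) (F : ι → MvPowerSeries ℕ R)
    (γ : Fin l → ℤ) : Tf h (∑ i ∈ s, F i) γ = ∑ i ∈ s, Tf h (F i) γ := map_sum (TfH h γ) F s

lemma Tf_zsmul (h : ℕ → R) {l : ℕ} (n : ℤ) (F : MvPowerSeries ℕ R) (γ : Fin l → ℤ) :
    Tf h (n • F) γ = n • Tf h F γ := map_zsmul (TfH h γ) n F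

/-- multiplication by a variable shifts the index -/
lemma Tf_X (h : ℕ → R) {l : ℕ} (F : MvPowerSeries ℕ R) (γ : Fin l → ℤ) (i : Fin l) :
    Tf h (MvPowerSeries.X (i : ℕ) * F) (γ + Pi.single i 1) = Tf h F γ := by
  classical
  by_cases hneg : ∃ j, γ j < 0
  · obtain ⟨j, hj⟩ := hneg
    rw [Tf_neg' h F γ j hj]
    by_cases hji : j = i
    · subst hji
      by_cases h1 : γ j + 1 < 0
      · rw [Tf_neg' h _ _ j]
        simpa using h1
      · unfold Tf
        split_ifs
        · have h2 : ex (γ + Pi.single j 1) (j : ℕ) = 0 := by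
            rw [ex_apply]
            simp only [Pi.add_apply, Pi.single_eq_same]
            omega
          rw [mul_assoc]
          exact MvPowerSeries.X_dvd_iff.1 (Dvd.intro _ rfl) _ h2
        · rfl
    · rw [Tf_neg' h _ _ j]
      simpa [Pi.single_eq_of_ne hji] using hj
  · have hpos : ∀ j, 0 ≤ γ j := by
      intro j; by_contra hcon; exact hneg ⟨j, not_le.1 hcon⟩
    have hpos' : ∀ j, 0 ≤ (γ + (Pi.single i 1 : Fin l → ℤ)) j := by
      intro j
      have := hpos j
      by_cases hji : j = i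
      · subst hji; simp only [Pi.add_apply, Pi.single_eq_same]; omega
      · simp only [Pi.add_apply, Pi.single_eq_of_ne hji]; omega
    unfold Tf
    rw [if_pos hpos, if_pos hpos', mul_assoc]
    have e : ex (γ + Pi.single i 1) = Finsupp.single (i : ℕ) 1 + ex γ := by
      ext k
      rw [Finsupp.add_apply, ex_apply', ex_apply']
      by_cases hk : k < l
      · rw [dif_pos hk, dif_pos hk]
        by_cases hki : k = i
        · have hk' : (⟨k, hk⟩ : Fin l) = i := Fin.ext hki
          rw [hk', hki]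
          have := hpos i
          simp only [Pi.add_apply, Pi.single_eq_same, Finsupp.single_eq_same]
          omega
        · have hk' : (⟨k, hk⟩ : Fin l) ≠ i := fun hh => hki (by rw [← hh])
          rw [Finsupp.single_eq_of_ne hki]
          simp only [Pi.add_apply, Pi.single_eq_of_ne hk']
          simp
      · rw [dif_neg hk, dif_neg hk, Finsupp.single_eq_of_ne]
        intro hh; have := i.2; omega
    rw [e, MvPowerSeries.X]
    rw [MvPowerSeries.coeff_add_monomial_mul, one_mul]

lemma Tf_X' (h : ℕ → R) {l : ℕ} (F : MvPowerSeries ℕ R) (γ : Fin l → ℤ) (i : Fin l) :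
    Tf h (MvPowerSeries.X (i : ℕ) * F) γ = Tf h F (γ - Pi.single i 1) := by
  have := Tf_X h F (γ - Pi.single i 1) i
  rwa [sub_add_cancel] at this

lemma Tf_Xpow (h : ℕ → R) {l : ℕ} (F : MvPowerSeries ℕ R) (γ : Fin l → ℤ) (i : Fin l) (n : ℕ) :
    Tf h (MvPowerSeries.X (i : ℕ) ^ n * F) (γ + Pi.single i (n : ℤ)) = Tf h F γ := by
  induction n with
  | zero => simp
  | succ n ih =>
    rw [pow_succ', mul_assoc]
    have e : γ + Pi.single i ((n + 1 : ℕ) : ℤ) = (γ + Pi.single i (n : ℤ)) + Pi.single i 1 := by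
      rw [add_assoc, ← Pi.single_add]; push_cast; rfl
    rw [e, Tf_X, ih]

/-- shifting by several variables -/
lemma Tf_Xprod (h : ℕ → R) {l : ℕ} (F : MvPowerSeries ℕ R) (γ : Fin l → ℤ) (n : Fin l → ℕ) :
    Tf h ((∏ i : Fin l, MvPowerSeries.X (i : ℕ) ^ n i) * F) (fun i => γ i + n i) = Tf h F γ := by
  classical
  have key : ∀ s : Finset (Fin l), Tf h ((∏ i ∈ s, MvPowerSeries.X (i : ℕ) ^ n i) * F)
      (fun i => γ i + if i ∈ s then (n i : ℤ) else 0) = Tf h F γ := by
    intro s
    induction s using Finset.induction_on with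
    | empty => simp
    | insert a s ha ih =>
      rw [Finset.prod_insert ha, mul_assoc, ← ih]
      have e : (fun i => γ i + if i ∈ insert a s then (n i : ℤ) else 0) =
          (fun i => γ i + if i ∈ s then (n i : ℤ) else 0) + Pi.single a ((n a : ℕ) : ℤ) := by
        funext i
        by_cases hia : i = a
        · subst hia
          simp [ha]
        · simp only [Pi.add_apply, Pi.single_eq_of_ne hia, add_zero, Finset.mem_insert, hia,
            false_or]
      rw [e, Tf_Xpow]
  have := key Finset.univ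
  simpa using this

/-- `k^{(r)}_m` -/
def Kf (h : ℕ → R) (r : ℕ) (m : ℤ) : R :=
  if m < 0 then 0 else
    ∑ j ∈ range (m.toNat + 1), (((Nat.choose (r + j - 1) j : ℤ)) : R) * h (m.toNat - j)

lemma Kf_neg (h : ℕ → R) (r : ℕ) (m : ℤ) (hm : m < 0) : Kf h r m = 0 := by
  unfold Kf; rw [if_pos hm]

lemma Kf_zero (h : ℕ → R) (m : ℤ) (hm : 0 ≤ m) : Kf h 0 m = h m.toNat := by
  unfold Kf
  rw [if_neg (by omega), Finset.sum_range_succ']
  simp only [Nat.zero_add, Nat.sub_zero]
  rw [Finset.sum_eq_zero]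
  · simp
  · intro j _
    rw [Nat.choose_eq_zero_of_lt (by omega)]
    simp

lemma Kf_succ (h : ℕ → R) (r : ℕ) (m : ℤ) : Kf h (r + 1) m = Kf h (r + 1) (m - 1) + Kf h r m := by
  by_cases hm : m < 0
  · rw [Kf_neg h _ _ hm, Kf_neg h _ _ hm, Kf_neg h _ _ (by omega), add_zero]
  obtain ⟨n, rfl⟩ : ∃ n : ℕ, m = n := ⟨m.toNat, by omega⟩
  cases n with
  | zero =>
    rw [Kf_neg h _ (((0 : ℕ) : ℤ) - 1) (by simp)]
    unfold Kf
    simp
  | succ n =>
    unfold Kf
    rw [if_neg (by omega), if_neg (by omega), if_neg (by omega)]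
    have e1 : ((n + 1 : ℕ) : ℤ).toNat = n + 1 := by omega
    have e2 : (((n + 1 : ℕ) : ℤ) - 1).toNat = n := by omega
    rw [e1, e2, Finset.sum_range_succ' _ (n + 1), Finset.sum_range_succ' _ (n + 1), ← add_assoc,
      ← Finset.sum_add_distrib]
    congr 1
    · refine Finset.sum_congr rfl fun j _ => ?_
      have e3 : n + 1 - (j + 1) = n - j := by omega
      rw [e3, ← add_mul]
      congr 1
      have e4 : r + 1 + (j + 1) - 1 = (r + j) + 1 := by omega
      have e5 : r + 1 + j - 1 = r + j := by omega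
      have e6 : r + (j + 1) - 1 = r + j := by omega
      rw [e4, e5, e6, Nat.choose_succ_succ]
      push_cast; ring
    · simp

/-- `T(∏ I_i^{e_i})` -/
lemma Tf_K (h : ℕ → R) {l : ℕ} : ∀ (N : ℕ) (e : Fin l → ℕ), ∑ i, e i = N → ∀ γ : Fin l → ℤ,
    Tf h (∏ i : Fin l, ii R l i ^ e i) γ = ∏ i, Kf h (e i) (γ i) := by
  classical
  intro N
  induction N with
  | zero =>
    intro e he γ
    have h0 : ∀ i, e i = 0 := by
      intro i
      have := Finset.sum_eq_zero_iff.1 he i (Finset.mem_univ i)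
      exact this
    simp only [h0, pow_zero, Finset.prod_const_one]
    by_cases hneg : ∃ j, γ j < 0
    · obtain ⟨j, hj⟩ := hneg
      rw [Tf_neg' h _ γ j hj, Finset.prod_eq_zero (Finset.mem_univ j) (Kf_neg h _ _ hj)]
    · have hpos : ∀ j, 0 ≤ γ j := by
        intro j; by_contra hcon; exact hneg ⟨j, not_le.1 hcon⟩
      unfold Tf
      rw [if_pos hpos, one_mul, coeff_HH, Finset.prod_range]
      refine Finset.prod_congr rfl fun i _ => ?_
      rw [ex_apply, Kf_zero h _ (hpos i)]
  | succ N ih =>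
    intro e he γ
    obtain ⟨i, hi⟩ : ∃ i, 0 < e i := by
      by_contra hcon
      push Not at hcon
      have : ∑ i, e i = 0 := Finset.sum_eq_zero (fun i _ => by have := hcon i; omega)
      omega
    obtain ⟨r, hr⟩ : ∃ r, e i = r + 1 := ⟨e i - 1, by omega⟩
    set e' : Fin l → ℕ := Function.update e i r with he'
    have he'i : e' i = r := by simp [he']
    have he'j : ∀ j, j ≠ i → e' j = e j := fun j hj => by simp [he', hj]
    have hsum : ∑ j, e' j = N := by
      rw [← Finset.add_sum_erase _ _ (Finset.mem_univ i)] at he ⊢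
      have : ∑ x ∈ Finset.univ.erase i, e' x = ∑ x ∈ Finset.univ.erase i, e x :=
        Finset.sum_congr rfl fun x hx => he'j x (Finset.ne_of_mem_erase hx)
      rw [this, he'i]
      omega
    have hprod : ∀ f : Fin l → ℕ → R, ∏ j, f j (e j) = f i (r + 1) * ∏ x ∈ Finset.univ.erase i, f x (e x) := by
      intro f
      rw [← Finset.mul_prod_erase _ _ (Finset.mem_univ i), hr]
    have hI : (1 - MvPowerSeries.X (i : ℕ)) * (∏ j : Fin l, ii R l j ^ e j) = ∏ j : Fin l, ii R l j ^ e' j := by
      rw [← Finset.mul_prod_erase _ _ (Finset.mem_univ i), ← Finset.mul_prod_erase _ _ (Finset.mem_univ i),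
        hr, he'i]
      have h1 : ∏ x ∈ Finset.univ.erase i, ii R l (x : ℕ) ^ e' x =
          ∏ x ∈ Finset.univ.erase i, ii R l (x : ℕ) ^ e x :=
        Finset.prod_congr rfl fun x hx => by rw [he'j x (Finset.ne_of_mem_erase hx)]
      rw [h1]
      have h2 : (1 - MvPowerSeries.X (i : ℕ)) * ii R l (i : ℕ) = 1 := by
        have := oo_ii (R := R) l i
        unfold oo at this
        rwa [if_pos i.2] at this
      rw [pow_succ']
      linear_combination (ii R l (i : ℕ) ^ r * ∏ x ∈ Finset.univ.erase i, ii R l (x : ℕ) ^ e x) * h2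
    -- recursion in γ i
    have key : ∀ n : ℕ, ∀ γ : Fin l → ℤ, γ i < n →
        Tf h (∏ i : Fin l, ii R l i ^ e i) γ = ∏ i, Kf h (e i) (γ i) := by
      intro n
      induction n with
      | zero =>
        intro γ hγ
        rw [Tf_neg' h _ γ i (by simpa using hγ), Finset.prod_eq_zero (Finset.mem_univ i)
          (Kf_neg h _ _ (by simpa using hγ))]
      | succ n ihn =>
        intro γ hγ
        have h1 := ihn (γ - Pi.single i 1) (by
          simp only [Pi.sub_apply, Pi.single_eq_same]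
          push_cast at hγ
          omega)
        have h2 := ih e' hsum γ
        rw [← hI, sub_mul, one_mul, Tf_sub, Tf_X', h1] at h2
        have h3 : ∏ j, Kf h (e j) (γ j) = ∏ j, Kf h (e j) ((γ - (Pi.single i 1 : Fin l → ℤ)) j) + ∏ j, Kf h (e' j) (γ j) := by
          rw [← Finset.mul_prod_erase _ (fun j => Kf h (e j) (γ j)) (Finset.mem_univ i),
            ← Finset.mul_prod_erase _ (fun j => Kf h (e j) ((γ - (Pi.single i 1 : Fin l → ℤ)) j)) (Finset.mem_univ i),
            ← Finset.mul_prod_erase _ (fun j => Kf h (e' j) (γ j)) (Finset.mem_univ i)]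
          have a1 : ∏ x ∈ Finset.univ.erase i, Kf h (e x) ((γ - (Pi.single i 1 : Fin l → ℤ)) x) =
              ∏ x ∈ Finset.univ.erase i, Kf h (e x) (γ x) :=
            Finset.prod_congr rfl fun x hx => by
              have := Finset.ne_of_mem_erase hx
              simp [Pi.single_eq_of_ne this]
          have a2 : ∏ x ∈ Finset.univ.erase i, Kf h (e' x) (γ x) =
              ∏ x ∈ Finset.univ.erase i, Kf h (e x) (γ x) :=
            Finset.prod_congr rfl fun x hx => by rw [he'j x (Finset.ne_of_mem_erase hx)]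
          rw [a1, a2, hr, he'i, Kf_succ]
          simp only [Pi.sub_apply, Pi.single_eq_same]
          ring
        rw [h3, ← h2]; ring
    refine key ((γ i).toNat + 1) γ ?_
    push_cast
    have := Int.self_le_toNat (γ i)
    omega

end Pool.Agent.H68.KB
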