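import Pool.Agent.H68.KB.GW

set_option autoImplicit false

open Finset

namespace Pool.Agent.H68.KB

variable {R : Type} [CommRing R]

/-- rows `< l` with `l'` variables -/
noncomputable def Rw (R : Type) [CommRing R] (l' l : ℕ) (b : ℕ → ℕ) : MvPowerSeries ℕ R :=
  ∏ i ∈ range l, ∏ q ∈ Ico (i + 1) (b i), (1 - oo R l' i * ii R l' q)

lemma Rw_congr (l : ℕ) (b : ℕ → ℕ) :
    (MvPowerSeries.X l : MvPowerSeries ℕ R) ∣ Rw R (l + 1) l b - Rw R l l b := by
  rw [← Ideal.mem_span_singleton, ← Ideal.Quotient.eq]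
  unfold Rw
  rw [map_prod, map_prod]
  refine Finset.prod_congr rfl fun i hi => ?_
  rw [mem_range] at hi
  rw [map_prod, map_prod]
  refine Finset.prod_congr rfl fun q _ => ?_
  rw [map_sub, map_sub, map_mul, map_mul]
  have h1 : oo R (l + 1) i = oo R l i := by
    unfold oo; rw [if_pos hi, if_pos (by omega)]
  rw [h1]
  congr 2
  rcases lt_trichotomy q l with h | h | h
  · unfold ii; rw [if_pos h, if_pos (by omega)]
  · subst h
    rw [Ideal.Quotient.eq, Ideal.mem_span_singleton]
    have h2 := oo_ii (R := R) (q + 1) q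
    have h3 : ii R q q = 1 := by unfold ii; rw [if_neg (lt_irrefl q)]
    have h4 : oo R (q + 1) q = 1 - MvPowerSeries.X q := by unfold oo; rw [if_pos (by omega)]
    rw [h4] at h2
    refine ⟨ii R (q + 1) q, ?_⟩
    rw [h3]
    linear_combination h2
  · unfold ii; rw [if_neg (by omega), if_neg (by omega)]

lemma coeff_HH_succ (h : ℕ → R) (h0 : h 0 = 1) (l : ℕ) (F : MvPowerSeries ℕ R) (m : ℕ →₀ ℕ)
    (hm : m l = 0) : MvPowerSeries.coeff m (F * HH h (l + 1)) = MvPowerSeries.coeff m (F * HH h l) := by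
  classical
  rw [MvPowerSeries.coeff_mul, MvPowerSeries.coeff_mul]
  refine Finset.sum_congr rfl fun p hp => ?_
  rw [Finset.HasAntidiagonal.mem_antidiagonal] at hp
  congr 1
  rw [coeff_HH, coeff_HH, Finset.prod_range_succ]
  have : p.2 l = 0 := by
    have := congrArg (fun x : ℕ →₀ ℕ => x l) hp
    simp only [Finsupp.add_apply] at this
    omega
  rw [this, h0, mul_one]

/-- removing a last row -/
lemma last_row (two : ∀ x : R, x + x = 0 → x = 0) (h : ℕ → R) (h0 : h 0 = 1) (l κ : ℕ)
    (b : ℕ → ℕ) (hb : κ + l + 1 ≤ b l) :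
    (cs two h (l + 1) κ).Phi ((cs two h (l + 1) κ).W b) =
      if b l = κ + l + 1 then (cs two h l κ).Phi ((cs two h l κ).W b) else 0 := by
  classical
  have hW : (cs two h (l + 1) κ).W b = MvPowerSeries.X l ^ (b l - (l + 1)) * Rw R (l + 1) l b := by
    show ∏ i ∈ range (l + 1), ∏ q ∈ Ico (i + 1) (b i), (1 - oo R (l + 1) i * ii R (l + 1) q) = _
    rw [Finset.prod_range_succ, mul_comm]
    congr 1
    have h5 : ∀ q ∈ Ico (l + 1) (b l), (1 - oo R (l + 1) l * ii R (l + 1) q) = MvPowerSeries.X l := by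
      intro q hq
      rw [Finset.mem_Ico] at hq
      unfold oo ii
      rw [if_pos (by omega), if_neg (by omega)]
      ring
    rw [Finset.prod_congr rfl h5, Finset.prod_const, Nat.card_Ico]
  show MvPowerSeries.coeff (ex (fun _ : Fin (l + 1) => (κ : ℤ))) ((cs two h (l + 1) κ).W b * HH h (l + 1)) = _
  rw [hW, mul_assoc]
  have hexl : ex (fun _ : Fin (l + 1) => (κ : ℤ)) l = κ := by
    rw [ex_apply', dif_pos (by omega)]; simp
  by_cases hbl : b l = κ + l + 1
  · rw [if_pos hbl, hbl, show κ + l + 1 - (l + 1) = κ by omega]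
    have e : ex (fun _ : Fin (l + 1) => (κ : ℤ)) = Finsupp.single l κ + ex (fun _ : Fin l => (κ : ℤ)) := by
      ext k
      rw [Finsupp.add_apply, ex_apply', ex_apply']
      rcases lt_trichotomy k l with hk | hk | hk
      · rw [dif_pos (by omega), dif_pos hk, Finsupp.single_eq_of_ne (by omega)]; simp
      · subst hk
        rw [dif_pos (by omega), dif_neg (lt_irrefl k), Finsupp.single_eq_same]; simp
      · rw [dif_neg (by omega), dif_neg (by omega), Finsupp.single_eq_of_ne (by omega)]
    rw [e, MvPowerSeries.X_pow_eq, MvPowerSeries.coeff_add_monomial_mul, one_mul]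
    have hml : ex (fun _ : Fin l => (κ : ℤ)) l = 0 := ex_apply_ge _ l le_rfl
    rw [coeff_HH_succ h h0 l _ _ hml]
    show _ = MvPowerSeries.coeff (ex (fun _ : Fin l => (κ : ℤ))) (Rw R l l b * HH h l)
    rw [← sub_eq_zero, ← map_sub, ← sub_mul]
    obtain ⟨Q, hQ⟩ := Rw_congr (R := R) l b
    rw [hQ, mul_assoc]
    exact MvPowerSeries.X_dvd_iff.1 (Dvd.intro _ rfl) _ hml
  · rw [if_neg hbl]
    refine MvPowerSeries.X_pow_dvd_iff.1 (Dvd.intro _ rfl) _ ?_
    rw [hexl]; omega

/-- reduction to partitions with positive parts -/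
lemma to_partition (two : ∀ x : R, x + x = 0 → x = 0) (h : ℕ → R) (h0 : h 0 = 1) (κ : ℕ) :
    ∀ (l : ℕ) (b : ℕ → ℕ), (∀ i, i < b i) → (∀ i, i + 1 < l → b i < b (i + 1)) →
      (cs two h l κ).Phi ((cs two h l κ).W b) = 0 ∨
      ∃ l' : ℕ, l' ≤ l ∧ (∀ i, i < l' → b i ≤ κ + i) ∧
        (∑ i ∈ range l', (κ + i + 1 - b i)) + wt l b = ∑ i ∈ range l, (κ + i + 1) ∧
        (cs two h l κ).Phi ((cs two h l κ).W b) = (cs two h l' κ).Phi ((cs two h l' κ).W b) := by
  intro l
  induction l with
  | zero =>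
    intro b hlt hmono
    right
    exact ⟨0, le_rfl, fun i hi => absurd hi (Nat.not_lt_zero i), by simp [wt], rfl⟩
  | succ l ih =>
    intro b hlt hmono
    by_cases hbl : κ + l + 1 ≤ b l
    · rw [last_row two h h0 l κ b hbl]
      by_cases hbl' : b l = κ + l + 1
      · rw [if_pos hbl']
        rcases ih b hlt (fun i hi => hmono i (by omega)) with h1 | ⟨l', h1, h2, h3, h4⟩
        · left; exact h1
        · right
          refine ⟨l', by omega, h2, ?_, h4⟩
          have e1 : wt (l + 1) b = wt l b + b l := by unfold wt; rw [Finset.sum_range_succ]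
          rw [e1, Finset.sum_range_succ, hbl', ← h3]; ring
      · left; rw [if_neg hbl']
    · right
      have hall : ∀ i, i < l + 1 → b i ≤ κ + i := by
        intro i hi
        have := mono_add (l := l + 1) hmono i (l - i) (by omega)
        rw [show i + (l - i) = l by omega] at this
        omega
      refine ⟨l + 1, le_rfl, hall, ?_, rfl⟩
      unfold wt
      rw [← Finset.sum_add_distrib]
      refine Finset.sum_congr rfl fun i hi => ?_
      have := hall i (mem_range.1 hi)
      omega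

end Pool.Agent.H68.KB
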